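import Mathlib

/-!
# Project HE (MP_e5f486_ag): dg algebras with an action of a group, their homology algebras
-/

set_option autoImplicit false

namespace Pool.Agent.Helper49.HE

variable {k R L : Type} [Field k] [Ring R] [Algebra k R] [Ring L] [Algebra k L]

/-- `(R, d)` is a dg algebra with an action of `G`; `d` has degree `-1` -/
structure IsDG (G : Type) [Group G] [MulSemiringAction G R] (𝓡 : ℤ → Submodule k R)
    (d : R →ₗ[k] R) : Prop where
  deg : ∀ q, ∀ a ∈ 𝓡 q, d a ∈ 𝓡 (q - 1)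
  sq : ∀ a, d (d a) = 0
  leib : ∀ q, ∀ a ∈ 𝓡 q, ∀ b, d (a * b) = d a * b + (-1 : k) ^ q • (a * d b)
  eq : ∀ (g : G) a, d (g • a) = g • d a
  gr : ∀ (g : G) q, ∀ a ∈ 𝓡 q, g • a ∈ 𝓡 q

/-- `L` is the homology algebra of `(R, d)`: `pr` is the map from the cycles of `R` to `L` -/
structure IsHL (G : Type) [Group G] [MulSemiringAction G R] [MulSemiringAction G L]
    (𝓡 : ℤ → Submodule k R) (d : R →ₗ[k] R) (𝓛 : ℤ → Submodule k L) (pr : R → L) : Prop where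
  add : ∀ a b, d a = 0 → d b = 0 → pr (a + b) = pr a + pr b
  smul : ∀ (c : k) a, d a = 0 → pr (c • a) = c • pr a
  mul : ∀ a b, d a = 0 → d b = 0 → pr (a * b) = pr a * pr b
  deg : ∀ q, ∀ a ∈ 𝓡 q, d a = 0 → pr a ∈ 𝓛 q
  eq : ∀ (g : G) a, d a = 0 → pr (g • a) = g • pr a
  surj : ∀ l, ∃ a, d a = 0 ∧ pr a = l
  ker : ∀ a, d a = 0 → (pr a = 0 ↔ ∃ b, d b = a)

end Pool.Agent.Helper49.HE
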