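import Pool.Agent.Helper49.HE.GrCat
import Pool.Agent.Helper49.HE.Dfs
import Pool.Agent.Helper44.HD.BasicQ
import Pool.Agent.Helper44.HD.GoalsQ

/-!
# Project HE (MP_e5f486_ag): dg algebras with an action, their homology, equivariant contractions
-/

set_option autoImplicit false
set_option linter.unusedSectionVars false

open Finset

namespace Pool.Agent.Helper49.HE

open Pool.Agent.Helper44.HD

section av

variable {k G : Type} [Field k] [Group G] (D : RedGroup k G)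
variable {V W : Type} [AddCommGroup V] [Module k V] [DistribMulAction G V] [SMulCommClass G k V]
  [AddCommGroup W] [Module k W] [DistribMulAction G W] [SMulCommClass G k W]

/-- averaging -/
theorem av_ex (hV : ∀ v : V, (fun g : G => g • v) ∈ D.RF V)
    (hW : ∀ w : W, (fun g : G => g • w) ∈ D.RF W) (f : V →ₗ[k] W) :
    ∃ F : V →ₗ[k] W, (∀ (g : G) v, F (g • v) = g • F v) ∧
      ∀ v, D.HI (fun g : G => g • f (g⁻¹ • v)) (F v) := by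
  have hr : ∀ v, (fun g : G => g • f (g⁻¹ • v)) ∈ D.RF W := by
    intro v
    refine RF_ind D (p := fun F => (fun g : G => g • f (F g)) ∈ D.RF W) ?_ ?_ ?_
      (RF_inv D (hV v))
    · intro c hc m
      have e : (fun g : G => g • f (c g • m)) = fun g => c g • (g • f m) := by
        funext g
        rw [map_smul, smul_comm]
      rw [e]
      exact RF_mulf D hc (hW (f m))
    · simp only [Pi.zero_apply, map_zero, smul_zero]
      exact (D.RF W).zero_mem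
    · intro F F' h h'
      simp only [Pi.add_apply, map_add, smul_add]
      exact (D.RF W).add_mem h h'
  have hs := fun v => int_spec D (hr v)
  let F : V →ₗ[k] W :=
    { toFun := fun v => D.int fun g : G => g • f (g⁻¹ • v)
      map_add' := by
        intro v v'
        refine HI_uniq D (hs (v + v')) ?_
        have h := HI_add D (hs v) (hs v')
        have e : (fun g : G => g • f (g⁻¹ • (v + v'))) =
            fun g : G => g • f (g⁻¹ • v) + g • f (g⁻¹ • v') := by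
          funext g
          rw [smul_add, map_add, smul_add]
        rw [e]
        exact h
      map_smul' := by
        intro c v
        refine HI_uniq D (hs (c • v)) ?_
        have h := HI_smul D c (hs v)
        have e : (fun g : G => g • f (g⁻¹ • (c • v))) =
            fun g : G => c • (g • f (g⁻¹ • v)) := by
          funext g
          rw [smul_comm _ c, map_smul, smul_comm]
        rw [e]
        exact h }
  refine ⟨F, ?_, hs⟩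
  intro h v
  have h1 := HI_left D (hr (h • v)) (hs (h • v)) h
  have h2 := HI_map D (DistribSMul.toLinearMap k W h) (hs v)
  have e : (fun g : G => (h * g) • f ((h * g)⁻¹ • h • v)) =
      fun g : G => (DistribSMul.toLinearMap k W h) (g • f (g⁻¹ • v)) := by
    funext g
    change (h * g) • f ((h * g)⁻¹ • h • v) = h • (g • f (g⁻¹ • v))
    rw [mul_smul, mul_inv_rev, mul_smul, inv_smul_smul]
  rw [e] at h1
  exact HI_uniq D h1 h2

end av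

section grd

variable {k R L : Type} [Field k] [Ring R] [Algebra k R] (𝓡 : ℤ → Submodule k R)
  [GradedAlgebra 𝓡] [Ring L] [Algebra k L] (𝓛 : ℤ → Submodule k L) [GradedAlgebra 𝓛]

/-- the component of degree `s` of a linear map -/
noncomputable def grd (f : R →ₗ[k] L) (s : ℤ) : R →ₗ[k] L :=
  DirectSum.toModule k ℤ L (fun q => hc 𝓛 (q + s) ∘ₗ f ∘ₗ (𝓡 q).subtype) ∘ₗ
    (DirectSum.decomposeLinearEquiv 𝓡).toLinearMap

theorem grd_apply (f : R →ₗ[k] L) (s : ℤ) {q : ℤ} {a : R} (ha : a ∈ 𝓡 q) :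
    grd 𝓡 𝓛 f s a = hc 𝓛 (q + s) (f a) := by
  unfold grd
  rw [LinearMap.comp_apply]
  change DirectSum.toModule k ℤ L _ (DirectSum.decompose 𝓡 a) = _
  rw [DirectSum.decompose_of_mem 𝓡 ha]
  exact DirectSum.toModule_lof k q _

theorem grd_mem (f : R →ₗ[k] L) (s : ℤ) {q : ℤ} {a : R} (ha : a ∈ 𝓡 q) :
    grd 𝓡 𝓛 f s a ∈ 𝓛 (q + s) := by
  rw [grd_apply 𝓡 𝓛 f s ha]
  exact hc_mem 𝓛 _ _

theorem hc_self {q : ℤ} {a : L} (ha : a ∈ 𝓛 q) : hc 𝓛 q a = a := by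
  unfold hc
  rw [wt_apply 𝓛 _ ha, if_pos rfl, one_smul]

theorem hc_ne {q s : ℤ} (h : q ≠ s) {a : L} (ha : a ∈ 𝓛 q) : hc 𝓛 s a = 0 := by
  unfold hc
  rw [wt_apply 𝓛 _ ha, if_neg h, zero_smul]

/-- homogeneous maps commute with the components -/
theorem hc_comm (f : R →ₗ[k] L) (s : ℤ) (hf : ∀ q, ∀ a ∈ 𝓡 q, f a ∈ 𝓛 (q + s)) (q : ℤ) (a : R) :
    f (hc 𝓡 q a) = hc 𝓛 (q + s) (f a) :=
  gr_ext 𝓡 (f := f ∘ₗ hc 𝓡 q) (g := hc 𝓛 (q + s) ∘ₗ f) (fun t a ha => by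
    rw [LinearMap.comp_apply, LinearMap.comp_apply]
    by_cases h : t = q
    · subst h
      rw [hc_self 𝓡 ha, hc_self 𝓛 (hf _ a ha)]
    · rw [hc_ne 𝓡 h ha, map_zero, hc_ne 𝓛 (fun e => h (by omega)) (hf _ a ha)]) a

end grd

section dg

variable {k G R L : Type} [Field k] [Group G] [Ring R] [Algebra k R] [MulSemiringAction G R]
  [SMulCommClass G k R] [Ring L] [Algebra k L] [MulSemiringAction G L] [SMulCommClass G k L]

variable {D : RedGroup k G} {𝓡 : ℤ → Submodule k R} [GradedAlgebra 𝓡] {d : R →ₗ[k] R}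
  {𝓛 : ℤ → Submodule k L} [GradedAlgebra 𝓛] {pr : R → L}

/-- a graded equivariant `κ` with `d κ d = d` -/
theorem kap_ex (hd : IsDG G 𝓡 d) (hr : RatR D R) : ∃ κ : R →ₗ[k] R,
    (∀ (g : G) a, κ (g • a) = g • κ a) ∧ (∀ q, ∀ a ∈ 𝓡 q, κ a ∈ 𝓡 (q + 1)) ∧
      ∀ a, d (κ (d a)) = d a := by
  obtain ⟨κ0, h0⟩ : ∃ κ0 : R →ₗ[k] R, ∀ a, d (κ0 (d a)) = d a := by
    obtain ⟨s, hs⟩ := d.rangeRestrict.exists_rightInverse_of_surjective d.range_rangeRestrict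
    obtain ⟨s', hs'⟩ := LinearMap.exists_extend s
    refine ⟨s', fun a => ?_⟩
    have h1 : s' (d a) = s ⟨d a, ⟨a, rfl⟩⟩ := LinearMap.congr_fun hs' ⟨d a, ⟨a, rfl⟩⟩
    rw [h1]
    exact congrArg Subtype.val (LinearMap.congr_fun hs ⟨d a, ⟨a, rfl⟩⟩)
  obtain ⟨κ1, h1, h2⟩ := av_ex D hr hr κ0
  have h3 : ∀ a, d (κ1 (d a)) = d a := by
    intro a
    have h4 := HI_map D d (h2 (d a))
    have e : (fun g : G => d (g • κ0 (g⁻¹ • d a))) = fun _ => d a := by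
      funext g
      rw [hd.eq, ← hd.eq g⁻¹, h0, ← hd.eq, smul_inv_smul]
    rw [e] at h4
    exact HI_uniq D h4 (HI_const D _)
  have hd1 : ∀ q, ∀ a ∈ 𝓡 q, d a ∈ 𝓡 (q + -1) := fun q a ha => hd.deg q a ha
  refine ⟨grd 𝓡 𝓡 κ1 1, ?_, fun q a ha => grd_mem 𝓡 𝓡 κ1 1 ha, ?_⟩
  · intro g
    refine gr_ext 𝓡 (f := grd 𝓡 𝓡 κ1 1 ∘ₗ DistribSMul.toLinearMap k R g)
      (g := DistribSMul.toLinearMap k R g ∘ₗ grd 𝓡 𝓡 κ1 1) ?_
    intro q a ha
    change grd 𝓡 𝓡 κ1 1 (g • a) = g • grd 𝓡 𝓡 κ1 1 a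
    rw [grd_apply 𝓡 𝓡 κ1 1 (hd.gr g q a ha), grd_apply 𝓡 𝓡 κ1 1 ha, h1]
    exact wt_comm 𝓡 _ (DistribSMul.toLinearMap k R g) (fun q a ha => hd.gr g q a ha) _
  · refine gr_ext 𝓡 (f := d ∘ₗ grd 𝓡 𝓡 κ1 1 ∘ₗ d) (g := d) ?_
    intro q a ha
    rw [LinearMap.comp_apply, LinearMap.comp_apply, grd_apply 𝓡 𝓡 κ1 1 (hd1 q a ha),
      hc_comm 𝓡 𝓡 d (-1) hd1, h3]
    have e : q + -1 + 1 + -1 = q + -1 := by ring
    rw [e, hc_self 𝓡 (hd1 q a ha)]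

/-- the linear extension of `pr` -/
theorem vpi_ex (hd : IsDG G 𝓡 d) (hL : IsHL G 𝓡 d 𝓛 pr) {κ : R →ₗ[k] R}
    (h1 : ∀ (g : G) a, κ (g • a) = g • κ a) (h2 : ∀ q, ∀ a ∈ 𝓡 q, κ a ∈ 𝓡 (q + 1))
    (h3 : ∀ a, d (κ (d a)) = d a) : ∃ ϖ : R →ₗ[k] L, (∀ a, ϖ a = pr (a - κ (d a))) ∧
      (∀ a, d a = 0 → ϖ a = pr a) ∧ (∀ (g : G) a, ϖ (g • a) = g • ϖ a) ∧
      (∀ q, ∀ a ∈ 𝓡 q, ϖ a ∈ 𝓛 q) ∧ ∀ a, ϖ (d a) = 0 := by
  have hc : ∀ a, d (a - κ (d a)) = 0 := fun a => by rw [map_sub, h3, sub_self]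
  let ϖ : R →ₗ[k] L :=
    { toFun := fun a => pr (a - κ (d a))
      map_add' := by
        intro a b
        rw [← hL.add _ _ (hc a) (hc b)]
        congr 1
        rw [map_add, map_add]
        abel
      map_smul' := by
        intro c a
        rw [RingHom.id_apply, ← hL.smul _ _ (hc a)]
        congr 1
        rw [map_smul, map_smul, smul_sub] }
  have e : ∀ a, ϖ a = pr (a - κ (d a)) := fun a => rfl
  have hcy : ∀ a, d a = 0 → ϖ a = pr a := by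
    intro a ha
    rw [e, ha, map_zero, sub_zero]
  refine ⟨ϖ, e, hcy, ?_, ?_, ?_⟩
  · intro g a
    rw [e, e, hd.eq, h1, ← smul_sub, hL.eq g _ (hc a)]
  · intro q a ha
    rw [e]
    refine hL.deg q _ ?_ (hc a)
    refine sub_mem ha ?_
    have h4 := h2 _ _ (hd.deg q a ha)
    rw [sub_add_cancel] at h4
    exact h4
  · intro a
    rw [hcy _ (hd.sq a)]
    exact (hL.ker _ (hd.sq a)).2 ⟨a, rfl⟩

/-- the homology is a rational representation -/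
theorem rat_L (hd : IsDG G 𝓡 d) (hL : IsHL G 𝓡 d 𝓛 pr) (hr : RatR D R) {ϖ : R →ₗ[k] L}
    (h : ∀ a, d a = 0 → ϖ a = pr a) : RatR D L := by
  intro l
  obtain ⟨a, ha, rfl⟩ := hL.surj l
  have e : (fun g : G => g • pr a) = fun g => ϖ (g • a) := by
    funext g
    rw [h (g • a) (by rw [hd.eq, ha, smul_zero]), hL.eq g a ha]
  rw [e]
  exact RF_map D ϖ (hr a)

/-- a graded equivariant section -/
theorem iot_ex (hd : IsDG G 𝓡 d) (hL : IsHL G 𝓡 d 𝓛 pr) (hr : RatR D R) {ϖ : R →ₗ[k] L}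
    (h : ∀ a, d a = 0 → ϖ a = pr a) (h1 : ∀ (g : G) a, ϖ (g • a) = g • ϖ a)
    (h2 : ∀ q, ∀ a ∈ 𝓡 q, ϖ a ∈ 𝓛 q) (hG : ∀ (g : G) q, ∀ a ∈ 𝓛 q, g • a ∈ 𝓛 q) :
    ∃ ι : L →ₗ[k] R, (∀ (g : G) a, ι (g • a) = g • ι a) ∧ (∀ q, ∀ a ∈ 𝓛 q, ι a ∈ 𝓡 q) ∧
      (∀ a, d (ι a) = 0) ∧ ∀ a, ϖ (ι a) = a := by
  obtain ⟨i0, h3, h4⟩ : ∃ i0 : L →ₗ[k] R, (∀ a, d (i0 a) = 0) ∧ ∀ a, ϖ (i0 a) = a := by
    let f : LinearMap.ker d →ₗ[k] L := ϖ ∘ₗ (LinearMap.ker d).subtype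
    have hf : LinearMap.range f = ⊤ := by
      rw [LinearMap.range_eq_top]
      intro l
      obtain ⟨a, ha, rfl⟩ := hL.surj l
      exact ⟨⟨a, ha⟩, h a ha⟩
    obtain ⟨s, hs⟩ := f.exists_rightInverse_of_surjective hf
    exact ⟨(LinearMap.ker d).subtype ∘ₗ s, fun a => (s a).2, fun a => LinearMap.congr_fun hs a⟩
  obtain ⟨i1, h5, h6⟩ := av_ex D (rat_L hd hL hr h) hr i0
  have h7 : ∀ a, d (i1 a) = 0 := by
    intro a
    have h8 := HI_map D d (h6 a)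
    have e : (fun g : G => d (g • i0 (g⁻¹ • a))) = fun _ => 0 := by
      funext g
      rw [hd.eq, h3, smul_zero]
    rw [e] at h8
    exact HI_uniq D h8 (HI_const D _)
  have h8 : ∀ a, ϖ (i1 a) = a := by
    intro a
    have h8 := HI_map D ϖ (h6 a)
    have e : (fun g : G => ϖ (g • i0 (g⁻¹ • a))) = fun _ => a := by
      funext g
      rw [h1, h4, smul_inv_smul]
    rw [e] at h8
    exact HI_uniq D h8 (HI_const D _)
  have hd1 : ∀ q, ∀ a ∈ 𝓡 q, d a ∈ 𝓡 (q + -1) := fun q a ha => hd.deg q a ha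
  refine ⟨grd 𝓛 𝓡 i1 0, ?_, ?_, ?_, ?_⟩
  · intro g
    refine gr_ext 𝓛 (f := grd 𝓛 𝓡 i1 0 ∘ₗ DistribSMul.toLinearMap k L g)
      (g := DistribSMul.toLinearMap k R g ∘ₗ grd 𝓛 𝓡 i1 0) ?_
    intro q a ha
    change grd 𝓛 𝓡 i1 0 (g • a) = g • grd 𝓛 𝓡 i1 0 a
    rw [grd_apply 𝓛 𝓡 i1 0 (hG g q a ha), grd_apply 𝓛 𝓡 i1 0 ha, h5]
    exact wt_comm 𝓡 _ (DistribSMul.toLinearMap k R g) (fun q a ha => hd.gr g q a ha) _
  · intro q a ha
    have h9 := grd_mem 𝓛 𝓡 i1 0 ha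
    rw [add_zero] at h9
    exact h9
  · refine gr_ext 𝓛 (f := d ∘ₗ grd 𝓛 𝓡 i1 0) (g := 0) ?_
    intro q a ha
    rw [LinearMap.comp_apply, grd_apply 𝓛 𝓡 i1 0 ha, hc_comm 𝓡 𝓡 d (-1) hd1, h7, map_zero]
    rfl
  · refine gr_ext 𝓛 (f := ϖ ∘ₗ grd 𝓛 𝓡 i1 0) (g := LinearMap.id) ?_
    intro q a ha
    have h9 := hc_comm 𝓡 𝓛 ϖ 0 (fun q a ha => by rw [add_zero]; exact h2 q a ha) q (i1 a)
    rw [LinearMap.comp_apply, grd_apply 𝓛 𝓡 i1 0 ha]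
    rw [add_zero] at h9 ⊢
    rw [h9, h8, hc_self 𝓛 ha]
    rfl

/-- the action preserves the grading of the homology -/
theorem gr_L (hd : IsDG G 𝓡 d) (hL : IsHL G 𝓡 d 𝓛 pr) {ϖ : R →ₗ[k] L}
    (h : ∀ a, d a = 0 → ϖ a = pr a) (h2 : ∀ q, ∀ a ∈ 𝓡 q, ϖ a ∈ 𝓛 q) :
    ∀ (g : G) q, ∀ a ∈ 𝓛 q, g • a ∈ 𝓛 q := by
  intro g q l hl
  obtain ⟨a, ha, e⟩ := hL.surj l
  have hd1 : ∀ q, ∀ a ∈ 𝓡 q, d a ∈ 𝓡 (q + -1) := fun q a ha => hd.deg q a ha
  have h3 : d (hc 𝓡 q a) = 0 := by rw [hc_comm 𝓡 𝓡 d (-1) hd1, ha, map_zero]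
  have h4 : pr (hc 𝓡 q a) = l := by
    have h9 := hc_comm 𝓡 𝓛 ϖ 0 (fun q a ha => by rw [add_zero]; exact h2 q a ha) q a
    rw [add_zero, h _ h3, h _ ha, e, hc_self 𝓛 hl] at h9
    exact h9
  rw [← h4, ← hL.eq g _ h3]
  exact hL.deg q _ (hd.gr g q _ (hc_mem 𝓡 q a)) (by rw [hd.eq, h3, smul_zero])

end dg

end Pool.Agent.Helper49.HE
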