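import Pool.Agent.Helper49.HE.Comm

/-!
# Project HE (MP_e5f486_ag): the total complex is exact in degrees `≠ 0` if the homology category is
-/

set_option autoImplicit false
set_option linter.unusedSectionVars false

open Finset

namespace Pool.Agent.Helper49.HE

open Pool.Agent.Helper44.HD

section tot

variable {k A Ω : Type} [Field k] [Ring A] [Algebra k A]

/-- chains of total degree `n` -/
def IsCh (H : ℤ → Ω → Ω → Submodule k A) (n : ℤ) (z : ∀ p : ℕ, HC k A p) : Prop :=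
  (∀ p : ℕ, z p ∈ Cq H p (n - p)) ∧ ∃ N : ℕ, ∀ p, N ≤ p → z p = 0

/-- the total boundary -/
noncomputable def bd (τ δ : A →ₗ[k] A) (n : ℤ) : (∀ p : ℕ, HC k A p) →ₗ[k] (∀ p : ℕ, HC k A p) :=
  LinearMap.pi fun p => bt k (tw τ (n - 1 - p)) p ∘ₗ LinearMap.proj (p + 1) +
    (-1 : k) ^ p • sg τ δ p ∘ₗ LinearMap.proj p

theorem bd_apply (τ δ : A →ₗ[k] A) (n : ℤ) (z : ∀ p : ℕ, HC k A p) (p : ℕ) :
    bd τ δ n z p = bt k (tw τ (n - 1 - p)) p (z (p + 1)) + (-1 : k) ^ p • sg τ δ p (z p) := rfl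

theorem IsCh.zero {H : ℤ → Ω → Ω → Submodule k A} (n : ℤ) : IsCh H n (0 : ∀ p : ℕ, HC k A p) :=
  ⟨fun _ => zero_mem _, 0, fun _ _ => rfl⟩

theorem IsCh.add {H : ℤ → Ω → Ω → Submodule k A} {n : ℤ} {z w : ∀ p : ℕ, HC k A p}
    (hz : IsCh H n z) (hw : IsCh H n w) : IsCh H n (z + w) := by
  obtain ⟨h1, N, h2⟩ := hz
  obtain ⟨h3, M, h4⟩ := hw
  refine ⟨fun p => add_mem (h1 p) (h3 p), max N M, fun p hp => ?_⟩
  rw [Pi.add_apply, h2 p (le_trans (le_max_left _ _) hp), h4 p (le_trans (le_max_right _ _) hp),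
    add_zero]

theorem IsCh.neg {H : ℤ → Ω → Ω → Submodule k A} {n : ℤ} {z : ∀ p : ℕ, HC k A p}
    (hz : IsCh H n z) : IsCh H n (-z) := by
  obtain ⟨h1, N, h2⟩ := hz
  refine ⟨fun p => neg_mem (h1 p), N, fun p hp => ?_⟩
  rw [Pi.neg_apply, h2 p hp, neg_zero]

theorem IsCh.single {H : ℤ → Ω → Ω → Submodule k A} {n q : ℤ} {p : ℕ} {v : HC k A p}
    (hv : v ∈ Cq H p q) (hq : n - p = q) : IsCh H n (Pi.single p v) := by
  refine ⟨fun p' => ?_, p + 1, fun p' hp' => ?_⟩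
  · by_cases h : p' = p
    · subst h
      rw [Pi.single_eq_same, hq]
      exact hv
    · rw [Pi.single_eq_of_ne h]
      exact zero_mem _
  · exact Pi.single_eq_of_ne (by omega) _

end tot

namespace Ctx

variable {k A L Ω : Type} [Field k] [Ring A] [Algebra k A] [Ring L] [Algebra k L]
  (C : Ctx k A L Ω)

theorem bd_mem {n : ℤ} {z : ∀ p : ℕ, HC k A p} (hz : IsCh C.HA n z) :
    IsCh C.HA (n - 1) (bd C.τ C.δ n z) := by
  obtain ⟨h1, N, h2⟩ := hz
  refine ⟨fun p => ?_, N, fun p hp => ?_⟩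
  · rw [bd_apply]
    refine add_mem ?_ (Submodule.smul_mem _ _ ?_)
    · have h3 := bt_mem C.mulA (C.tw_A (n - 1 - p)) (h1 (p + 1))
      have e : n - ((p + 1 : ℕ) : ℤ) = n - 1 - p := by push_cast; ring
      rw [e] at h3
      exact h3
    · have h3 := C.dq_mem (h1 p)
      have e : n - (p : ℤ) - 1 = n - 1 - p := by ring
      rw [e] at h3
      exact h3
  · rw [bd_apply, h2 p hp, h2 (p + 1) (by omega), map_zero, map_zero, smul_zero, add_zero]

theorem bd_bd [CharZero k] {n m : ℤ} (hm : m = n - 1) {z : ∀ p : ℕ, HC k A p}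
    (hz : IsCh C.HA n z) : bd C.τ C.δ m (bd C.τ C.δ n z) = 0 := by
  subst hm
  funext p
  rw [bd_apply, bd_apply, bd_apply, Pi.zero_apply]
  have e1 : n - 1 - ((p + 1 : ℕ) : ℤ) = n - 1 - 1 - p := by push_cast; ring
  rw [e1, map_add, map_add, map_smul, map_smul,
    bt_bt (H := C.HA) (C.twmul (n - 1 - 1 - p)) (hz.1 (p + 2)), zero_add]
  have h2 := C.comm (hz.1 (p + 1))
  have e2 : n - ((p + 1 : ℕ) : ℤ) - 1 = n - 1 - 1 - p := by push_cast; ring
  have e3 : n - ((p + 1 : ℕ) : ℤ) = n - 1 - p := by push_cast; ring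
  rw [e2, e3] at h2
  have h3 := C.dq_dq (hz.1 p)
  change (-1 : k) ^ (p + 1) • bt k (tw C.τ (n - 1 - 1 - p)) p (C.dq (p + 1) (z (p + 1))) +
    (-1 : k) ^ p • (C.dq p (bt k (tw C.τ (n - 1 - p)) p (z (p + 1))) +
      (-1 : k) ^ p • C.dq p (C.dq p (z p))) = 0
  rw [h2, h3, smul_zero, add_zero, ← add_smul, pow_succ]
  simp

/-- `b π = π b` on cycles of the internal differential -/
theorem bp {p : ℕ} {q : ℤ} {z : HC k A (p + 1)} (hz : z ∈ Cq C.HA (p + 1) q)
    (hd : C.dq (p + 1) z = 0) :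
    bt k (tw C.σ q) p (C.pq (p + 1) z) = C.pq p (bt k (tw C.τ q) p z) := by
  have h1 := C.hom_q hz
  rw [hd, map_zero, add_zero] at h1
  have h2 : z = C.iq (p + 1) (C.pq (p + 1) z) + C.dq (p + 1) (C.hq (p + 1) z) := by
    rw [h1]
    abel
  have h3 := C.comm (C.hq_mem hz)
  rw [add_sub_cancel_right] at h3
  conv_rhs => rw [h2]
  rw [map_add, map_add, C.pbi (C.pq_mem hz) (r := q), h3,
    C.pq_dq (bt_mem C.mulA (C.tw_A (q + 1)) (C.hq_mem hz)), add_zero]

/-- the total complex is exact in the degrees `n ≠ 0` -/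
theorem exact [CharZero k]
    (E1 : ∀ (p : ℕ) (q : ℤ), ∀ z ∈ Cq C.HL (p + 1) q, bt k (tw C.σ q) p z = 0 →
      ∃ w ∈ Cq C.HL (p + 2) q, bt k (tw C.σ q) (p + 1) w = z)
    (E0 : ∀ q : ℤ, q ≠ 0 → ∀ z ∈ Cq C.HL 0 q, ∃ w ∈ Cq C.HL 1 q, bt k (tw C.σ q) 0 w = z)
    {n : ℤ} (hn : n ≠ 0) : ∀ z : ∀ p : ℕ, HC k A p, IsCh C.HA n z → bd C.τ C.δ n z = 0 →
      ∃ w, IsCh C.HA (n + 1) w ∧ bd C.τ C.δ (n + 1) w = z := by
  suffices h : ∀ (N : ℕ) (z : ∀ p : ℕ, HC k A p), IsCh C.HA n z → (∀ p, N ≤ p → z p = 0) →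
      bd C.τ C.δ n z = 0 → ∃ w, IsCh C.HA (n + 1) w ∧ bd C.τ C.δ (n + 1) w = z by
    intro z hz hb
    obtain ⟨N, hN⟩ := hz.2
    exact h N z hz hN hb
  intro N
  induction N with
  | zero =>
    intro z hz hN hb
    refine ⟨0, IsCh.zero _, ?_⟩
    rw [map_zero]
    funext p
    exact (hN p (Nat.zero_le p)).symm
  | succ P ih =>
    intro z hz hN hb
    have hzP := hz.1 P
    obtain ⟨q, hq⟩ : ∃ q : ℤ, q = n - P := ⟨_, rfl⟩
    rw [← hq] at hzP
    have hd : C.dq P (z P) = 0 := by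
      have h1 := congrFun hb P
      rw [bd_apply, hN (P + 1) le_rfl, map_zero, zero_add, Pi.zero_apply] at h1
      rcases smul_eq_zero.1 h1 with h2 | h2
      · exact absurd h2 (by simp)
      · exact h2
    have hω : ∃ w ∈ Cq C.HL (P + 1) q, bt k (tw C.σ q) P w = C.pq P (z P) := by
      cases P with
      | zero =>
        refine E0 q ?_ _ (C.pq_mem hzP)
        rw [hq]
        simpa using hn
      | succ P =>
        refine E1 P q _ (C.pq_mem hzP) ?_
        rw [C.bp hzP hd]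
        have h1 := congrFun hb P
        rw [bd_apply, Pi.zero_apply] at h1
        have e1 : n - 1 - (P : ℤ) = q := by rw [hq]; push_cast; ring
        rw [e1] at h1
        rw [eq_neg_of_add_eq_zero_left h1, map_neg, map_smul]
        change -((-1 : k) ^ P • C.pq P (C.dq P (z P))) = 0
        rw [C.pq_dq (hz.1 P), smul_zero, neg_zero]
    obtain ⟨ω, hω1, hω2⟩ := hω
    have hw1 : C.iq (P + 1) ω ∈ Cq C.HA (P + 1) q := C.iq_mem hω1
    have hdw : C.dq (P + 1) (C.iq (P + 1) ω) = 0 := C.dq_iq hω1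
    obtain ⟨y, hy⟩ : ∃ y, y = z P - bt k (tw C.τ q) P (C.iq (P + 1) ω) := ⟨_, rfl⟩
    have hy1 : y ∈ Cq C.HA P q := by
      rw [hy]
      exact sub_mem hzP (bt_mem C.mulA (C.tw_A q) hw1)
    have hy2 : C.pq P y = 0 := by
      rw [hy, map_sub, C.pbi hω1, hω2, sub_self]
    have hy3 : C.dq P y = 0 := by
      rw [hy, map_sub, hd, ← C.comm hw1, hdw, map_zero, sub_zero]
    have hy4 : C.dq P (C.hq P y) = y := by
      have h1 := C.hom_q hy1
      rw [hy3, hy2, map_zero, map_zero, add_zero, sub_zero] at h1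
      exact h1
    let W : ∀ p : ℕ, HC k A p := Pi.single (P + 1) (C.iq (P + 1) ω)
    let V : ∀ p : ℕ, HC k A p := Pi.single P ((-1 : k) ^ P • C.hq P y)
    have hW : IsCh C.HA (n + 1) W := IsCh.single hw1 (by rw [hq]; push_cast; ring)
    have hV : IsCh C.HA (n + 1) V :=
      IsCh.single (Submodule.smul_mem _ _ (C.hq_mem hy1)) (by rw [hq]; ring)
    have hbW1 : bd C.τ C.δ (n + 1) W P = bt k (tw C.τ q) P (C.iq (P + 1) ω) := by
      rw [bd_apply]
      have e1 : n + 1 - 1 - (P : ℤ) = q := by rw [hq]; ring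
      have e2 : W P = 0 := Pi.single_eq_of_ne (by omega) _
      have e3 : W (P + 1) = C.iq (P + 1) ω := Pi.single_eq_same _ _
      rw [e1, e2, e3, map_zero, smul_zero, add_zero]
    have hbW2 : ∀ p, P < p → bd C.τ C.δ (n + 1) W p = 0 := by
      intro p hp
      rw [bd_apply]
      have e2 : W (p + 1) = 0 := Pi.single_eq_of_ne (by omega) _
      rw [e2, map_zero, zero_add]
      by_cases h : p = P + 1
      · subst h
        have e3 : W (P + 1) = C.iq (P + 1) ω := Pi.single_eq_same _ _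
        rw [e3]
        change (-1 : k) ^ (P + 1) • C.dq (P + 1) (C.iq (P + 1) ω) = 0
        rw [hdw, smul_zero]
      · have e3 : W p = 0 := Pi.single_eq_of_ne h _
        rw [e3, map_zero, smul_zero]
    have hbV1 : bd C.τ C.δ (n + 1) V P = y := by
      rw [bd_apply]
      have e2 : V (P + 1) = 0 := Pi.single_eq_of_ne (by omega) _
      have e3 : V P = (-1 : k) ^ P • C.hq P y := Pi.single_eq_same _ _
      rw [e2, e3, map_zero, zero_add]
      change (-1 : k) ^ P • C.dq P ((-1 : k) ^ P • C.hq P y) = y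
      rw [map_smul, hy4, smul_smul, ← mul_pow]
      simp
    have hbV2 : ∀ p, P < p → bd C.τ C.δ (n + 1) V p = 0 := by
      intro p hp
      rw [bd_apply]
      have e2 : V (p + 1) = 0 := Pi.single_eq_of_ne (by omega) _
      have e3 : V p = 0 := Pi.single_eq_of_ne (by omega) _
      rw [e2, e3, map_zero, map_zero, smul_zero, add_zero]
    have hWV := hW.add hV
    have hbm := C.bd_mem hWV
    rw [add_sub_cancel_right] at hbm
    obtain ⟨w, hw, hw2⟩ := ih (z + -(bd C.τ C.δ (n + 1) (W + V))) (hz.add hbm.neg) (by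
      intro p hp
      rw [Pi.add_apply, Pi.neg_apply, map_add, Pi.add_apply]
      rcases Nat.lt_or_ge P p with h | h
      · rw [hN p (by omega), hbW2 p h, hbV2 p h]
        simp
      · obtain rfl : p = P := le_antisymm h hp
        rw [hbW1, hbV1, hy]
        abel) (by
      rw [map_add, map_neg, hb, C.bd_bd (by ring) hWV, neg_zero, add_zero])
    refine ⟨w + (W + V), hw.add hWV, ?_⟩
    rw [map_add, hw2]
    abel

/-- vanishing in the degrees `≠ 0` implies that all cycles lift -/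
theorem lift (E : ∀ n : ℤ, n ≠ 0 → ∀ z : ∀ p : ℕ, HC k A p, IsCh C.HA n z →
      bd C.τ C.δ n z = 0 → ∃ w, IsCh C.HA (n + 1) w ∧ bd C.τ C.δ (n + 1) w = z)
    (B : ℤ → (∀ p : ℕ, HC k A p) →ₗ[k] (∀ p : ℕ, HC k A p))
    (hB : ∀ n z, IsCh C.HA n z → IsCh C.HA (n + 1) (B n z))
    (hBB : ∀ n z, IsCh C.HA n z → B (n + 1) (B n z) = 0)
    (hbB : ∀ n z, IsCh C.HA n z →
      bd C.τ C.δ (n + 1) (B n z) + B (n - 1) (bd C.τ C.δ n z) = 0)
    (n : ℤ) (z : ∀ p : ℕ, HC k A p) (hz : IsCh C.HA n z) (hb : bd C.τ C.δ n z = 0) :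
    ∃ Z : ℕ → (∀ p : ℕ, HC k A p), Z 0 = z ∧ (∀ i : ℕ, IsCh C.HA (n + 2 * i) (Z i)) ∧
      ∀ i : ℕ, bd C.τ C.δ (n + 2 * i + 2) (Z (i + 1)) + B (n + 2 * i) (Z i) = 0 := by
  by_cases hn : n = 0
  · subst hn
    have step : ∀ (i : ℕ) (y : ∀ p : ℕ, HC k A p), IsCh C.HA (0 + 2 * i) y →
        bd C.τ C.δ (0 + 2 * i + 1) (B (0 + 2 * i) y) = 0 → ∃ y', IsCh C.HA (0 + 2 * (i + 1 : ℕ)) y' ∧
          bd C.τ C.δ (0 + 2 * i + 2) y' + B (0 + 2 * i) y = 0 ∧
          bd C.τ C.δ (0 + 2 * (i + 1 : ℕ) + 1) (B (0 + 2 * (i + 1 : ℕ)) y') = 0 := by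
      intro i y hy hy2
      have hBy := hB _ _ hy
      obtain ⟨w, hw, hw2⟩ := E (0 + 2 * i + 1) (by omega) (-(B (0 + 2 * i) y)) hBy.neg (by
        rw [map_neg, hy2, neg_zero])
      have e1 : (0 : ℤ) + 2 * i + 1 + 1 = 0 + 2 * (i + 1 : ℕ) := by push_cast; ring
      have e2 : (0 : ℤ) + 2 * i + 1 + 1 = 0 + 2 * i + 2 := by ring
      rw [e1] at hw
      refine ⟨w, hw, ?_, ?_⟩
      · rw [← e2, hw2, neg_add_cancel]
      · have h3 := hbB _ _ hw
        have e3 : (0 : ℤ) + 2 * (i + 1 : ℕ) - 1 = 0 + 2 * i + 1 := by push_cast; ring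
        rw [← e1, hw2, e1, e3, map_neg, hBB _ _ hy, neg_zero, add_zero] at h3
        exact h3
    choose f hf using step
    have hz' : IsCh C.HA (0 + 2 * (0 : ℕ)) z := by simpa using hz
    have h0 : bd C.τ C.δ (0 + 2 * (0 : ℕ) + 1) (B (0 + 2 * (0 : ℕ)) z) = 0 := by
      have h3 := hbB _ _ hz
      rw [hb, map_zero, add_zero] at h3
      simpa using h3
    let Z : ∀ i : ℕ, {y : ∀ p : ℕ, HC k A p // IsCh C.HA (0 + 2 * i) y ∧
        bd C.τ C.δ (0 + 2 * i + 1) (B (0 + 2 * i) y) = 0} :=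
      fun i => Nat.rec (motive := fun i => {y : ∀ p : ℕ, HC k A p // IsCh C.HA (0 + 2 * i) y ∧
        bd C.τ C.δ (0 + 2 * i + 1) (B (0 + 2 * i) y) = 0})
        ⟨z, hz', h0⟩ (fun i y => ⟨f i y.1 y.2.1 y.2.2, (hf i y.1 y.2.1 y.2.2).1,
          (hf i y.1 y.2.1 y.2.2).2.2⟩) i
    exact ⟨fun i => (Z i).1, rfl, fun i => (Z i).2.1, fun i => (hf i (Z i).1 (Z i).2.1 (Z i).2.2).2.1⟩
  · obtain ⟨y, hy, hy2⟩ := E n hn z hz hb
    refine ⟨fun i => if i = 0 then z else if i = 1 then B (n + 1) y else 0, rfl, fun i => ?_,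
      fun i => ?_⟩
    · rcases i with _ | _ | i
      · simpa using hz
      · have h1 := hB _ _ hy
        have e1 : n + 1 + 1 = n + 2 * (1 : ℕ) := by push_cast; ring
        rw [e1] at h1
        simpa using h1
      · have h1 : ¬ i + 2 = 0 := by omega
        have h2 : ¬ i + 2 = 1 := by omega
        simp only [h1, h2, if_false]
        exact IsCh.zero _
    · rcases i with _ | _ | i
      · have h1 := hbB _ _ hy
        rw [hy2, add_sub_cancel_right] at h1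
        have e1 : n + 1 + 1 = n + 2 := by ring
        rw [e1] at h1
        simpa using h1
      · have h1 := hBB _ _ hy
        have e1 : n + 1 + 1 = n + 2 * (1 : ℕ) := by push_cast; ring
        rw [e1] at h1
        have h2 : ¬ 0 + 1 + 1 = 0 := by omega
        have h3 : ¬ 0 + 1 + 1 = 1 := by omega
        simp only [h2, h3, if_false, map_zero, zero_add]
        simpa using h1
      · have h1 : ¬ i + 2 = 0 := by omega
        have h2 : ¬ i + 2 = 1 := by omega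
        have h3 : ¬ i + 2 + 1 = 0 := by omega
        have h4 : ¬ i + 2 + 1 = 1 := by omega
        simp only [h1, h2, h3, h4, if_false, map_zero, add_zero]

end Ctx

end Pool.Agent.Helper49.HE
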