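import Pool.Agent.Helper49.HE.EOne
import Pool.Agent.Helper49.HE.Avg
import Pool.Agent.Helper49.HE.Total

/-!
# Project HE (MP_e5f486_ag): assembly
-/

set_option autoImplicit false
set_option linter.unusedSectionVars false

open Finset

namespace Pool.Agent.Helper49.HE

open Pool.Agent.Helper44.HD

section asm

variable {k G R L : Type} [Field k] [CharZero k] [Group G] [Ring R] [Algebra k R]
  [MulSemiringAction G R] [SMulCommClass G k R] [Ring L] [Algebra k L] [MulSemiringAction G L]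
  [SMulCommClass G k L]
variable {D : RedGroup k G} {𝓡 : ℤ → Submodule k R} [GradedAlgebra 𝓡] {d : R →ₗ[k] R}
  {𝓛 : ℤ → Submodule k L} [GradedAlgebra 𝓛] {pr : R → L}

/-- the Leibniz rule in terms of the parity automorphism -/
theorem leib' (hd : IsDG G 𝓡 d) (a b : R) : d (a * b) = d a * b + par (k := k) 𝓡 a * d b := by
  have h := gr_ext 𝓡 (f := d ∘ₗ LinearMap.mulRight k b)
    (g := LinearMap.mulRight k b ∘ₗ d + LinearMap.mulRight k (d b) ∘ₗ par (k := k) 𝓡)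
    (fun q a ha => by
      change d (a * b) = d a * b + par (k := k) 𝓡 a * d b
      unfold par
      rw [wt_apply 𝓡 _ ha, hd.leib q a ha, smul_mul_assoc]) a
  exact h

/-- the dg category, its homology category and a contraction -/
theorem dg_ctx (hd : IsDG G 𝓡 d) (hL : IsHL G 𝓡 d 𝓛 pr) (hr : RatR D R) :
    ∃ C : Ctx k (Amb D R) (Amb D L) (Ob D), C.HA = homq 𝓡 ∧ C.HL = homq 𝓛 ∧
      C.τ = lft (par (k := k) 𝓡) ∧ C.δ = lft d ∧ C.σ = lft (par (k := k) 𝓛) := by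
  obtain ⟨κ, k1, k2, k3⟩ := kap_ex hd hr
  obtain ⟨ϖ, v1, v2, v3, v4, v5⟩ := vpi_ex hd hL k1 k2 k3
  have hGL := gr_L hd hL v2 v4
  obtain ⟨ι, i1, i2, i3, i4⟩ := iot_ex hd hL hr v2 v3 v4 hGL
  let h : R →ₗ[k] R := κ ∘ₗ (LinearMap.id - κ ∘ₗ d - ι ∘ₗ ϖ)
  have h1 : ∀ a, h a = κ (a - κ (d a) - ι (ϖ a)) := fun a => rfl
  have hcy : ∀ a, d (a - κ (d a) - ι (ϖ a)) = 0 := by
    intro a
    rw [map_sub, map_sub, k3, i3, sub_self, sub_zero]
  have h2 : ∀ a, d (h a) = a - κ (d a) - ι (ϖ a) := by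
    intro a
    have h3 : pr (a - κ (d a) - ι (ϖ a)) = 0 := by
      rw [← v2 _ (hcy a), map_sub, map_sub, i4]
      have h4 : ϖ (κ (d a)) = 0 := by
        rw [v1, k3, sub_self]
        have h5 := hL.smul 0 0 (map_zero d)
        rw [zero_smul, zero_smul] at h5
        exact h5
      rw [h4, sub_zero, sub_self]
    obtain ⟨b, hb⟩ := (hL.ker _ (hcy a)).1 h3
    rw [h1, ← hb, k3]
  have h3 : ∀ a, h (d a) = κ (d a) := by
    intro a
    rw [h1, hd.sq, map_zero, sub_zero, v5, map_zero, sub_zero]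
  have h4 : ∀ a, d (h a) + h (d a) = a - ι (ϖ a) := by
    intro a
    rw [h2, h3]
    abel
  have h5 : ∀ (g : G) a, h (g • a) = g • h a := by
    intro g a
    rw [h1, h1, hd.eq, k1, v3, i1, ← smul_sub, ← smul_sub, k1]
  have h6 : ∀ q, ∀ a ∈ 𝓡 q, h a ∈ 𝓡 (q + 1) := by
    intro q a ha
    rw [h1]
    refine k2 q _ (sub_mem (sub_mem ha ?_) (i2 q _ (v4 q a ha)))
    have h7 := k2 _ _ (hd.deg q a ha)
    rw [sub_add_cancel] at h7
    exact h7
  have h7 : ∀ a b, ϖ (ι a * ι b) = a * b := by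
    intro a b
    have h8 : d (ι a * ι b) = 0 := by
      rw [leib' hd, i3, i3, zero_mul, mul_zero, add_zero]
    rw [v2 _ h8, hL.mul _ _ (i3 a) (i3 b), ← v2 _ (i3 a), ← v2 _ (i3 b), i4, i4]
  refine ⟨{
    HA := homq 𝓡
    HL := homq 𝓛
    τ := lft (par (k := k) 𝓡)
    δ := lft d
    h := lft h
    σ := lft (par (k := k) 𝓛)
    ι := lft ι
    π := lft ϖ
    mulA := mulC_homq 𝓡
    mulL := mulC_homq 𝓛
    τA := fun q x y a ha => lft_wt 𝓡 _ ha
    σL := fun q x y a ha => lft_wt 𝓛 _ ha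
    dA := fun q x y a ha => lft_homq 𝓡 𝓡 d hd.eq (fun a ha => hd.deg q a ha) ha
    hA := fun q x y a ha => lft_homq 𝓡 𝓡 h h5 (fun a ha => h6 q a ha) ha
    πA := fun q x y a ha => lft_homq 𝓡 𝓛 ϖ v3 (fun a ha => v4 q a ha) ha
    ιL := fun q x y a ha => lft_homq 𝓛 𝓡 ι i1 (fun a ha => i2 q a ha) ha
    dd := ?_
    leib := ?_
    dι := ?_
    πd := ?_
    πι := ?_
    hom := ?_
    mulπ := ?_ }, rfl, rfl, rfl, rfl, rfl⟩
  · intro q x y a ha
    obtain ⟨P, _, _, rfl⟩ := (mem_homq 𝓡).1 ha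
    rw [lft_em, lft_em]
    have e : (P.map d).map d = 0 := by
      ext i j
      exact hd.sq _
    rw [e, map_zero]
  · intro q q' x y z a b ha hb
    obtain ⟨P, _, _, rfl⟩ := (mem_homq 𝓡).1 ha
    obtain ⟨Q, _, _, rfl⟩ := (mem_homq 𝓡).1 hb
    rw [em_mul, lft_em, lft_em, lft_em, lft_em, em_mul, em_mul, ← map_add]
    congr 1
    ext i j
    rw [Matrix.map_apply, Matrix.add_apply, Matrix.mul_apply, Matrix.mul_apply, Matrix.mul_apply,
      map_sum, ← sum_add_distrib]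
    exact sum_congr rfl fun l _ => leib' hd _ _
  · intro q x y a ha
    obtain ⟨P, _, _, rfl⟩ := (mem_homq 𝓛).1 ha
    rw [lft_em, lft_em]
    have e : (P.map ι).map d = 0 := by
      ext i j
      exact i3 _
    rw [e, map_zero]
  · intro q x y a ha
    obtain ⟨P, _, _, rfl⟩ := (mem_homq 𝓡).1 ha
    rw [lft_em, lft_em]
    have e : (P.map d).map ϖ = 0 := by
      ext i j
      exact v5 _
    rw [e, map_zero]
  · intro q x y a ha
    obtain ⟨P, _, _, rfl⟩ := (mem_homq 𝓛).1 ha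
    rw [lft_em, lft_em]
    congr 1
    ext i j
    exact i4 _
  · intro q x y a ha
    obtain ⟨P, _, _, rfl⟩ := (mem_homq 𝓡).1 ha
    rw [lft_em, lft_em, lft_em, lft_em, lft_em, lft_em, ← map_add]
    have e : (P.map h).map d + (P.map d).map h = P - (P.map ϖ).map ι := by
      ext i j
      exact h4 _
    rw [e]
    exact map_sub (em x y : Matrix (Fin x.1) (Fin y.1) R →ₗ[k] Amb D R) _ _
  · intro q q' x y z a b ha hb
    obtain ⟨P, _, _, rfl⟩ := (mem_homq 𝓛).1 ha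
    obtain ⟨Q, _, _, rfl⟩ := (mem_homq 𝓛).1 hb
    rw [lft_em, lft_em, em_mul, lft_em, em_mul]
    congr 1
    ext i j
    rw [Matrix.map_apply, Matrix.mul_apply, Matrix.mul_apply, map_sum]
    exact sum_congr rfl fun l _ => h7 _ _

open CategoryTheory in
/-- MAIN THEOREM, exactness -/
theorem dg_exact (hd : IsDG G 𝓡 d) (hL : IsHL G 𝓡 d 𝓛 pr) (hr : RatR D R)
    (hfg : (⊤ : Subalgebra k L).FG) (hcen : Module.Finite (Subalgebra.center k L) L)
    (hsm : ∃ n : ℕ, HasProjectiveDimensionLT (ModuleCat.of (Gam k L) (RBi L)) n)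
    (hprop : PropR D L) {n : ℤ} (hn : n ≠ 0) (z : ∀ p : ℕ, HC k (Amb D R) p)
    (hz : IsCh (k := k) (A := Amb D R) (homq 𝓡) n z)
    (hb : bd (k := k) (A := Amb D R) (lft (par (k := k) 𝓡)) (lft d) n z = 0) :
    ∃ w, IsCh (k := k) (A := Amb D R) (homq 𝓡) (n + 1) w ∧
      bd (k := k) (A := Amb D R) (lft (par (k := k) 𝓡)) (lft d) (n + 1) w = z := by
  obtain ⟨κ, k1, k2, k3⟩ := kap_ex hd hr
  obtain ⟨ϖ, v1, v2, v3, v4, v5⟩ := vpi_ex hd hL k1 k2 k3
  have hGL := gr_L hd hL v2 v4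
  have hrL := rat_L hd hL hr v2
  have E1 := E1_gr 𝓛 hGL hrL hfg hcen hsm hprop
  have E0 := fun (q : ℤ) (hq : q ≠ 0) => E0_gr (D := D) 𝓛 E1 hq
  obtain ⟨C, c1, c2, c3, c4, c5⟩ := dg_ctx hd hL hr
  have h := C.exact (by rw [c2, c5]; exact E1) (by rw [c2, c5]; exact E0) hn z
  rw [c1, c3, c4] at h
  exact h hz hb

open CategoryTheory in
/-- MAIN THEOREM, degeneration -/
theorem dg_lift (hd : IsDG G 𝓡 d) (hL : IsHL G 𝓡 d 𝓛 pr) (hr : RatR D R)
    (hfg : (⊤ : Subalgebra k L).FG) (hcen : Module.Finite (Subalgebra.center k L) L)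
    (hsm : ∃ n : ℕ, HasProjectiveDimensionLT (ModuleCat.of (Gam k L) (RBi L)) n)
    (hprop : PropR D L)
    (B : ℤ → (∀ p : ℕ, HC k (Amb D R) p) →ₗ[k] (∀ p : ℕ, HC k (Amb D R) p))
    (hB : ∀ n z, IsCh (k := k) (A := Amb D R) (homq 𝓡) n z →
      IsCh (k := k) (A := Amb D R) (homq 𝓡) (n + 1) (B n z))
    (hBB : ∀ n z, IsCh (k := k) (A := Amb D R) (homq 𝓡) n z → B (n + 1) (B n z) = 0)
    (hbB : ∀ n z, IsCh (k := k) (A := Amb D R) (homq 𝓡) n z →
      bd (k := k) (A := Amb D R) (lft (par (k := k) 𝓡)) (lft d) (n + 1) (B n z) +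
        B (n - 1) (bd (k := k) (A := Amb D R) (lft (par (k := k) 𝓡)) (lft d) n z) = 0)
    (n : ℤ) (z : ∀ p : ℕ, HC k (Amb D R) p) (hz : IsCh (k := k) (A := Amb D R) (homq 𝓡) n z)
    (hb : bd (k := k) (A := Amb D R) (lft (par (k := k) 𝓡)) (lft d) n z = 0) :
    ∃ Z : ℕ → (∀ p : ℕ, HC k (Amb D R) p), Z 0 = z ∧
      (∀ i : ℕ, IsCh (k := k) (A := Amb D R) (homq 𝓡) (n + 2 * i) (Z i)) ∧
      ∀ i : ℕ, bd (k := k) (A := Amb D R) (lft (par (k := k) 𝓡)) (lft d) (n + 2 * i + 2) (Z (i + 1)) +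
        B (n + 2 * i) (Z i) = 0 := by
  obtain ⟨C, c1, c2, c3, c4, c5⟩ := dg_ctx hd hL hr
  have h := C.lift
  rw [c1, c3, c4] at h
  exact h (fun n hn z hz hb => dg_exact hd hL hr hfg hcen hsm hprop hn z hz hb) B hB hBB hbB n z
    hz hb

end asm

end Pool.Agent.Helper49.HE
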