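import Pool.Agent.Helper44.HD.DefsC

/-!
# Project HE (MP_e5f486_ag): Hochschild chains with a twist in the last face
-/

set_option autoImplicit false
set_option linter.unusedSectionVars false

open Finset

namespace Pool.Agent.Helper49.HE

open Pool.Agent.Helper44.HD

/-- the last face with a twist: `(α(x_m) x_0, x_1, x_2, ..)` -/
def cyt {A : Type} [Mul A] (α : A → A) (m : ℕ) (x : ℕ → A) : ℕ → A := fun i =>
  if i = 0 then α (x m) * x 0 else x i

/-- the faces `C_{n+1} → C_n`, `j ≤ n + 1` -/
def fc {A : Type} [Mul A] (α : A → A) (n j : ℕ) (x : ℕ → A) : ℕ → A :=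
  if j ≤ n then ct j x else cyt α (n + 1) x

section chains

variable (k : Type) {A B : Type} [Field k] [Ring A] [Algebra k A] [Ring B] [Algebra k B]

theorem ct_coch (n j : ℕ) (hj : j ≤ n) :
    Coch k (n + 1) (fun x : ℕ → A => tp k n (ct j x)) := by
  refine (tp_coch k n).subst (ct j) (fun i => if i ≤ j then i else i - 1) ?_ ?_ ?_ ?_ ?_
  · intro i hi
    split_ifs <;> omega
  · intro x y h i hi
    simp only [ct]
    split_ifs
    · exact h _ (by omega)
    · rw [h _ (by omega), h _ (by omega)]
    · exact h _ (by omega)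
  · intro x l a b hl i hi hil
    simp only [ct]
    split_ifs at hil ⊢ <;>
    (try rw [Function.update_of_ne (by omega), Function.update_of_ne (by omega)]) <;>
    (try rw [Function.update_of_ne (by omega), Function.update_of_ne (by omega)])
  · intro x l a b hl
    simp only [ct]
    split_ifs with h1 h2 h3 h4 h5
    · simp
    · have : l = j := h3
      subst this
      simp [add_mul]
    · omega
    · omega
    · have : l = j + 1 := by omega
      subst this
      simp [mul_add]
    · have : l - 1 + 1 = l := by omega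
      rw [this]
      simp
  · intro x l c a hl
    simp only [ct]
    split_ifs with h1 h2 h3 h4 h5
    · simp
    · have : l = j := h3
      subst this
      simp
    · omega
    · omega
    · have : l = j + 1 := by omega
      subst this
      simp
    · have : l - 1 + 1 = l := by omega
      rw [this]
      simp

theorem cy_coch (n : ℕ) : Coch k (n + 1) (fun x : ℕ → A => tp k n (cy (n + 1) x)) := by
  refine (tp_coch k n).subst (cy (n + 1)) (fun i => if i = n + 1 then 0 else i) ?_ ?_ ?_ ?_ ?_
  · intro i hi
    split_ifs <;> omega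
  · intro x y h i hi
    simp only [cy]
    split_ifs
    · rw [h _ (by omega), h _ (by omega)]
    · exact h _ (by omega)
  · intro x l a b hl i hi hil
    simp only [cy]
    split_ifs at hil ⊢ <;>
    (try rw [Function.update_of_ne (by omega), Function.update_of_ne (by omega)]) <;>
    (try rw [Function.update_of_ne (by omega), Function.update_of_ne (by omega)])
  · intro x l a b hl
    simp only [cy]
    by_cases h1 : l = n + 1
    · subst h1
      simp [add_mul]
    · by_cases h2 : l = 0
      · subst h2
        simp [mul_add]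
      · simp [h1, h2]
  · intro x l c a hl
    simp only [cy]
    by_cases h1 : l = n + 1
    · subst h1
      simp
    · by_cases h2 : l = 0
      · subst h2
        simp
      · simp [h1, h2]

theorem cyt_coch (n : ℕ) (α : A →ₗ[k] A) :
    Coch k (n + 1) (fun x : ℕ → A => tp k n (cyt α (n + 1) x)) := by
  have h := (cy_coch k n (A := A)).comp (A := A) (B := A)
    (fun i => if i = n + 1 then (α : A → A) else id)
    (fun i a b => by by_cases h : i = n + 1 <;> simp [h])
    (fun i c a => by by_cases h : i = n + 1 <;> simp [h])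
  refine ⟨fun x y e => ?_, fun x i a b hi => ?_, fun x i c a hi => ?_⟩
  all_goals
    have e1 : ∀ x : ℕ → A, tp k n (cyt α (n + 1) x) = tp k n (cy (n + 1) fun i =>
      (if i = n + 1 then (α : A → A) else id) (x i)) := by
        intro x
        refine (tp_coch k n).dep _ _ fun i hi => ?_
        by_cases h0 : i = 0
        · subst h0
          simp [cyt, cy]
        · have h1 : ¬ i = n + 1 := by omega
          simp [cyt, cy, h0, h1]
    simp only [e1]
  · exact h.dep x y e
  · exact h.add x i a b hi
  · exact h.smul x i c a hi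

theorem fc_coch (n j : ℕ) (α : A →ₗ[k] A) :
    Coch k (n + 1) (fun x : ℕ → A => tp k n (fc α n j x)) := by
  unfold fc
  by_cases hj : j ≤ n
  · simp only [hj, if_true]
    exact ct_coch k n j hj
  · simp only [hj, if_false]
    exact cyt_coch k n α

theorem bt_coch (n : ℕ) (α : A →ₗ[k] A) : Coch k (n + 1)
    (fun x : ℕ → A => ∑ j ∈ range (n + 2), (-1 : k) ^ j • tp k n (fc α n j x)) :=
  Coch.sumc _ _ fun j _ => (fc_coch k n j α).smulc _

/-- the Hochschild boundary with twist `α` in the last face -/
noncomputable def bt (α : A →ₗ[k] A) (n : ℕ) : HC k A (n + 1) →ₗ[k] HC k A n :=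
  (bt_coch k n α).lin

theorem bt_tp (α : A →ₗ[k] A) (n : ℕ) (x : ℕ → A) : bt k α n (tp k (n + 1) x) =
    ∑ j ∈ range (n + 2), (-1 : k) ^ j • tp k n (fc α n j x) :=
  (bt_coch k n α).lin_tp x

theorem bt_id (n : ℕ) : bt k (LinearMap.id : A →ₗ[k] A) n = bc k A n := by
  refine HC_ext fun x => ?_
  rw [bt_tp, bc_tp, bch, sum_range_succ]
  congr 1
  · refine sum_congr rfl fun j hj => ?_
    have : j ≤ n := by
      have := mem_range.1 hj
      omega
    simp only [fc, this, if_true]
  · have : ¬ n + 1 ≤ n := by omega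
    simp only [fc, this, if_false]
    rfl

/-- `f 0 ⊗ f 1 ⊗ ...` -/
noncomputable def mp (f : ℕ → A →ₗ[k] B) (n : ℕ) : HC k A n →ₗ[k] HC k B n :=
  PiTensorProduct.map fun i : Fin (n + 1) => f i

theorem mp_tp (f : ℕ → A →ₗ[k] B) (n : ℕ) (x : ℕ → A) :
    mp k f n (tp k n x) = tp k n fun i => f i (x i) := by
  unfold mp tp
  rw [PiTensorProduct.map_tprod]

theorem tp_congr {n : ℕ} {x y : ℕ → A} (h : ∀ i, i ≤ n → x i = y i) : tp k n x = tp k n y :=
  (tp_coch k n).dep x y h

theorem tp_smul (n : ℕ) (c : ℕ → k) (x : ℕ → A) :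
    tp k n (fun i => c i • x i) = (∏ i ∈ range (n + 1), c i) • tp k n x := by
  unfold tp
  rw [MultilinearMap.map_smul_univ, Fin.prod_univ_eq_prod_range (fun i => c i) (n + 1)]

theorem tp_zero {n : ℕ} {x : ℕ → A} (i : ℕ) (hi : i ≤ n) (h : x i = 0) : tp k n x = 0 :=
  (tp_coch k n).zero_entry x i hi h

/-- additivity in the entry `j` -/
theorem tp_add {n : ℕ} {x y z : ℕ → A} (j : ℕ) (hj : j ≤ n)
    (h : ∀ i, i ≤ n → i ≠ j → x i = z i ∧ y i = z i) (h2 : z j = x j + y j) :
    tp k n z = tp k n x + tp k n y := by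
  have e1 : tp k n z = tp k n (Function.update z j (x j + y j)) := by
    rw [← h2, Function.update_eq_self]
  rw [e1, (tp_coch k n).add z j _ _ hj]
  congr 1
  · refine tp_congr k fun i hi => ?_
    by_cases e : i = j
    · subst e
      simp
    · rw [Function.update_of_ne e, (h i hi e).1]
  · refine tp_congr k fun i hi => ?_
    by_cases e : i = j
    · subst e
      simp
    · rw [Function.update_of_ne e, (h i hi e).2]

end chains

/-- the combinatorial lemma behind `b² = 0` -/
theorem alt_sum {M k : Type} [Field k] [AddCommGroup M] [Module k M] (n : ℕ) (f : ℕ → ℕ → M)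
    (h : ∀ i j, i < j → j ≤ n + 2 → f j i = f i (j - 1)) :
    ∑ j ∈ range (n + 3), (-1 : k) ^ j • ∑ i ∈ range (n + 2), (-1 : k) ^ i • f j i = 0 := by
  have e1 : ∀ j ∈ range (n + 3), (-1 : k) ^ j • ∑ i ∈ range (n + 2), (-1 : k) ^ i • f j i =
      ∑ i ∈ (range (n + 2)).filter (fun i => i < j), (-1 : k) ^ (i + j) • f j i +
      ∑ i ∈ (range (n + 2)).filter (fun i => ¬ i < j), (-1 : k) ^ (i + j) • f j i := by
    intro j _
    rw [sum_filter_add_sum_filter_not, smul_sum]
    refine sum_congr rfl fun i _ => ?_
    rw [smul_smul, ← pow_add, add_comm j i]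
  rw [sum_congr rfl e1, sum_add_distrib]
  have e2 : ∑ j ∈ range (n + 3), ∑ i ∈ (range (n + 2)).filter (fun i => i < j),
      (-1 : k) ^ (i + j) • f j i = -∑ j ∈ range (n + 3),
        ∑ i ∈ (range (n + 2)).filter (fun i => ¬ i < j), (-1 : k) ^ (i + j) • f j i := by
    rw [← sum_neg_distrib]
    simp only [← sum_neg_distrib]
    rw [Finset.sum_sigma', Finset.sum_sigma']
    refine Finset.sum_bij' (fun p _ => ⟨p.2, p.1 - 1⟩) (fun p _ => ⟨p.2 + 1, p.1⟩) ?_ ?_ ?_ ?_ ?_
    · rintro ⟨j, i⟩ hp
      simp only [mem_sigma, mem_range, mem_filter] at hp ⊢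
      omega
    · rintro ⟨j, i⟩ hp
      simp only [mem_sigma, mem_range, mem_filter] at hp ⊢
      omega
    · rintro ⟨j, i⟩ hp
      simp only [mem_sigma, mem_range, mem_filter] at hp
      have : j - 1 + 1 = j := by omega
      simp only [this]
    · rintro ⟨j, i⟩ hp
      simp only [mem_sigma, mem_range, mem_filter] at hp
      simp
    · rintro ⟨j, i⟩ hp
      simp only [mem_sigma, mem_range, mem_filter] at hp
      simp only
      rw [h i j (by omega) (by omega), ← neg_smul]
      congr 1
      obtain ⟨l, rfl⟩ : ∃ l, j = l + 1 := ⟨j - 1, by omega⟩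
      simp only [Nat.add_sub_cancel]
      rw [← add_assoc, pow_succ, add_comm l i]
      ring
  rw [e2, neg_add_cancel]

end Pool.Agent.Helper49.HE
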