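import Pool.Agent.Helper49.HE.Core

/-!
# Project HE (MP_e5f486_ag): the boundary commutes with the internal differential
-/

set_option autoImplicit false
set_option linter.unusedSectionVars false

open Finset

namespace Pool.Agent.Helper49.HE

open Pool.Agent.Helper44.HD

theorem npow_congr (k : Type) [Field k] {a b : ℤ} (h : Even (a - b)) : (-1 : k) ^ a = (-1 : k) ^ b := by
  have h1 := npow_mul k (a - b) b
  rw [sub_add_cancel, npow_even k h, one_mul] at h1
  exact h1.symm

theorem npow_prod (k : Type) [Field k] (e : ℕ → ℤ) (n : ℕ) :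
    ∏ i ∈ range n, (-1 : k) ^ e i = (-1 : k) ^ ∑ i ∈ range n, e i := by
  induction n with
  | zero => simp
  | succ n ih => rw [prod_range_succ, sum_range_succ, ih, npow_mul]

namespace Ctx

variable {k A L Ω : Type} [Field k] [Ring A] [Algebra k A] [Ring L] [Algebra k L]
  (C : Ctx k A L Ω)

/-- the sign in the last face -/
theorem last_sign {p : ℕ} {q : ℤ} {x : ℕ → Ω} {e : ℕ → ℤ} {a : ℕ → A}
    (h : IsW C.HA (p + 1) q x e a) :
    tp k p (fun i => if i = 0 then tw C.τ (q - 1) (C.δ (a (p + 1))) * C.τ (a 0) else C.τ (a i)) =
      tp k p fun i => if i = 0 then C.δ (tw C.τ q (a (p + 1))) * a 0 else a i := by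
  have hm := h.mem (p + 1) le_rfl
  have hd := C.dA _ _ _ _ hm
  have hsum : ∑ i ∈ range (p + 1), e i = q - e (p + 1) := by
    have := h.deg
    rw [sum_range_succ] at this
    omega
  let y : ℕ → A := fun i => if i = 0 then C.δ (a (p + 1)) * a 0 else a i
  have key : ∀ s s' : k, tw C.τ (q - 1) (C.δ (a (p + 1))) = s • C.δ (a (p + 1)) →
      C.δ (tw C.τ q (a (p + 1))) = s' • C.δ (a (p + 1)) → s * (-1 : k) ^ (q - e (p + 1)) = s' →
      tp k p (fun i => if i = 0 then tw C.τ (q - 1) (C.δ (a (p + 1))) * C.τ (a 0) else C.τ (a i)) =
      tp k p fun i => if i = 0 then C.δ (tw C.τ q (a (p + 1))) * a 0 else a i := by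
    intro s s' h1 h2 h3
    have e1 : tp k p (fun i => if i = 0 then tw C.τ (q - 1) (C.δ (a (p + 1))) * C.τ (a 0)
        else C.τ (a i)) = tp k p fun i => ((if i = 0 then s else 1) * (-1 : k) ^ e i) • y i := by
      refine tp_congr k fun i hi => ?_
      by_cases h0 : i = 0
      · subst h0
        simp only [if_true, y]
        rw [h1, C.τA _ _ _ _ (h.mem 0 (by omega)), smul_mul_smul_comm]
      · simp only [h0, if_false, y, one_mul]
        exact C.τA _ _ _ _ (h.mem i (by omega))
    have e2 : tp k p (fun i => if i = 0 then C.δ (tw C.τ q (a (p + 1))) * a 0 else a i) =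
        tp k p fun i => (if i = 0 then s' else 1) • y i := by
      refine tp_congr k fun i hi => ?_
      by_cases h0 : i = 0
      · subst h0
        simp only [if_true, y]
        rw [h2, smul_mul_assoc]
      · simp only [h0, if_false, y, one_smul]
    rw [e1, e2, tp_smul, tp_smul, prod_mul_distrib, npow_prod, hsum,
      prod_ite_eq' (range (p + 1)) 0 (fun _ => s), prod_ite_eq' (range (p + 1)) 0 (fun _ => s'),
      if_pos (by simp), if_pos (by simp), h3]
  by_cases hq : Even q
  · have hq' : ¬ Even (q - 1) := by
      obtain ⟨r, rfl⟩ := hq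
      rintro ⟨t, ht⟩
      omega
    refine key 1 ((-1 : k) ^ e (p + 1)) ?_ ?_ ?_
    · simp only [tw, hq', if_false, one_smul]
      rfl
    · simp only [tw, hq, if_true]
      rw [C.τA _ _ _ _ hm, map_smul]
    · rw [one_mul]
      refine npow_congr k ?_
      obtain ⟨r, hr⟩ := hq
      exact ⟨r - e (p + 1), by omega⟩
  · have hq' : Even (q - 1) := by
      rcases Int.not_even_iff_odd.1 hq with ⟨r, rfl⟩
      exact ⟨r, by omega⟩
    refine key ((-1 : k) ^ (e (p + 1) - 1)) 1 ?_ ?_ ?_
    · simp only [tw, hq', if_true]
      exact C.τA _ _ _ _ hd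
    · simp only [tw, hq, if_false, one_smul]
      rfl
    · rw [npow_mul]
      refine npow_even k ?_
      obtain ⟨r, hr⟩ := hq'
      exact ⟨r, by omega⟩

/-- the boundary commutes with the internal differential -/
theorem comm {p : ℕ} {q : ℤ} {z : HC k A (p + 1)} (hz : z ∈ Cq C.HA (p + 1) q) :
    bt k (tw C.τ (q - 1)) p (C.dq (p + 1) z) = C.dq p (bt k (tw C.τ q) p z) := by
  refine Cq_ext (f := bt k (tw C.τ (q - 1)) p ∘ₗ C.dq (p + 1))
    (g := C.dq p ∘ₗ bt k (tw C.τ q) p) ?_ hz
  intro x e a h
  rw [LinearMap.comp_apply, LinearMap.comp_apply]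
  unfold dq
  rw [sg_tp, map_sum, bt_tp, map_sum]
  simp only [bt_tp, map_smul, sg_tp]
  rw [sum_comm]
  refine sum_congr rfl fun j hj => ?_
  rw [← smul_sum]
  congr 1
  let D : ℕ → ℕ → A := fun l i => sl C.τ C.δ l i (a i)
  let F : ℕ → HC k A p := fun l => tp k p (fc (tw C.τ (q - 1)) p j (D l))
  change ∑ l ∈ range (p + 2), F l = _
  by_cases hj' : j ≤ p
  · rw [← sum_ce F j p hj']
    refine sum_congr rfl fun l hl => ?_
    have hl' : l ≤ p := Nat.lt_succ_iff.1 (mem_range.1 hl)
    rcases lt_trichotomy l j with h1 | h1 | h1
    · simp only [ce, h1, if_true, F]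
      refine tp_congr k fun i hi => ?_
      simp only [fc, hj', if_true]
      rcases lt_trichotomy i j with h2 | h2 | h2
      · simp only [ct, h2, if_true, D]
      · subst h2
        have h3 : ¬ i < l := by omega
        have h4 : ¬ i = l := by omega
        have h5 : ¬ i + 1 < l := by omega
        have h6 : ¬ i + 1 = l := by omega
        simp only [ct, lt_irrefl, if_true, if_false, D, sl, h3, h4, h5, h6, LinearMap.id_apply]
      · have h3 : ¬ i < j := by omega
        have h4 : ¬ i = j := by omega
        have h5 : ¬ i + 1 < l := by omega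
        have h6 : ¬ i + 1 = l := by omega
        have h7 : ¬ i < l := by omega
        have h8 : ¬ i = l := by omega
        simp only [ct, h3, h4, if_false, D, sl, h5, h6, h7, h8, LinearMap.id_apply]
    · subst h1
      simp only [ce, lt_irrefl, if_true, if_false, F, fc, hl']
      refine (tp_add k l hl' ?_ ?_).symm
      · intro i hi hil
        rcases lt_trichotomy i l with h2 | h2 | h2
        · have h3 : i < l + 1 := by omega
          simp only [ct, h2, if_true, D, sl, h3]
          exact ⟨trivial, trivial⟩
        · exact absurd h2 hil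
        · have h3 : ¬ i < l := by omega
          have h4 : ¬ i + 1 < l := by omega
          have h5 : ¬ i + 1 = l := by omega
          have h6 : ¬ i + 1 < l + 1 := by omega
          have h7 : ¬ i + 1 = l + 1 := by omega
          simp only [ct, h3, hil, if_false, D, sl, h4, h5, h6, h7, LinearMap.id_apply]
          exact ⟨trivial, trivial⟩
      · have h3 : ¬ l + 1 < l := by omega
        have h4 : ¬ l + 1 = l := by omega
        have h5 : l < l + 1 := by omega
        simp only [ct, lt_irrefl, if_true, if_false, D, sl, h3, h4, h5, LinearMap.id_apply]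
        exact C.leib _ _ _ _ _ _ _ (h.mem l (by omega)) (h.mem (l + 1) (by omega))
    · have h2 : ¬ l < j := by omega
      have h3 : ¬ l = j := by omega
      simp only [ce, h2, h3, if_false, F]
      refine tp_congr k fun i hi => ?_
      simp only [fc, hj', if_true]
      rcases lt_trichotomy i j with h4 | h4 | h4
      · have h5 : i < l + 1 := by omega
        have h6 : i < l := by omega
        simp only [ct, h4, if_true, D, sl, h5, h6]
      · subst h4
        have h5 : i < l + 1 := by omega
        have h6 : i + 1 < l + 1 := by omega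
        simp only [ct, lt_irrefl, if_true, if_false, D, sl, h5, h6, h1]
        exact (C.τmul _ _ _ _ _ _ _ (h.mem i (by omega)) (h.mem (i + 1) (by omega))).symm
      · have h5 : ¬ i < j := by omega
        have h6 : ¬ i = j := by omega
        simp only [ct, h5, h6, if_false, D, sl]
        by_cases h7 : i < l
        · have h8 : i + 1 < l + 1 := by omega
          simp only [h7, h8, if_true]
        · by_cases h8 : i = l
          · subst h8
            simp only [lt_irrefl, if_true, if_false]
          · have h9 : ¬ i + 1 < l + 1 := by omega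
            have h10 : ¬ i + 1 = l + 1 := by omega
            simp only [h7, h8, h9, h10, if_false, LinearMap.id_apply]
  · have hj2 : j = p + 1 := by
      have := mem_range.1 hj
      omega
    rw [← sum_le F p]
    refine sum_congr rfl fun l hl => ?_
    have hl' : l ≤ p := Nat.lt_succ_iff.1 (mem_range.1 hl)
    have hm := h.mem (p + 1) le_rfl
    rw [h.cl] at hm
    have hτα : C.τ (tw C.τ q (a (p + 1))) = tw C.τ (q - 1) (a (p + 1)) := by
      by_cases hq : Even q
      · have hq' : ¬ Even (q - 1) := by
          obtain ⟨r, rfl⟩ := hq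
          rintro ⟨t, ht⟩
          omega
        simp only [tw, hq, hq', if_true, if_false, LinearMap.id_apply]
        exact C.ττ _ _ _ _ hm
      · have hq' : Even (q - 1) := by
          rcases Int.not_even_iff_odd.1 hq with ⟨r, rfl⟩
          exact ⟨r, by omega⟩
        simp only [tw, hq, hq', if_true, if_false, LinearMap.id_apply]
    rcases Nat.eq_zero_or_pos l with h1 | h1
    · subst h1
      simp only [le', if_true, F, fc, hj', if_false]
      have e1 : tp k p (cyt (tw C.τ (q - 1)) (p + 1) (D (p + 1))) =
          tp k p fun i => if i = 0 then C.δ (tw C.τ q (a (p + 1))) * a 0 else a i := by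
        rw [← C.last_sign h]
        refine tp_congr k fun i hi => ?_
        rcases Nat.eq_zero_or_pos i with h2 | h2
        · subst h2
          have h3 : 0 < p + 1 := by omega
          simp only [cyt, if_true, D, sl, lt_irrefl, if_false, h3]
        · have h3 : ¬ i = 0 := by omega
          have h4 : i < p + 1 := by omega
          simp only [cyt, h3, if_false, D, sl, h4, if_true]
      rw [e1]
      refine (tp_add k 0 (Nat.zero_le p) ?_ ?_).symm
      · intro i hi hi0
        have h4 : ¬ i < 0 := by omega
        simp only [cyt, hi0, if_false, D, sl, h4, LinearMap.id_apply]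
        exact ⟨trivial, trivial⟩
      · have h4 : ¬ p + 1 < 0 := by omega
        have h5 : ¬ p + 1 = 0 := by omega
        simp only [cyt, if_true, D, sl, lt_irrefl, if_false, h4, h5, LinearMap.id_apply]
        rw [← hτα]
        exact C.leib _ _ _ _ _ _ _ (C.tw_A q _ _ _ _ hm) (h.mem 0 (by omega))
    · have h2 : ¬ l = 0 := by omega
      simp only [le', h2, if_false, F, fc, hj']
      refine tp_congr k fun i hi => ?_
      rcases Nat.eq_zero_or_pos i with h3 | h3
      · subst h3
        have h4 : ¬ p + 1 < l := by omega
        have h5 : ¬ p + 1 = l := by omega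
        simp only [cyt, if_true, D, sl, h1, h4, h5, if_false, LinearMap.id_apply]
        rw [← hτα]
        exact (C.τmul _ _ _ _ _ _ _ (C.tw_A q _ _ _ _ hm) (h.mem 0 (by omega))).symm
      · have h4 : ¬ i = 0 := by omega
        simp only [cyt, h4, if_false, D]

end Ctx

end Pool.Agent.Helper49.HE
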