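import Pool.Agent.Helper49.HE.Words

/-!
# Project HE (MP_e5f486_ag): the total complex of a dg category and its homology category
-/

set_option autoImplicit false
set_option linter.unusedSectionVars false

open Finset

namespace Pool.Agent.Helper49.HE

open Pool.Agent.Helper44.HD

section slots

variable {k A : Type} [Field k] [Ring A] [Algebra k A]

/-- `f ⊗ .. ⊗ f ⊗ g ⊗ 1 ⊗ .. ⊗ 1` (`g` in the slot `j`) -/
def sl (f g : A →ₗ[k] A) (j i : ℕ) : A →ₗ[k] A :=
  if i < j then f else if i = j then g else LinearMap.id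

/-- the sum over `j` of the `f ⊗ .. ⊗ f ⊗ g ⊗ 1 ⊗ .. ⊗ 1` -/
noncomputable def sg (f g : A →ₗ[k] A) (n : ℕ) : HC k A n →ₗ[k] HC k A n :=
  ∑ j ∈ range (n + 1), mp k (sl f g j) n

theorem sg_tp (f g : A →ₗ[k] A) (n : ℕ) (a : ℕ → A) :
    sg f g n (tp k n a) = ∑ j ∈ range (n + 1), tp k n fun i => sl f g j i (a i) := by
  unfold sg
  rw [LinearMap.sum_apply]
  exact sum_congr rfl fun j _ => mp_tp k _ n a

theorem sg_anti {f g f' g' : A →ₗ[k] A} {n : ℕ} {a : ℕ → A}
    (h1 : ∀ i, i ≤ n → f (f' (a i)) = f' (f (a i)))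
    (h2 : ∀ i, i ≤ n → g (f' (a i)) + f' (g (a i)) = 0)
    (h3 : ∀ i, i ≤ n → f (g' (a i)) + g' (f (a i)) = 0) :
    sg f g n (sg f' g' n (tp k n a)) + sg f' g' n (sg f g n (tp k n a)) =
      ∑ j ∈ range (n + 1), tp k n fun i =>
        if i < j then f (f' (a i)) else if i = j then g (g' (a i)) + g' (g (a i)) else a i := by
  have e1 : sg f g n (sg f' g' n (tp k n a)) = ∑ j ∈ range (n + 1), ∑ l ∈ range (n + 1),
      tp k n fun i => sl f g l i (sl f' g' j i (a i)) := by
    rw [sg_tp, map_sum]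
    exact sum_congr rfl fun j _ => sg_tp f g n _
  have e2 : sg f' g' n (sg f g n (tp k n a)) = ∑ j ∈ range (n + 1), ∑ l ∈ range (n + 1),
      tp k n fun i => sl f' g' j i (sl f g l i (a i)) := by
    rw [sum_comm, sg_tp, map_sum]
    exact sum_congr rfl fun j _ => sg_tp f' g' n _
  rw [e1, e2, ← sum_add_distrib]
  refine sum_congr rfl fun j hj => ?_
  have hj' : j ≤ n := Nat.lt_succ_iff.1 (mem_range.1 hj)
  rw [← sum_add_distrib, sum_eq_single j]
  · refine (tp_add k j hj' ?_ ?_).symm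
    · intro i hi hij
      rcases lt_trichotomy i j with h | h | h
      · simp only [sl, h, if_true]
        exact ⟨trivial, (h1 i hi).symm⟩
      · exact absurd h hij
      · have h4 : ¬ i < j := by omega
        constructor <;> simp [sl, h4, hij]
    · simp only [sl, lt_irrefl, if_false, if_true]
  · intro l hl hlj
    have hl' : l ≤ n := Nat.lt_succ_iff.1 (mem_range.1 hl)
    rcases Nat.lt_or_ge l j with h | h
    · let z : ℕ → A := fun i => if i = l then 0 else sl f g l i (sl f' g' j i (a i))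
      have e3 : tp k n z = (tp k n fun i => sl f g l i (sl f' g' j i (a i))) +
          tp k n fun i => sl f' g' j i (sl f g l i (a i)) := by
        refine tp_add k l hl' ?_ ?_
        · intro i hi hil
          refine ⟨by simp only [z, hil, if_false], ?_⟩
          simp only [z, hil, if_false]
          rcases lt_trichotomy i l with h4 | h4 | h4
          · have h5 : i < j := by omega
            simp only [sl, h4, h5, if_true]
            exact (h1 i hi).symm
          · exact absurd h4 hil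
          · have h5 : ¬ i < l := by omega
            simp only [sl, h5, hil, if_false]
            rfl
        · simp only [z, sl, lt_irrefl, if_false, if_true, h]
          exact (h2 l hl').symm
      rw [← e3]
      exact tp_zero k l hl' (by simp only [z, if_true])
    · have h6 : j < l := by omega
      let z : ℕ → A := fun i => if i = j then 0 else sl f g l i (sl f' g' j i (a i))
      have e3 : tp k n z = (tp k n fun i => sl f g l i (sl f' g' j i (a i))) +
          tp k n fun i => sl f' g' j i (sl f g l i (a i)) := by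
        refine tp_add k j hj' ?_ ?_
        · intro i hi hil
          refine ⟨by simp only [z, hil, if_false], ?_⟩
          simp only [z, hil, if_false]
          rcases lt_trichotomy i j with h4 | h4 | h4
          · have h5 : i < l := by omega
            simp only [sl, h4, h5, if_true]
            exact (h1 i hi).symm
          · exact absurd h4 hil
          · have h5 : ¬ i < j := by omega
            simp only [sl, h5, hil, if_false]
            rfl
        · simp only [z, sl, lt_irrefl, if_false, if_true, h6]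
          exact (h3 j hj').symm
      rw [← e3]
      exact tp_zero k j hj' (by simp only [z, if_true])
  · intro h
    exact absurd hj h

end slots

/-- the twist of the last face in internal degree `q`: the Koszul sign is `(-1) ^ (e (q + 1))` -/
def tw {k A : Type} [Field k] [Ring A] [Algebra k A] (τ : A →ₗ[k] A) (q : ℤ) : A →ₗ[k] A :=
  if Even q then τ else LinearMap.id

/-- a dg category (objects `Ω`, morphisms in `A`), its homology category (morphisms in `L`) and a
contraction -/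
structure Ctx (k A L Ω : Type) [Field k] [Ring A] [Algebra k A] [Ring L] [Algebra k L] where
  HA : ℤ → Ω → Ω → Submodule k A
  HL : ℤ → Ω → Ω → Submodule k L
  τ : A →ₗ[k] A
  δ : A →ₗ[k] A
  h : A →ₗ[k] A
  σ : L →ₗ[k] L
  ι : L →ₗ[k] A
  π : A →ₗ[k] L
  mulA : MulC HA
  mulL : MulC HL
  τA : ∀ q x y a, a ∈ HA q x y → τ a = (-1 : k) ^ q • a
  σL : ∀ q x y a, a ∈ HL q x y → σ a = (-1 : k) ^ q • a
  dA : ∀ q x y a, a ∈ HA q x y → δ a ∈ HA (q - 1) x y
  hA : ∀ q x y a, a ∈ HA q x y → h a ∈ HA (q + 1) x y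
  πA : ∀ q x y a, a ∈ HA q x y → π a ∈ HL q x y
  ιL : ∀ q x y a, a ∈ HL q x y → ι a ∈ HA q x y
  dd : ∀ q x y a, a ∈ HA q x y → δ (δ a) = 0
  leib : ∀ q q' x y z a b, a ∈ HA q x y → b ∈ HA q' y z → δ (a * b) = δ a * b + τ a * δ b
  dι : ∀ q x y a, a ∈ HL q x y → δ (ι a) = 0
  πd : ∀ q x y a, a ∈ HA q x y → π (δ a) = 0
  πι : ∀ q x y a, a ∈ HL q x y → π (ι a) = a
  hom : ∀ q x y a, a ∈ HA q x y → δ (h a) + h (δ a) = a - ι (π a)
  mulπ : ∀ q q' x y z a b, a ∈ HL q x y → b ∈ HL q' y z → π (ι a * ι b) = a * b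

theorem npow_mul (k : Type) [Field k] (a b : ℤ) : (-1 : k) ^ a * (-1 : k) ^ b = (-1 : k) ^ (a + b) :=
  (zpow_add₀ (by simp) a b).symm

theorem npow_even (k : Type) [Field k] {a : ℤ} (h : Even a) : (-1 : k) ^ a = 1 := h.neg_one_zpow

namespace Ctx

variable {k A L Ω : Type} [Field k] [Ring A] [Algebra k A] [Ring L] [Algebra k L]
  (C : Ctx k A L Ω)

theorem tw_A (q : ℤ) : ∀ e x y a, a ∈ C.HA e x y → tw C.τ q a ∈ C.HA e x y := by
  intro e x y a ha
  unfold tw
  split_ifs
  · rw [C.τA e x y a ha]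
    exact Submodule.smul_mem _ _ ha
  · exact ha

theorem tw_L (q : ℤ) : ∀ e x y a, a ∈ C.HL e x y → tw C.σ q a ∈ C.HL e x y := by
  intro e x y a ha
  unfold tw
  split_ifs
  · rw [C.σL e x y a ha]
    exact Submodule.smul_mem _ _ ha
  · exact ha

theorem τmul : ∀ (q q' : ℤ) (x y z : Ω) (a b : A), a ∈ C.HA q x y → b ∈ C.HA q' y z →
    C.τ (a * b) = C.τ a * C.τ b := by
  intro q q' x y z a b ha hb
  rw [C.τA q x y a ha, C.τA q' y z b hb, C.τA _ x z _ (C.mulA _ _ _ _ _ _ _ ha hb), smul_mul_smul_comm,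
    npow_mul]

theorem twmul (r : ℤ) : ∀ (q q' : ℤ) (x y z : Ω) (a b : A), a ∈ C.HA q x y → b ∈ C.HA q' y z →
    tw C.τ r (a * b) = tw C.τ r a * tw C.τ r b := by
  intro q q' x y z a b ha hb
  unfold tw
  split_ifs
  · exact C.τmul q q' x y z a b ha hb
  · rfl

theorem ττ (q : ℤ) (x y : Ω) (a : A) (ha : a ∈ C.HA q x y) : C.τ (C.τ a) = a := by
  rw [C.τA q x y a ha, map_smul, C.τA q x y a ha, smul_smul, npow_mul, npow_even k ⟨q, rfl⟩, one_smul]

theorem τδ (q : ℤ) (x y : Ω) (a : A) (ha : a ∈ C.HA q x y) : C.τ (C.δ a) + C.δ (C.τ a) = 0 := by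
  rw [C.τA q x y a ha, map_smul, C.τA _ x y _ (C.dA q x y a ha), ← add_smul]
  have : (-1 : k) ^ (q - 1) + (-1 : k) ^ q = 0 := by
    have h := npow_mul k (q - 1) 1
    rw [sub_add_cancel, zpow_one] at h
    rw [← h]
    ring
  rw [this, zero_smul]

theorem τh (q : ℤ) (x y : Ω) (a : A) (ha : a ∈ C.HA q x y) : C.τ (C.h a) + C.h (C.τ a) = 0 := by
  rw [C.τA q x y a ha, map_smul, C.τA _ x y _ (C.hA q x y a ha), ← add_smul]
  have : (-1 : k) ^ (q + 1) + (-1 : k) ^ q = 0 := by
    have h := npow_mul k q 1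
    rw [zpow_one] at h
    rw [← h]
    ring
  rw [this, zero_smul]

theorem πτ (q : ℤ) (x y : Ω) (a : A) (ha : a ∈ C.HA q x y) : C.π (C.τ a) = C.σ (C.π a) := by
  rw [C.τA q x y a ha, map_smul, C.σL _ x y _ (C.πA q x y a ha)]

theorem ισ (q : ℤ) (x y : Ω) (a : L) (ha : a ∈ C.HL q x y) : C.ι (C.σ a) = C.τ (C.ι a) := by
  rw [C.σL q x y a ha, map_smul, C.τA _ x y _ (C.ιL q x y a ha)]

/-- the internal differential on words -/
noncomputable def dq (n : ℕ) : HC k A n →ₗ[k] HC k A n := sg C.τ C.δ n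

/-- the homotopy on words -/
noncomputable def hq (n : ℕ) : HC k A n →ₗ[k] HC k A n := sg (C.τ ∘ₗ C.ι ∘ₗ C.π) C.h n

/-- the map of words induced by `ι` -/
noncomputable def iq (n : ℕ) : HC k L n →ₗ[k] HC k A n := mp k (fun _ => C.ι) n

/-- the map of words induced by `π` -/
noncomputable def pq (n : ℕ) : HC k A n →ₗ[k] HC k L n := mp k (fun _ => C.π) n

theorem sl_mem {f g : A →ₗ[k] A} {s : ℤ} (hf : ∀ q x y a, a ∈ C.HA q x y → f a ∈ C.HA q x y)
    (hg : ∀ q x y a, a ∈ C.HA q x y → g a ∈ C.HA (q + s) x y) {p : ℕ} {q : ℤ} {z : HC k A p}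
    (hz : z ∈ Cq C.HA p q) : sg f g p z ∈ Cq C.HA p (q + s) := by
  unfold sg
  rw [LinearMap.sum_apply]
  refine Submodule.sum_mem _ fun j hj => ?_
  refine mp_mem (H := C.HA) (s := fun i => if i = j then s else 0) ?_ ?_ hz
  · intro i _ e x y a ha
    rcases lt_trichotomy i j with h | h | h
    · have h2 : ¬ i = j := by omega
      simp only [sl, h, h2, if_true, if_false, add_zero]
      exact hf e x y a ha
    · subst h
      simp only [sl, lt_irrefl, if_true, if_false]
      exact hg e x y a ha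
    · have h2 : ¬ i = j := by omega
      have h3 : ¬ i < j := by omega
      simp only [sl, h3, h2, if_false, add_zero]
      exact ha
  · rw [sum_ite_eq' (range (p + 1)) j (fun _ => s), if_pos hj]

theorem τmem (q : ℤ) (x y : Ω) (a : A) (ha : a ∈ C.HA q x y) : C.τ a ∈ C.HA q x y := by
  rw [C.τA q x y a ha]
  exact Submodule.smul_mem _ _ ha

theorem dq_mem {p : ℕ} {q : ℤ} {z : HC k A p} (hz : z ∈ Cq C.HA p q) :
    C.dq p z ∈ Cq C.HA p (q - 1) :=
  C.sl_mem C.τmem (s := -1) (fun q x y a ha => C.dA q x y a ha) hz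

theorem hq_mem {p : ℕ} {q : ℤ} {z : HC k A p} (hz : z ∈ Cq C.HA p q) :
    C.hq p z ∈ Cq C.HA p (q + 1) :=
  C.sl_mem (fun q x y a ha => C.τmem q x y (C.ι (C.π a)) (C.ιL _ _ _ _ (C.πA _ _ _ _ ha))) C.hA hz

theorem iq_mem {p : ℕ} {q : ℤ} {z : HC k L p} (hz : z ∈ Cq C.HL p q) : C.iq p z ∈ Cq C.HA p q :=
  mp_mem (s := fun _ => 0) (fun i _ e x y a ha => by rw [add_zero]; exact C.ιL e x y a ha)
    (by simp) hz

theorem pq_mem {p : ℕ} {q : ℤ} {z : HC k A p} (hz : z ∈ Cq C.HA p q) : C.pq p z ∈ Cq C.HL p q :=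
  mp_mem (s := fun _ => 0) (fun i _ e x y a ha => by rw [add_zero]; exact C.πA e x y a ha)
    (by simp) hz

theorem dq_iq {p : ℕ} {q : ℤ} {z : HC k L p} (hz : z ∈ Cq C.HL p q) : C.dq p (C.iq p z) = 0 := by
  have h0 : C.dq p (C.iq p z) = (0 : HC k L p →ₗ[k] HC k A p) z := by
    refine Cq_ext (f := C.dq p ∘ₗ C.iq p) ?_ hz
    intro x e a h
    rw [LinearMap.comp_apply, LinearMap.zero_apply]
    unfold dq iq
    rw [mp_tp, sg_tp]
    refine sum_eq_zero fun j hj => ?_
    have hj' : j ≤ p := Nat.lt_succ_iff.1 (mem_range.1 hj)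
    refine tp_zero k j hj' ?_
    simp only [sl, lt_irrefl, if_false, if_true]
    exact C.dι _ _ _ _ (h.mem j hj')
  rw [h0, LinearMap.zero_apply]

theorem pq_dq {p : ℕ} {q : ℤ} {z : HC k A p} (hz : z ∈ Cq C.HA p q) : C.pq p (C.dq p z) = 0 := by
  have h0 : C.pq p (C.dq p z) = (0 : HC k A p →ₗ[k] HC k L p) z := by
    refine Cq_ext (f := C.pq p ∘ₗ C.dq p) ?_ hz
    intro x e a h
    rw [LinearMap.comp_apply, LinearMap.zero_apply]
    unfold dq pq
    rw [sg_tp, map_sum]
    refine sum_eq_zero fun j hj => ?_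
    have hj' : j ≤ p := Nat.lt_succ_iff.1 (mem_range.1 hj)
    rw [mp_tp]
    refine tp_zero k j hj' ?_
    simp only [sl, lt_irrefl, if_false, if_true]
    exact C.πd _ _ _ _ (h.mem j hj')
  rw [h0, LinearMap.zero_apply]

theorem pq_iq {p : ℕ} {q : ℤ} {z : HC k L p} (hz : z ∈ Cq C.HL p q) : C.pq p (C.iq p z) = z := by
  refine Cq_ext (f := C.pq p ∘ₗ C.iq p) (g := LinearMap.id) ?_ hz
  intro x e a h
  rw [LinearMap.comp_apply, LinearMap.id_apply]
  unfold iq pq
  rw [mp_tp, mp_tp]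
  exact tp_congr k fun i hi => C.πι _ _ _ _ (h.mem i hi)

theorem dq_dq [CharZero k] {p : ℕ} {q : ℤ} {z : HC k A p} (hz : z ∈ Cq C.HA p q) :
    C.dq p (C.dq p z) = 0 := by
  have h0 : C.dq p (C.dq p z) + C.dq p (C.dq p z) = (0 : HC k A p →ₗ[k] HC k A p) z := by
    refine Cq_ext (f := C.dq p ∘ₗ C.dq p + C.dq p ∘ₗ C.dq p) ?_ hz
    intro x e a h
    rw [LinearMap.add_apply, LinearMap.comp_apply, LinearMap.zero_apply]
    unfold dq
    rw [sg_anti]
    · refine sum_eq_zero fun j hj => ?_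
      have hj' : j ≤ p := Nat.lt_succ_iff.1 (mem_range.1 hj)
      refine tp_zero k j hj' ?_
      simp only [lt_irrefl, if_false, if_true]
      rw [C.dd _ _ _ _ (h.mem j hj'), add_zero]
    · exact fun i _ => rfl
    · intro i hi
      rw [add_comm]
      exact C.τδ _ _ _ _ (h.mem i hi)
    · intro i hi
      exact C.τδ _ _ _ _ (h.mem i hi)
  rw [LinearMap.zero_apply, ← two_smul k] at h0
  rcases smul_eq_zero.1 h0 with h | h
  · exact absurd h two_ne_zero
  · exact h

/-- the contraction on words -/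
theorem hom_q {p : ℕ} {q : ℤ} {z : HC k A p} (hz : z ∈ Cq C.HA p q) :
    C.dq p (C.hq p z) + C.hq p (C.dq p z) = z - C.iq p (C.pq p z) := by
  refine Cq_ext (f := C.dq p ∘ₗ C.hq p + C.hq p ∘ₗ C.dq p)
    (g := LinearMap.id - C.iq p ∘ₗ C.pq p) ?_ hz
  intro x e a h
  rw [LinearMap.add_apply, LinearMap.comp_apply, LinearMap.comp_apply, LinearMap.sub_apply,
    LinearMap.comp_apply, LinearMap.id_apply]
  have hN : ∀ i, i ≤ p → C.ι (C.π (a i)) ∈ C.HA (e i) (x i) (x (i + 1)) := fun i hi =>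
    C.ιL _ _ _ _ (C.πA _ _ _ _ (h.mem i hi))
  unfold dq hq iq pq
  rw [sg_anti, mp_tp, mp_tp]
  · let T : ℕ → HC k A p := fun j => tp k p fun i => if i < j then C.ι (C.π (a i)) else a i
    have e1 : ∀ j ∈ range (p + 1), (tp k p fun i => if i < j then
        C.τ ((C.τ ∘ₗ C.ι ∘ₗ C.π) (a i)) else if i = j then C.δ (C.h (a i)) + C.h (C.δ (a i))
          else a i) = T j - T (j + 1) := by
      intro j hj
      have hj' : j ≤ p := Nat.lt_succ_iff.1 (mem_range.1 hj)
      rw [eq_sub_iff_add_eq]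
      refine (tp_add k j hj' ?_ ?_).symm
      · intro i hi hij
        rcases lt_trichotomy i j with h1 | h1 | h1
        · have h2 : i < j + 1 := by omega
          simp only [h1, h2, if_true]
          exact ⟨C.ττ _ _ _ _ (hN i hi), trivial⟩
        · exact absurd h1 hij
        · have h2 : ¬ i < j + 1 := by omega
          have h3 : ¬ i < j := by omega
          simp only [h2, h3, hij, if_false]
          exact ⟨trivial, trivial⟩
      · simp only [lt_irrefl, if_false, if_true, Nat.lt_succ_self]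
        rw [C.hom _ _ _ _ (h.mem j hj'), sub_add_cancel]
    have hT0 : T 0 = tp k p a := tp_congr k fun i hi => by simp
    have hT1 : T (p + 1) = tp k p fun i => C.ι (C.π (a i)) := tp_congr k fun i hi => by
      have : i < p + 1 := by omega
      simp only [this, if_true]
    rw [sum_congr rfl e1, sum_range_sub', hT0, hT1]
  · intro i hi
    change C.τ (C.τ (C.ι (C.π (a i)))) = C.τ (C.ι (C.π (C.τ (a i))))
    rw [C.πτ _ _ _ _ (h.mem i hi), C.ισ _ _ _ _ (C.πA _ _ _ _ (h.mem i hi))]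
  · intro i hi
    change C.δ (C.τ (C.ι (C.π (a i)))) + C.τ (C.ι (C.π (C.δ (a i)))) = 0
    have h1 := C.τδ _ _ _ _ (hN i hi)
    rw [C.dι _ _ _ _ (C.πA _ _ _ _ (h.mem i hi)), map_zero, zero_add] at h1
    rw [h1, C.πd _ _ _ _ (h.mem i hi), map_zero, map_zero, add_zero]
  · intro i hi
    exact C.τh _ _ _ _ (h.mem i hi)

/-- `π b ι = b` -/
theorem pbi {p : ℕ} {q r : ℤ} {z : HC k L (p + 1)} (hz : z ∈ Cq C.HL (p + 1) q) :
    C.pq p (bt k (tw C.τ r) p (C.iq (p + 1) z)) = bt k (tw C.σ r) p z := by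
  refine Cq_ext (f := C.pq p ∘ₗ bt k (tw C.τ r) p ∘ₗ C.iq (p + 1)) (g := bt k (tw C.σ r) p) ?_ hz
  intro x e a h
  rw [LinearMap.comp_apply, LinearMap.comp_apply]
  unfold iq pq
  rw [mp_tp, bt_tp, bt_tp, map_sum]
  refine sum_congr rfl fun j hj => ?_
  rw [map_smul, mp_tp]
  congr 1
  refine tp_congr k fun i hi => ?_
  by_cases hj' : j ≤ p
  · simp only [fc, hj', if_true]
    rcases lt_trichotomy i j with h1 | h1 | h1
    · simp only [ct, h1, if_true]
      exact C.πι _ _ _ _ (h.mem i (by omega))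
    · subst h1
      simp only [ct, lt_irrefl, if_true, if_false]
      exact C.mulπ _ _ _ _ _ _ _ (h.mem i (by omega)) (h.mem (i + 1) (by omega))
    · have h2 : ¬ i < j := by omega
      have h3 : ¬ i = j := by omega
      simp only [ct, h2, h3, if_false]
      exact C.πι _ _ _ _ (h.mem (i + 1) (by omega))
  · simp only [fc, hj', if_false]
    rcases Nat.eq_zero_or_pos i with h0 | h0
    · subst h0
      simp only [cyt, if_true]
      have h2 := h.mem (p + 1) le_rfl
      rw [h.cl] at h2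
      have h3 : tw C.τ r (C.ι (a (p + 1))) = C.ι (tw C.σ r (a (p + 1))) := by
        unfold tw
        split_ifs
        · exact (C.ισ _ _ _ _ h2).symm
        · rfl
      rw [h3]
      exact C.mulπ _ _ _ _ _ _ _ (C.tw_L r _ _ _ _ h2) (h.mem 0 (by omega))
    · have h1 : ¬ i = 0 := by omega
      simp only [cyt, h1, if_false]
      exact C.πι _ _ _ _ (h.mem i (by omega))

end Ctx

end Pool.Agent.Helper49.HE
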