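import Pool.Agent.Helper49.HE.Words
import Pool.Agent.Helper49.HE.Core

/-!
# Project HE (MP_e5f486_ag): tensor length zero, internal degree `≠ 0`
-/

set_option autoImplicit false
set_option linter.unusedSectionVars false

open Finset

namespace Pool.Agent.Helper49.HE

open Pool.Agent.Helper44.HD

section ez

variable {k L Ω : Type} [Field k] [CharZero k] [Ring L] [Algebra k L]

/-- the contraction with the degree derivation -/
noncomputable def ie (ε : L →ₗ[k] L) (n : ℕ) : HC k L (n + 1) →ₗ[k] HC k L n :=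
  (ct_coch k n 0 (Nat.zero_le n)).lin ∘ₗ mp k (fun i => if i = 1 then ε else LinearMap.id) (n + 1)

theorem ie_tp (ε : L →ₗ[k] L) (n : ℕ) (a : ℕ → L) : ie ε n (tp k (n + 1) a) =
    tp k n fun i => if i = 0 then a 0 * ε (a 1) else a (i + 1) := by
  unfold ie
  rw [LinearMap.comp_apply, mp_tp, Coch.lin_tp]
  refine tp_congr k fun i _ => ?_
  rcases Nat.eq_zero_or_pos i with h | h
  · subst h
    simp [ct]
  · have h1 : ¬ i = 0 := by omega
    have h2 : ¬ i + 1 = 1 := by omega
    simp [ct, h1]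

theorem tp0 (a : ℕ → L) : tp k 0 a = tp k 0 fun _ => a 0 :=
  tp_congr k fun i hi => by
    obtain rfl : i = 0 := by omega
    rfl

theorem tp1_congr {a b : ℕ → L} (h0 : a 0 = b 0) (h1 : a 1 = b 1) : tp k 1 a = tp k 1 b :=
  tp_congr k fun i hi => by
    rcases Nat.lt_or_ge i 1 with h | h
    · obtain rfl : i = 0 := by omega
      exact h0
    · obtain rfl : i = 1 := by omega
      exact h1

theorem tp0_smul (c : k) (b : L) : tp k 0 (fun _ => c • b) = c • tp k 0 fun _ => b := by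
  rw [tp_smul k 0 (fun _ => c)]
  simp

theorem E0_of_E1 {HL : ℤ → Ω → Ω → Submodule k L} (hm : MulC HL) (σ ε : L →ₗ[k] L)
    (hσ : ∀ q x y a, a ∈ HL q x y → σ a = (-1 : k) ^ q • a)
    (hε : ∀ q x y a, a ∈ HL q x y → ε a = (q : k) • a) (un : Ω → L)
    (hun : ∀ x, un x ∈ HL 0 x x) (hul : ∀ q x y a, a ∈ HL q x y → un x * a = a)
    (hur : ∀ q x y a, a ∈ HL q x y → a * un y = a) {q : ℤ} (hq : q ≠ 0)
    (E1 : ∀ z ∈ Cq HL 1 q, bt k (tw σ q) 0 z = 0 → ∃ w ∈ Cq HL 2 q, bt k (tw σ q) 1 w = z) :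
    ∀ z ∈ Cq HL 0 q, ∃ w ∈ Cq HL 1 q, bt k (tw σ q) 0 w = z := by
  have hα : ∀ e x y a, a ∈ HL e x y → tw σ q a ∈ HL e x y := by
    intro e x y a ha
    unfold tw
    split_ifs
    · rw [hσ e x y a ha]
      exact Submodule.smul_mem _ _ ha
    · exact ha
  have key : ∀ w ∈ Cq HL 2 q, ie ε 0 (bt k (tw σ q) 1 w) = -bt k (tw σ q) 0 (ie ε 1 w) := by
    intro w hw
    refine Cq_ext (f := ie ε 0 ∘ₗ bt k (tw σ q) 1) (g := -(bt k (tw σ q) 0 ∘ₗ ie ε 1)) ?_ hw
    intro x e a h
    rw [LinearMap.neg_apply, LinearMap.comp_apply, LinearMap.comp_apply, ie_tp, bt_tp, bt_tp]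
    have m0 := h.mem 0 (by omega)
    have m1 := h.mem 1 (by omega)
    have m2 := h.mem 2 (by omega)
    have hcl : x 3 = x 0 := h.cl
    have hα2 := hα _ _ _ _ m2
    rw [sum_range_succ, sum_range_succ, sum_range_succ, sum_range_zero, sum_range_succ,
      sum_range_succ, sum_range_zero]
    simp only [map_add, map_smul, ie_tp, map_zero]
    rw [tp0 (fc (tw σ q) 0 0 _), tp0 (fc (tw σ q) 0 1 _)]
    have e0 : tp k 0 (fun i => if i = 0 then fc (tw σ q) 1 0 a 0 * ε (fc (tw σ q) 1 0 a 1)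
        else fc (tw σ q) 1 0 a (i + 1)) = (e 2 : k) • tp k 0 fun _ => a 0 * a 1 * a 2 := by
      rw [tp0]
      simp only [fc, Nat.zero_le, if_true, ct, lt_irrefl, if_false, zero_add]
      have : ¬ 1 < 0 := by omega
      have h1 : ¬ (1 : ℕ) = 0 := by omega
      simp only [this, h1, if_false, Nat.reduceAdd]
      rw [hε _ _ _ _ m2, mul_smul_comm, tp0_smul]
    have e1 : tp k 0 (fun i => if i = 0 then fc (tw σ q) 1 1 a 0 * ε (fc (tw σ q) 1 1 a 1)
        else fc (tw σ q) 1 1 a (i + 1)) = ((e 1 + e 2 : ℤ) : k) • tp k 0 fun _ => a 0 * a 1 * a 2 := by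
      rw [tp0]
      have h0 : (0 : ℕ) < 1 := by omega
      simp only [fc, le_refl, if_true, ct, lt_irrefl, if_false, h0, Nat.reduceAdd]
      rw [hε _ _ _ _ (hm _ _ _ _ _ _ _ m1 m2), mul_smul_comm, tp0_smul, mul_assoc]
    have e2 : tp k 0 (fun i => if i = 0 then fc (tw σ q) 1 2 a 0 * ε (fc (tw σ q) 1 2 a 1)
        else fc (tw σ q) 1 2 a (i + 1)) = (e 1 : k) • tp k 0 fun _ => tw σ q (a 2) * a 0 * a 1 := by
      rw [tp0]
      have h0 : ¬ (2 : ℕ) ≤ 1 := by omega
      have h1 : ¬ (1 : ℕ) = 0 := by omega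
      simp only [fc, h0, if_false, if_true, cyt, h1, Nat.reduceAdd]
      rw [hε _ _ _ _ m1, mul_smul_comm, tp0_smul]
    rw [e0, e1, e2]
    have f0 : fc (tw σ q) 0 0 (fun i => if i = 0 then a 0 * ε (a 1) else a (i + 1)) 0 =
        (e 1 : k) • (a 0 * a 1 * a 2) := by
      have h1 : ¬ (1 : ℕ) = 0 := by omega
      simp only [fc, le_refl, if_true, ct, lt_irrefl, if_false, zero_add, h1, Nat.reduceAdd]
      rw [hε _ _ _ _ m1, mul_smul_comm, smul_mul_assoc]
    have f1 : fc (tw σ q) 0 1 (fun i => if i = 0 then a 0 * ε (a 1) else a (i + 1)) 0 =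
        (e 1 : k) • (tw σ q (a 2) * a 0 * a 1) := by
      have h0 : ¬ (1 : ℕ) ≤ 0 := by omega
      have h1 : ¬ (1 : ℕ) = 0 := by omega
      simp only [fc, h0, if_false, cyt, if_true, zero_add, h1, Nat.reduceAdd]
      rw [hε _ _ _ _ m1, mul_smul_comm, mul_smul_comm, mul_assoc]
    rw [f0, f1, tp0_smul, tp0_smul, Int.cast_add]
    module
  intro z hz
  refine Cq_ind (P := fun z => ∃ w ∈ Cq HL 1 q, bt k (tw σ q) 0 w = z) ?_ ?_ ?_ ?_ hz
  · intro x e a h
    have m0 := h.mem 0 le_rfl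
    have hcl : x 1 = x 0 := h.cl
    have hdeg : e 0 = q := by
      have := h.deg
      simpa using this
    rw [zero_add, hcl, hdeg] at m0
    have htw : tw σ q (a 0) = a 0 := by
      unfold tw
      split_ifs with hev
      · rw [hσ _ _ _ _ m0, npow_even k hev, one_smul]
      · rfl
    obtain ⟨u, hu⟩ : ∃ u : ℕ → L, u = fun i => if i = 0 then un (x 0) else a 0 := ⟨_, rfl⟩
    have hW : IsW HL 1 q (fun _ => x 0) (fun i => if i = 0 then 0 else q) u := by
      refine ⟨fun i hi => ?_, rfl, ?_⟩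
      · rw [hu]
        by_cases h0 : i = 0
        · simp only [h0, if_true]
          exact hun _
        · simp only [h0, if_false]
          exact m0
      · simp [sum_range_succ]
    have hb : bt k (tw σ q) 0 (tp k 1 u) = 0 := by
      rw [bt_tp, sum_range_succ, sum_range_succ, sum_range_zero, tp0 (fc _ 0 0 _),
        tp0 (fc _ 0 1 _)]
      have f0 : fc (tw σ q) 0 0 u 0 = a 0 := by
        rw [hu]
        simp [fc, ct, hul _ _ _ _ m0]
      have f1 : fc (tw σ q) 0 1 u 0 = a 0 := by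
        rw [hu]
        simp [fc, cyt, htw, hur _ _ _ _ m0]
      rw [f0, f1]
      simp
    obtain ⟨w, hw, hw2⟩ := E1 _ hW.in_Cq hb
    have h1 := key w hw
    rw [hw2, ie_tp, tp0] at h1
    have h2 : (if (0 : ℕ) = 0 then u 0 * ε (u 1) else u (0 + 1)) = (q : k) • a 0 := by
      rw [hu]
      simp only [if_true]
      have h3 : ¬ (1 : ℕ) = 0 := by omega
      simp only [h3, if_false]
      rw [hε _ _ _ _ m0, mul_smul_comm, hul _ _ _ _ m0]
    rw [h2, tp0_smul] at h1
    have hq' : (q : k) ≠ 0 := by exact_mod_cast hq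
    refine ⟨-((q : k)⁻¹ • ie ε 1 w), ?_, ?_⟩
    · refine neg_mem (Submodule.smul_mem _ _ ?_)
      refine Cq_map (f := ie ε 1) ?_ hw
      intro x e a h
      rw [ie_tp]
      have m0 := h.mem 0 (by omega)
      have m1 := h.mem 1 (by omega)
      have m2 := h.mem 2 (by omega)
      have hcl : x 3 = x 0 := h.cl
      have hd := h.deg
      rw [sum_range_succ, sum_range_succ, sum_range_succ, sum_range_zero] at hd
      refine IsW.in_Cq (x := fun i => if i = 0 then x 0 else x (i + 1))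
        (e := fun i => if i = 0 then e 0 + e 1 else e (i + 1)) ⟨fun i hi => ?_, ?_, ?_⟩
      · by_cases h0 : i = 0
        · subst h0
          have h3 : ¬ (0 : ℕ) + 1 = 0 := by omega
          simp only [if_true, h3, if_false]
          refine hm _ _ _ _ _ _ _ m0 ?_
          rw [hε _ _ _ _ m1]
          exact Submodule.smul_mem _ _ m1
        · obtain rfl : i = 1 := by omega
          have h3 : ¬ (1 : ℕ) + 1 = 0 := by omega
          simp only [h0, if_false, h3]
          exact m2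
      · have h3 : ¬ (1 : ℕ) + 1 = 0 := by omega
        simp only [h3, if_false, if_true]
        exact hcl
      · rw [sum_range_succ, sum_range_succ, sum_range_zero]
        have h3 : ¬ (1 : ℕ) = 0 := by omega
        simp only [h3, if_false, if_true]
        omega
    · rw [map_neg, map_smul, ← smul_neg, ← h1, smul_smul, inv_mul_cancel₀ hq', one_smul]
      exact (tp0 a).symm
  · exact ⟨0, zero_mem _, map_zero _⟩
  · rintro z z' ⟨w, hw, rfl⟩ ⟨w', hw', rfl⟩
    exact ⟨w + w', add_mem hw hw', map_add _ _ _⟩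
  · rintro c z ⟨w, hw, rfl⟩
    exact ⟨c • w, Submodule.smul_mem _ _ hw, map_smul _ _ _⟩

end ez

end Pool.Agent.Helper49.HE
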