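import Pool.Agent.Helper49.HE.StepD
import Pool.Agent.Helper49.HE.EZ
import Pool.Agent.Helper44.HD.All

/-!
# Project HE (MP_e5f486_ag): exactness for the homology category
-/

set_option autoImplicit false
set_option linter.unusedSectionVars false

open Finset

namespace Pool.Agent.Helper49.HE

open Pool.Agent.Helper44.HD Pool.Agent.Helper1.HD

section e1

variable (k G R : Type) [Field k] [CharZero k] [Group G] [Ring R] [Algebra k R]
  [MulSemiringAction G R] [SMulCommClass G k R] (D : RedGroup k G)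

/-- untwisted exactness -/
def UE : Prop := ∀ (p : ℕ), ∀ z ∈ Cyc R D (p + 1), bc k (Amb D R) p z = 0 →
  ∃ w ∈ Cyc R D (p + 2), bc k (Amb D R) (p + 1) w = z

open CategoryTheory in
theorem ue (hrat : RatR D R)
    (hfg : (⊤ : Subalgebra k R).FG) (hcen : Module.Finite (Subalgebra.center k R) R)
    (hsm : ∃ n : ℕ, HasProjectiveDimensionLT (ModuleCat.of (Gam k R) (RBi R)) n)
    (hprop : PropR D R) : UE k G R D := by
  have hN := at_all k R hfg hcen
  have hP : FinPD k R := by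
    obtain ⟨n, hn⟩ := hsm
    exact gb_all k R n (hasProjectiveDimensionLT_of_ge _ n (n + 1) (by omega))
  exact fun p z hz hb => ca_all k G R D hrat hprop hN hP p z hz hb

variable (𝓡 : ℤ → Submodule k R) [GradedAlgebra 𝓡]

variable {k G R D}

theorem E1_of_UE [MulSemiringAction (G × ℤˣ) R] [SMulCommClass (G × ℤˣ) k R]
    (hG : ∀ (g : G) q, ∀ a ∈ 𝓡 q, g • a ∈ 𝓡 q) (hC : PmC (G := G) 𝓡)
    (h0 : UE k G R D) (h1 : UE k (G × ℤˣ) R (pm D)) (p : ℕ) (q : ℤ)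
    (z : HC k (Amb D R) (p + 1)) (hz : z ∈ Cq (k := k) (A := Amb D R) (homq 𝓡) (p + 1) q)
    (hb : bt k (tw (lft (D := D) (par (k := k) 𝓡)) q) p z = 0) :
    ∃ w ∈ Cq (k := k) (A := Amb D R) (homq 𝓡) (p + 2) q,
      bt k (tw (lft (D := D) (par (k := k) 𝓡)) q) (p + 1) w = z := by
  by_cases hq : Even q
  · have e : tw (k := k) (A := Amb D R) (lft (par (k := k) 𝓡)) q = lft (par (k := k) 𝓡) := by
      unfold tw
      rw [if_pos hq]
    rw [e] at hb ⊢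
    obtain ⟨w0, hw0, hw⟩ := stepB 𝓡 hG hC h1 hq hz hb
    have hα : ∀ q x y a, a ∈ homq (D := D) 𝓡 q x y →
        lft (D := D) (par (k := k) 𝓡) a ∈ homq (D := D) 𝓡 q x y := by
      intro q x y a ha
      unfold par
      rw [lft_wt 𝓡 _ ha]
      exact Submodule.smul_mem _ _ ha
    have h3 := stepC 𝓡 hG hα hw0 (q := q)
    rw [hw] at h3
    exact h3 hz
  · have e : tw (k := k) (A := Amb D R) (lft (par (k := k) 𝓡)) q = LinearMap.id := by
      unfold tw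
      rw [if_neg hq]
    rw [e] at hb ⊢
    rw [bt_id] at hb ⊢
    obtain ⟨w0, hw0, hw⟩ := h0 p z (Cq_Cyc 𝓡 hz) hb
    have h3 := stepC 𝓡 hG (α := LinearMap.id) (fun _ _ _ _ ha => ha) hw0 (q := q)
    rw [bt_id, hw] at h3
    exact h3 hz

open CategoryTheory in
/-- exactness for a graded algebra -/
theorem E1_gr (hG : ∀ (g : G) q, ∀ a ∈ 𝓡 q, g • a ∈ 𝓡 q) (hrat : RatR D R)
    (hfg : (⊤ : Subalgebra k R).FG) (hcen : Module.Finite (Subalgebra.center k R) R)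
    (hsm : ∃ n : ℕ, HasProjectiveDimensionLT (ModuleCat.of (Gam k R) (RBi R)) n)
    (hprop : PropR D R) (p : ℕ) (q : ℤ)
    (z : HC k (Amb D R) (p + 1)) (hz : z ∈ Cq (k := k) (A := Amb D R) (homq 𝓡) (p + 1) q)
    (hb : bt k (tw (lft (D := D) (par (k := k) 𝓡)) q) p z = 0) :
    ∃ w ∈ Cq (k := k) (A := Amb D R) (homq 𝓡) (p + 2) q,
      bt k (tw (lft (D := D) (par (k := k) 𝓡)) q) (p + 1) w = z := by
  have h0 : UE k G R D := ue k G R D hrat hfg hcen hsm hprop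
  let i1 : MulSemiringAction (G × ℤˣ) R := pmAct 𝓡 hG
  have i2 : SMulCommClass (G × ℤˣ) k R := pm_comm 𝓡 hG
  have hC : PmC (G := G) 𝓡 := fun g ε a => rfl
  exact E1_of_UE 𝓡 hG hC h0
    (ue k (G × ℤˣ) R (pm D) (pm_rat 𝓡 hC hrat) hfg hcen hsm (pm_prop 𝓡 hC hprop)) p q z hz hb

/-- the degree zero part of the exactness -/
theorem E0_gr (E1 : ∀ (p : ℕ) (q : ℤ), ∀ z ∈ Cq (k := k) (A := Amb D R) (homq 𝓡) (p + 1) q,
      bt k (tw (lft (D := D) (par (k := k) 𝓡)) q) p z = 0 →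
      ∃ w ∈ Cq (k := k) (A := Amb D R) (homq 𝓡) (p + 2) q,
        bt k (tw (lft (D := D) (par (k := k) 𝓡)) q) (p + 1) w = z) {q : ℤ} (hq : q ≠ 0) :
    ∀ z ∈ Cq (k := k) (A := Amb D R) (homq 𝓡) 0 q,
      ∃ w ∈ Cq (k := k) (A := Amb D R) (homq 𝓡) 1 q,
        bt k (tw (lft (D := D) (par (k := k) 𝓡)) q) 0 w = z := by
  have h := E0_of_E1 (k := k) (L := Amb D R) (Ω := Ob D) (HL := homq 𝓡) (mulC_homq 𝓡)
    (lft (par (k := k) 𝓡)) (lft (wt 𝓡 fun q => (q : k))) (fun q x y a ha => lft_wt 𝓡 _ ha)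
    (fun q x y a ha => lft_wt 𝓡 _ ha) (un D R) (un_mem 𝓡) (fun q x y a ha => un_mul 𝓡 ha)
    (fun q x y a ha => mul_un 𝓡 ha) hq
  exact h (E1 0 q)

end e1

end Pool.Agent.Helper49.HE
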