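import Pool.Agent.Helper49.HE.Core
import Pool.Agent.Helper44.HD.BC

/-!
# Project HE (MP_e5f486_ag): the graded category of the modules `R ⊗ V`
-/

set_option autoImplicit false
set_option linter.unusedSectionVars false

open Finset

namespace Pool.Agent.Helper49.HE

open Pool.Agent.Helper44.HD

/-! ## Weight operators of a graded algebra -/

section wt

variable {k R : Type} [Field k] [Ring R] [Algebra k R] (𝓡 : ℤ → Submodule k R) [GradedAlgebra 𝓡]

/-- the operator with the value `c q` on `𝓡 q` -/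
noncomputable def wt (c : ℤ → k) : R →ₗ[k] R :=
  DirectSum.toModule k ℤ R (fun q => c q • (𝓡 q).subtype) ∘ₗ
    (DirectSum.decomposeLinearEquiv 𝓡).toLinearMap

theorem wt_apply (c : ℤ → k) {q : ℤ} {a : R} (ha : a ∈ 𝓡 q) : wt 𝓡 c a = c q • a := by
  unfold wt
  rw [LinearMap.comp_apply]
  change DirectSum.toModule k ℤ R _ (DirectSum.decompose 𝓡 a) = _
  rw [DirectSum.decompose_of_mem 𝓡 ha]
  exact DirectSum.toModule_lof k q _

/-- two linear maps which agree on homogeneous elements are equal -/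
theorem gr_ext {M : Type} [AddCommGroup M] [Module k M] {f g : R →ₗ[k] M}
    (h : ∀ q, ∀ a ∈ 𝓡 q, f a = g a) (a : R) : f a = g a := by
  induction a using DirectSum.Decomposition.inductionOn 𝓡 with
  | zero => rw [map_zero, map_zero]
  | homogeneous m => exact h _ _ m.2
  | add m m' h1 h2 => rw [map_add, map_add, h1, h2]

theorem wt_mul (c : ℤ → k) (hc : ∀ q q', c (q + q') = c q * c q') (a b : R) :
    wt 𝓡 c (a * b) = wt 𝓡 c a * wt 𝓡 c b := by
  have h1 := gr_ext 𝓡 (f := wt 𝓡 c ∘ₗ LinearMap.mulRight k b)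
    (g := LinearMap.mulRight k (wt 𝓡 c b) ∘ₗ wt 𝓡 c) (fun q a ha => by
      have h2 := gr_ext 𝓡 (f := wt 𝓡 c ∘ₗ LinearMap.mulLeft k a)
        (g := LinearMap.mulLeft k (wt 𝓡 c a) ∘ₗ wt 𝓡 c) (fun q' b hb => by
          change wt 𝓡 c (a * b) = wt 𝓡 c a * wt 𝓡 c b
          rw [wt_apply 𝓡 c ha, wt_apply 𝓡 c hb, wt_apply 𝓡 c (SetLike.mul_mem_graded ha hb), hc,
            smul_mul_smul_comm]) b
      exact h2) a
  exact h1

theorem wt_comp (c c' : ℤ → k) (a : R) : wt 𝓡 c (wt 𝓡 c' a) = wt 𝓡 (fun q => c q * c' q) a :=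
  gr_ext 𝓡 (f := wt 𝓡 c ∘ₗ wt 𝓡 c') (g := wt 𝓡 fun q => c q * c' q) (fun q a ha => by
    rw [LinearMap.comp_apply, wt_apply 𝓡 c' ha, map_smul, wt_apply 𝓡 c ha,
      wt_apply 𝓡 (fun q => c q * c' q) ha, smul_smul, mul_comm]) a

theorem wt_one' (a : R) : wt 𝓡 (fun _ => (1 : k)) a = a :=
  gr_ext 𝓡 (f := wt 𝓡 fun _ => (1 : k)) (g := LinearMap.id) (fun q a ha => by
    rw [wt_apply 𝓡 (fun _ => (1 : k)) ha, one_smul]
    rfl) a

theorem wt_comm (c : ℤ → k) (f : R →ₗ[k] R) (hf : ∀ q, ∀ a ∈ 𝓡 q, f a ∈ 𝓡 q) (a : R) :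
    wt 𝓡 c (f a) = f (wt 𝓡 c a) :=
  gr_ext 𝓡 (f := wt 𝓡 c ∘ₗ f) (g := f ∘ₗ wt 𝓡 c) (fun q a ha => by
    rw [LinearMap.comp_apply, LinearMap.comp_apply, wt_apply 𝓡 c ha, map_smul,
      wt_apply 𝓡 c (hf q a ha)]) a

theorem wt_mem (c : ℤ → k) {q : ℤ} {a : R} (ha : a ∈ 𝓡 q) : wt 𝓡 c a ∈ 𝓡 q := by
  rw [wt_apply 𝓡 c ha]
  exact Submodule.smul_mem _ _ ha

/-- a homogeneous component -/
noncomputable def hc (q : ℤ) : R →ₗ[k] R := wt 𝓡 fun s => if s = q then 1 else 0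

theorem hc_mem (q : ℤ) (a : R) : hc 𝓡 q a ∈ 𝓡 q := by
  induction a using DirectSum.Decomposition.inductionOn 𝓡 with
  | zero =>
    rw [map_zero]
    exact zero_mem _
  | @homogeneous s m =>
    unfold hc
    rw [wt_apply 𝓡 _ m.2]
    by_cases h : s = q
    · subst h
      rw [if_pos rfl, one_smul]
      exact m.2
    · rw [if_neg h, zero_smul]
      exact zero_mem _
  | add m m' h1 h2 =>
    rw [map_add]
    exact add_mem h1 h2

theorem exists_hc (a : R) : ∃ S : Finset ℤ, ∀ T : Finset ℤ, S ⊆ T → ∑ q ∈ T, hc 𝓡 q a = a := by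
  classical
  induction a using DirectSum.Decomposition.inductionOn 𝓡 with
  | zero => exact ⟨∅, fun T _ => by simp⟩
  | @homogeneous s m =>
    refine ⟨{s}, fun T hT => ?_⟩
    rw [sum_eq_single s]
    · unfold hc
      rw [wt_apply 𝓡 _ m.2, if_pos rfl, one_smul]
    · intro q _ hq
      unfold hc
      rw [wt_apply 𝓡 _ m.2, if_neg (Ne.symm hq), zero_smul]
    · intro h
      exact absurd (hT (mem_singleton_self s)) h
  | add m m' h1 h2 =>
    obtain ⟨S, hS⟩ := h1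
    obtain ⟨S', hS'⟩ := h2
    refine ⟨S ∪ S', fun T hT => ?_⟩
    simp only [map_add, sum_add_distrib]
    rw [hS T (union_subset_left hT), hS' T (union_subset_right hT)]

end wt

/-! ## Linear maps on the matrix entries -/

section lft

variable {k G : Type} [Field k] [Group G] {D : RedGroup k G}
variable {R R' R'' : Type} [Ring R] [Algebra k R] [Ring R'] [Algebra k R'] [Ring R''] [Algebra k R'']

/-- the column `j` of `f`, mapped by `θ`, times a scalar on the right -/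
noncomputable def lf0 (θ : R →ₗ[k] R') (f : Amb D R) (j : Ix D) : R' →ₗ[k] (Ix D →₀ R') where
  toFun c := Finsupp.mapRange.linearMap (LinearMap.mulRight k c ∘ₗ θ) (f (Finsupp.single j 1))
  map_add' := by
    intro c c'
    ext i
    simp [mul_add]
  map_smul' := by
    intro a c
    ext i
    simp

theorem lf0_apply (θ : R →ₗ[k] R') (f : Amb D R) (j i : Ix D) (c : R') :
    lf0 θ f j c i = θ ((f (Finsupp.single j 1)) i) * c := rfl

/-- apply `θ` to the matrix entries -/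
noncomputable def lft (θ : R →ₗ[k] R') : Amb D R →ₗ[k] Amb D R' where
  toFun f := Finsupp.lsum k (lf0 θ f)
  map_add' f g := by
    apply Finsupp.lhom_ext
    intro j c
    apply Finsupp.ext
    intro i
    rw [LinearMap.add_apply, Finsupp.add_apply, Finsupp.lsum_single, Finsupp.lsum_single,
      Finsupp.lsum_single, lf0_apply, lf0_apply, lf0_apply, LinearMap.add_apply, Finsupp.add_apply,
      map_add, add_mul]
  map_smul' a f := by
    apply Finsupp.lhom_ext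
    intro j c
    apply Finsupp.ext
    intro i
    rw [LinearMap.smul_apply, Finsupp.smul_apply, Finsupp.lsum_single, Finsupp.lsum_single,
      lf0_apply, lf0_apply, LinearMap.smul_apply, Finsupp.smul_apply, map_smul, RingHom.id_apply,
      smul_mul_assoc]

theorem lft_single (θ : R →ₗ[k] R') (f : Amb D R) (j i : Ix D) (c : R') :
    (lft θ f : Amb D R') (Finsupp.single j c) i = θ ((f (Finsupp.single j 1)) i) * c := by
  change (Finsupp.lsum k (lf0 θ f) (Finsupp.single j c)) i = _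
  rw [Finsupp.lsum_single, lf0_apply]

theorem lft_em (θ : R →ₗ[k] R') (x y : Ob D) (P : Matrix (Fin x.1) (Fin y.1) R) :
    lft θ (em x y P : Amb D R) = em x y (P.map θ) := by
  apply Finsupp.lhom_ext
  rintro ⟨z, l⟩ c
  apply Finsupp.ext
  intro i
  rw [lft_single]
  by_cases h : z = y
  · subst h
    rw [em_single, em_single, Finsupp.finsetSum_apply, Finsupp.finsetSum_apply, map_sum, sum_mul]
    refine sum_congr rfl fun m _ => ?_
    by_cases h2 : i = ⟨x, m⟩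
    · subst h2
      rw [Finsupp.single_eq_same, Finsupp.single_eq_same, mul_one, Matrix.map_apply]
    · rw [Finsupp.single_eq_of_ne h2, Finsupp.single_eq_of_ne h2, map_zero, zero_mul]
  · rw [em_single_ne _ _ _ _ h, em_single_ne _ _ _ _ h]
    simp

end lft

/-! ## Homogeneous morphisms -/

section homq

variable {k G : Type} [Field k] [Group G] {D : RedGroup k G}
variable {R : Type} [Ring R] [Algebra k R] (𝓡 : ℤ → Submodule k R)

/-- matrices with entries of degree `q` -/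
def Eq (q : ℤ) (x y : Ob D) : Submodule k (Matrix (Fin x.1) (Fin y.1) R) where
  carrier := {P | ∀ i j, P i j ∈ 𝓡 q}
  zero_mem' := fun _ _ => zero_mem _
  add_mem' := fun ha hb i j => add_mem (ha i j) (hb i j)
  smul_mem' := fun c _ ha i j => Submodule.smul_mem _ c (ha i j)

variable [MulSemiringAction G R] [SMulCommClass G k R]

/-- the morphisms `R ⊗ y → R ⊗ x` of degree `q` -/
noncomputable def homq (q : ℤ) (x y : Ob D) : Submodule k (Amb D R) :=
  (Hm R y.2 x.2 ⊓ Eq 𝓡 q x y).map (em x y)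

theorem mem_homq {q : ℤ} {x y : Ob D} {a : Amb D R} : a ∈ homq 𝓡 q x y ↔
    ∃ P : Matrix (Fin x.1) (Fin y.1) R, P ∈ Hm R y.2 x.2 ∧ (∀ i j, P i j ∈ 𝓡 q) ∧ em x y P = a := by
  constructor
  · rintro ⟨P, ⟨h1, h2⟩, rfl⟩
    exact ⟨P, h1, h2, rfl⟩
  · rintro ⟨P, h1, h2, rfl⟩
    exact ⟨P, ⟨h1, h2⟩, rfl⟩

theorem homq_hom {q : ℤ} {x y : Ob D} {a : Amb D R} (h : a ∈ homq 𝓡 q x y) : a ∈ hom R x y := by
  obtain ⟨P, h1, _, rfl⟩ := (mem_homq 𝓡).1 h
  exact ⟨P, h1, rfl⟩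

theorem mulC_homq [SetLike.GradedMonoid 𝓡] :
    MulC (k := k) (A := Amb D R) (Ω := Ob D) (homq 𝓡) := by
  intro q q' x y z a b ha hb
  obtain ⟨A, h1, h2, rfl⟩ := (mem_homq 𝓡).1 ha
  obtain ⟨B, h3, h4, rfl⟩ := (mem_homq 𝓡).1 hb
  refine (mem_homq 𝓡).2 ⟨A * B, Hm_mul h1 h3, fun i j => ?_, (em_mul x y z A B).symm⟩
  rw [Matrix.mul_apply]
  exact Submodule.sum_mem _ fun l _ => SetLike.mul_mem_graded (h2 i l) (h4 l j)

/-- entrywise maps preserve the equivariant matrices -/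
theorem map_Hm {R' : Type} [Ring R'] [Algebra k R'] [MulSemiringAction G R'] [SMulCommClass G k R']
    (θ : R →ₗ[k] R') (hθ : ∀ (g : G) a, θ (g • a) = g • θ a) {v w : Type} [Fintype v]
    [DecidableEq v] [Fintype w] [DecidableEq w] {V : MRep D v} {W : MRep D w} {P : Matrix w v R}
    (hP : P ∈ Hm R V W) : P.map θ ∈ Hm R' V W := by
  intro g i j
  have h1 := congrArg θ (hP g i j)
  rw [map_sum, map_sum] at h1
  simp only [map_smul, hθ] at h1
  exact h1

theorem lft_homq {R' : Type} [Ring R'] [Algebra k R'] [MulSemiringAction G R']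
    [SMulCommClass G k R'] (𝓡' : ℤ → Submodule k R')
    (θ : R →ₗ[k] R') (hθ : ∀ (g : G) a, θ (g • a) = g • θ a) {q q' : ℤ}
    (hq : ∀ a ∈ 𝓡 q, θ a ∈ 𝓡' q') {x y : Ob D} {a : Amb D R} (ha : a ∈ homq 𝓡 q x y) :
    lft θ a ∈ homq 𝓡' q' x y := by
  obtain ⟨P, h1, h2, rfl⟩ := (mem_homq 𝓡).1 ha
  refine (mem_homq 𝓡').2 ⟨P.map θ, map_Hm θ hθ h1, fun i j => hq _ (h2 i j), (lft_em θ x y P).symm⟩

/-- equality of entrywise maps on homogeneous morphisms -/
theorem lft_congr {R' : Type} [Ring R'] [Algebra k R'] {θ θ' : R →ₗ[k] R'} {q : ℤ}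
    (h : ∀ a ∈ 𝓡 q, θ a = θ' a) {x y : Ob D} {a : Amb D R} (ha : a ∈ homq 𝓡 q x y) :
    lft (D := D) θ a = lft θ' a := by
  obtain ⟨P, _, h2, rfl⟩ := (mem_homq 𝓡).1 ha
  rw [lft_em, lft_em]
  congr 1
  ext i j
  exact h _ (h2 i j)

theorem lft_wt [GradedAlgebra 𝓡] (c : ℤ → k) {q : ℤ} {x y : Ob D} {a : Amb D R}
    (ha : a ∈ homq 𝓡 q x y) : lft (D := D) (wt 𝓡 c) a = c q • a := by
  obtain ⟨P, _, h2, rfl⟩ := (mem_homq 𝓡).1 ha
  rw [lft_em, ← map_smul]
  congr 1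
  ext i j
  exact wt_apply 𝓡 c (h2 i j)

omit [MulSemiringAction G R] [SMulCommClass G k R] in
theorem lft_id (x y : Ob D) (P : Matrix (Fin x.1) (Fin y.1) R) :
    lft (LinearMap.id : R →ₗ[k] R) (em x y P : Amb D R) = em x y P := by
  rw [lft_em]
  congr 1

/-- the identity of the object `x` -/
noncomputable def un (D : RedGroup k G) (R : Type) [Ring R] [Algebra k R] (x : Ob D) : Amb D R :=
  em x x 1

theorem un_mem [SetLike.GradedMonoid 𝓡] (x : Ob D) : un D R x ∈ homq 𝓡 0 x x := by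
  refine (mem_homq 𝓡).2 ⟨1, (EE R x.2).one_mem, fun i j => ?_, rfl⟩
  rw [Matrix.one_apply]
  split_ifs
  · exact SetLike.GradedOne.one_mem
  · exact zero_mem _

theorem un_mul {q : ℤ} {x y : Ob D} {a : Amb D R} (ha : a ∈ homq 𝓡 q x y) : un D R x * a = a := by
  obtain ⟨P, _, _, rfl⟩ := (mem_homq 𝓡).1 ha
  unfold un
  rw [em_mul, Matrix.one_mul]

theorem mul_un {q : ℤ} {x y : Ob D} {a : Amb D R} (ha : a ∈ homq 𝓡 q x y) : a * un D R y = a := by
  obtain ⟨P, _, _, rfl⟩ := (mem_homq 𝓡).1 ha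
  unfold un
  rw [em_mul, Matrix.mul_one]

/-- every morphism is a finite sum of homogeneous ones -/
theorem hom_sum [GradedAlgebra 𝓡] (hG : ∀ (g : G) q, ∀ a ∈ 𝓡 q, g • a ∈ 𝓡 q) {x y : Ob D}
    {a : Amb D R} (ha : a ∈ hom R x y) :
    ∃ (S : Finset ℤ) (f : ℤ → Amb D R), (∀ q, f q ∈ homq 𝓡 q x y) ∧ ∑ q ∈ S, f q = a := by
  classical
  obtain ⟨P, hP, rfl⟩ := ha
  choose S hS using fun i j => exists_hc 𝓡 (P i j)
  refine ⟨univ.biUnion fun i => univ.biUnion fun j => S i j, fun q => em x y (P.map (hc 𝓡 q)),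
    fun q => ?_, ?_⟩
  · refine (mem_homq 𝓡).2 ⟨_, map_Hm (hc 𝓡 q) (fun g a => ?_) hP, fun i j => hc_mem 𝓡 q _, rfl⟩
    exact wt_comm 𝓡 _ (DistribSMul.toLinearMap k R g) (fun q a ha => hG g q a ha) a
  · rw [← map_sum]
    congr 1
    ext i j
    rw [Matrix.sum_apply]
    refine hS i j _ ?_
    intro s hs
    exact mem_biUnion.2 ⟨i, mem_univ _, mem_biUnion.2 ⟨j, mem_univ _, hs⟩⟩

end homq

end Pool.Agent.Helper49.HE
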