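import Pool.Agent.Helper49.HE.Split
import Pool.Agent.Helper44.HD.BasicQ

/-!
# Project HE (MP_e5f486_ag): the group `G × {1, -1}` and its action on a graded algebra
-/

set_option autoImplicit false
set_option linter.unusedSectionVars false

open Finset

namespace Pool.Agent.Helper49.HE

open Pool.Agent.Helper44.HD

section pm

variable {k G : Type} [Field k] [Group G]

/-- the reductive structure of `G × {1, -1}` -/
noncomputable def pm [CharZero k] (D : RedGroup k G) : RedGroup k (G × ℤˣ) where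
  O :=
    { carrier := {F | ∀ ε : ℤˣ, (fun g => F (g, ε)) ∈ D.O}
      mul_mem' := fun ha hb ε => D.O.mul_mem (ha ε) (hb ε)
      add_mem' := fun ha hb ε => D.O.add_mem (ha ε) (hb ε)
      algebraMap_mem' := fun c _ => D.O.algebraMap_mem c }
  inv_mem := fun F hF ε => by
    have h := D.inv_mem _ (hF ε⁻¹)
    exact h
  left_mem := fun F hF h ε => D.left_mem _ (hF (h.2 * ε)) h.1
  I :=
    { toFun := fun F => (2 : k)⁻¹ * (D.I (fun g => F (g, 1)) + D.I fun g => F (g, -1))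
      map_add' := by
        intro a b
        have e : ∀ ε : ℤˣ, D.I (fun g => (a + b) (g, ε)) =
            D.I (fun g => a (g, ε)) + D.I fun g => b (g, ε) := fun ε => by
          rw [← map_add]
          rfl
        rw [e, e]
        ring
      map_smul' := by
        intro c a
        have e : ∀ ε : ℤˣ, D.I (fun g => (c • a) (g, ε)) = c * D.I (fun g => a (g, ε)) := fun ε => by
          rw [← smul_eq_mul, ← map_smul]
          rfl
        rw [e, e, RingHom.id_apply, smul_eq_mul]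
        ring }
  I_one := by
    change (2 : k)⁻¹ * (D.I (fun _ => 1) + D.I fun _ => 1) = 1
    rw [D.I_one]
    norm_num
  I_left := by
    intro F hF h
    change (2 : k)⁻¹ * (D.I (fun g => F (h * (g, 1))) + D.I fun g => F (h * (g, -1))) =
      (2 : k)⁻¹ * (D.I (fun g => F (g, 1)) + D.I fun g => F (g, -1))
    have e : ∀ ε : ℤˣ, D.I (fun g => F (h * (g, ε))) = D.I fun g => F (g, h.2 * ε) := fun ε =>
      D.I_left _ (hF (h.2 * ε)) h.1
    rw [e, e]
    rcases Int.units_eq_one_or h.2 with h2 | h2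
    · rw [h2, one_mul, one_mul]
    · rw [h2]
      simp only [mul_one, mul_neg, neg_neg]
      rw [add_comm]

theorem mem_pmO [CharZero k] {D : RedGroup k G} {F : G × ℤˣ → k} :
    F ∈ (pm D).O ↔ ∀ ε : ℤˣ, (fun g => F (g, ε)) ∈ D.O := Iff.rfl

variable {R : Type} [Ring R] [Algebra k R] (𝓡 : ℤ → Submodule k R) [GradedAlgebra 𝓡]

/-- the operator `a ↦ ε ^ |a| a` -/
noncomputable def sgo (ε : ℤˣ) : R →ₗ[k] R := wt 𝓡 fun q => ((ε : ℤ) : k) ^ q

theorem eps_ne (k : Type) [Field k] (ε : ℤˣ) : ((ε : ℤ) : k) ≠ 0 := by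
  rcases Int.units_eq_one_or ε with h | h <;> rw [h] <;> simp

theorem sgo_mul (ε : ℤˣ) (a b : R) : sgo 𝓡 ε (a * b) = sgo 𝓡 ε a * sgo 𝓡 ε b :=
  wt_mul 𝓡 _ (fun q q' => zpow_add₀ (eps_ne k ε) q q') a b

theorem sgo_one (ε : ℤˣ) : sgo (k := k) 𝓡 ε (1 : R) = 1 := by
  unfold sgo
  rw [wt_apply 𝓡 _ (SetLike.GradedOne.one_mem (A := 𝓡)), zpow_zero, one_smul]

theorem sgo_id (a : R) : sgo (k := k) 𝓡 1 a = a := by
  unfold sgo
  have : (fun q : ℤ => (((1 : ℤˣ) : ℤ) : k) ^ q) = fun _ => 1 := by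
    funext q
    simp
  rw [this]
  exact wt_one' 𝓡 a

theorem sgo_sgo (ε η : ℤˣ) (a : R) : sgo (k := k) 𝓡 (ε * η) a = sgo 𝓡 ε (sgo 𝓡 η a) := by
  unfold sgo
  rw [wt_comp]
  congr 2
  funext q
  push_cast
  rw [mul_zpow]

/-- the parity automorphism -/
theorem sgo_par : sgo (k := k) 𝓡 (-1) = wt 𝓡 fun q => (-1 : k) ^ q := by
  unfold sgo
  congr 1
  funext q
  simp

variable [MulSemiringAction G R] [SMulCommClass G k R]

theorem wt_smul (hG : ∀ (g : G) q, ∀ a ∈ 𝓡 q, g • a ∈ 𝓡 q) (c : ℤ → k) (g : G) (a : R) :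
    wt 𝓡 c (g • a) = g • wt 𝓡 c a :=
  wt_comm 𝓡 c (DistribSMul.toLinearMap k R g) (fun q a ha => hG g q a ha) a

/-- the action of `G × {1, -1}`, `-1` acting by the parity automorphism -/
noncomputable def pmAct (hG : ∀ (g : G) q, ∀ a ∈ 𝓡 q, g • a ∈ 𝓡 q) :
    MulSemiringAction (G × ℤˣ) R where
  smul p a := p.1 • sgo 𝓡 p.2 a
  one_smul a := by
    change (1 : G) • sgo 𝓡 1 a = a
    rw [one_smul, sgo_id]
  mul_smul p p' a := by
    change (p.1 * p'.1) • sgo 𝓡 (p.2 * p'.2) a = p.1 • sgo 𝓡 p.2 (p'.1 • sgo 𝓡 p'.2 a)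
    rw [mul_smul, sgo_sgo]
    unfold sgo
    rw [wt_smul 𝓡 hG]
  smul_zero p := by
    change p.1 • sgo 𝓡 p.2 0 = 0
    rw [map_zero, smul_zero]
  smul_add p a b := by
    change p.1 • sgo 𝓡 p.2 (a + b) = p.1 • sgo 𝓡 p.2 a + p.1 • sgo 𝓡 p.2 b
    rw [map_add, smul_add]
  smul_one p := by
    change p.1 • sgo 𝓡 p.2 1 = 1
    rw [sgo_one, smul_one]
  smul_mul p a b := by
    change p.1 • sgo 𝓡 p.2 (a * b) = (p.1 • sgo 𝓡 p.2 a) * (p.1 • sgo 𝓡 p.2 b)
    rw [sgo_mul, smul_mul']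

/-- `G × {1, -1}` acts as `G` times the parity -/
def PmC [MulSemiringAction (G × ℤˣ) R] : Prop :=
  ∀ (g : G) (ε : ℤˣ) (a : R), ((g, ε) : G × ℤˣ) • a = g • sgo 𝓡 ε a

theorem pm_comm (hG : ∀ (g : G) q, ∀ a ∈ 𝓡 q, g • a ∈ 𝓡 q) :
    @SMulCommClass (G × ℤˣ) k R (pmAct 𝓡 hG).toDistribMulAction.toMulAction.toSMul _ :=
  @SMulCommClass.mk (G × ℤˣ) k R (pmAct 𝓡 hG).toDistribMulAction.toMulAction.toSMul _
    fun p c a => by
      change p.1 • sgo 𝓡 p.2 (c • a) = c • (p.1 • sgo 𝓡 p.2 a)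
      rw [map_smul, smul_comm]

/-- rationality for `G × {1, -1}` -/
theorem pm_rat [CharZero k] {D : RedGroup k G} [MulSemiringAction (G × ℤˣ) R]
    (hC : PmC (G := G) 𝓡) (hr : RatR D R) : RatR (pm D) R := by
  intro r
  have h1 : ∀ ε : ℤˣ, (fun p : G × ℤˣ => (if p.2 = ε then (1 : k) else 0) •
      (p.1 • sgo 𝓡 ε r)) ∈ (pm D).RF R := by
    intro ε
    refine RF_ind D (p := fun F => (fun p : G × ℤˣ => (if p.2 = ε then (1 : k) else 0) • F p.1) ∈
      (pm D).RF R) ?_ ?_ ?_ (hr (sgo 𝓡 ε r))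
    · intro f hf m
      refine Submodule.subset_span ⟨fun p => (if p.2 = ε then (1 : k) else 0) * f p.1, ?_, m, ?_⟩
      · intro η
        by_cases h : η = ε
        · simp only [h, if_true, one_mul]
          exact hf
        · simp only [h, if_false, zero_mul]
          exact D.O.zero_mem
      · funext p
        rw [smul_smul]
    · simp only [Pi.zero_apply, smul_zero]
      exact zero_mem _
    · intro F F' h h'
      simp only [Pi.add_apply, smul_add]
      exact add_mem h h'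
  have h2 : (fun p : G × ℤˣ => p • r) = (fun p : G × ℤˣ => (if p.2 = 1 then (1 : k) else 0) •
      (p.1 • sgo 𝓡 1 r)) + fun p : G × ℤˣ => (if p.2 = -1 then (1 : k) else 0) •
      (p.1 • sgo 𝓡 (-1) r) := by
    funext p
    rw [Pi.add_apply]
    rcases p with ⟨g, ε⟩
    rw [hC g ε r]
    have h3 : ¬ ((1 : ℤˣ) = -1) := by decide
    have h4 : ¬ ((-1 : ℤˣ) = 1) := by decide
    rcases Int.units_eq_one_or ε with h | h
    · subst h
      simp only [if_true, h3, if_false, one_smul, zero_smul, add_zero]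
    · subst h
      simp only [if_true, h4, if_false, one_smul, zero_smul, zero_add]
  rw [h2]
  exact add_mem (h1 1) (h1 (-1))

/-- restriction of a representation of `G × {1, -1}` to `G` -/
def rs [CharZero k] {D : RedGroup k G} {w : Type} [Fintype w] [DecidableEq w] (W : MRep (pm D) w) :
    MRep D w where
  m g := W.m (g, 1)
  one := W.one
  mul g h := by
    rw [← W.mul]
    simp
  rat i j := W.rat i j 1

theorem rs_Hm [CharZero k] {D : RedGroup k G} [MulSemiringAction (G × ℤˣ) R]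
    [SMulCommClass (G × ℤˣ) k R] (hC : PmC (G := G) 𝓡)
    {v w : Type} [Fintype v] [DecidableEq v] [Fintype w] [DecidableEq w] {V : MRep (pm D) v}
    {W : MRep (pm D) w} {P : Matrix w v R} (hP : P ∈ Hm R V W) : P ∈ Hm R (rs V) (rs W) := by
  intro g i j
  have h := hP (g, 1) i j
  simp only [hC g 1, sgo_id] at h
  exact h

/-- properness for `G × {1, -1}` -/
theorem pm_prop [CharZero k] {D : RedGroup k G} [MulSemiringAction (G × ℤˣ) R]
    [SMulCommClass (G × ℤˣ) k R] (hC : PmC (G := G) 𝓡) (hp : PropR D R) : PropR (pm D) R := by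
  intro w _ _ W
  have := hp w (rs W)
  let f : EE R W →ₗ[k] EE R (rs W) :=
    { toFun := fun P => ⟨P.1, rs_Hm 𝓡 hC P.2⟩
      map_add' := fun _ _ => rfl
      map_smul' := fun _ _ => rfl }
  exact FiniteDimensional.of_injective f fun P Q h =>
    Subtype.ext (congrArg (fun X : EE R (rs W) => X.1) h)

end pm

end Pool.Agent.Helper49.HE
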