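import Pool.Agent.Helper49.HE.Comm

/-!
# Project HE (MP_e5f486_ag): the boundaries of words with explicit signs
-/

set_option autoImplicit false
set_option linter.unusedSectionVars false

open Finset

namespace Pool.Agent.Helper49.HE

open Pool.Agent.Helper44.HD

/-! ### The boundaries of words with explicit signs -/

section wsign

variable {k A Ω : Type} [Field k] [Ring A] [Algebra k A]

theorem tw_sign {H : ℤ → Ω → Ω → Submodule k A} {τ : A →ₗ[k] A}
    (hτ : ∀ q x y a, a ∈ H q x y → τ a = (-1 : k) ^ q • a) (q : ℤ) {e : ℤ} {x y : Ω} {a : A}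
    (ha : a ∈ H e x y) : tw τ q a = (-1 : k) ^ (e * (q - e)) • a := by
  unfold tw
  by_cases hq : Even q
  · rw [if_pos hq, hτ e x y a ha]
    congr 1
    refine npow_congr k ?_
    have h1 : e - e * (q - e) = e * (e + 1) - e * q := by ring
    rw [h1]
    exact (Int.even_mul_succ_self e).sub (hq.mul_left e)
  · rw [if_neg hq, LinearMap.id_apply]
    have h2 : Even (e * (q - e)) := by
      have h3 : Odd q := Int.not_even_iff_odd.1 hq
      have h1 : e * (q - e) = e * (q + 1) - e * (e + 1) := by ring
      rw [h1]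
      exact (h3.add_one.mul_left e).sub (Int.even_mul_succ_self e)
    rw [npow_even k h2, one_smul]

theorem bt_word {H : ℤ → Ω → Ω → Submodule k A} {τ : A →ₗ[k] A}
    (hτ : ∀ q x y a, a ∈ H q x y → τ a = (-1 : k) ^ q • a) {p : ℕ} {q : ℤ} {x : ℕ → Ω}
    {e : ℕ → ℤ} {a : ℕ → A} (h : IsW H (p + 1) q x e a) :
    bt k (tw τ q) p (tp k (p + 1) a) = ∑ j ∈ range (p + 1), (-1 : k) ^ j • tp k p (ct j a) +
      (-1 : k) ^ (p + 1) • (-1 : k) ^ (e (p + 1) * ∑ i ∈ range (p + 1), e i) •
        tp k p (cy (p + 1) a) := by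
  rw [bt_tp, sum_range_succ]
  congr 1
  · refine sum_congr rfl fun j hj => ?_
    have hj' : j ≤ p := Nat.lt_succ_iff.1 (mem_range.1 hj)
    simp only [fc, hj', if_true]
  · have h1 : ¬ p + 1 ≤ p := by omega
    simp only [fc, h1, if_false]
    congr 1
    have hsum : ∑ i ∈ range (p + 1), e i = q - e (p + 1) := by
      have := h.deg
      rw [sum_range_succ] at this
      omega
    rw [hsum]
    have h2 := tw_sign hτ q (h.mem (p + 1) le_rfl)
    have e1 : tp k p (cyt (tw τ q) (p + 1) a) = tp k p fun i =>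
        (if i = 0 then (-1 : k) ^ (e (p + 1) * (q - e (p + 1))) else 1) • cy (p + 1) a i := by
      refine tp_congr k fun i hi => ?_
      by_cases h0 : i = 0
      · subst h0
        simp only [cyt, cy, if_true]
        rw [h2, smul_mul_assoc]
      · simp only [cyt, cy, h0, if_false, one_smul]
    rw [e1, tp_smul, prod_ite_eq' (range (p + 1)) 0
      (fun _ => (-1 : k) ^ (e (p + 1) * (q - e (p + 1)))), if_pos (by simp)]

theorem sg_word {H : ℤ → Ω → Ω → Submodule k A} {τ δ : A →ₗ[k] A}
    (hτ : ∀ q x y a, a ∈ H q x y → τ a = (-1 : k) ^ q • a) {p : ℕ} {q : ℤ} {x : ℕ → Ω}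
    {e : ℕ → ℤ} {a : ℕ → A} (h : IsW H p q x e a) :
    sg τ δ p (tp k p a) = ∑ j ∈ range (p + 1), (-1 : k) ^ (∑ i ∈ range j, e i) •
      tp k p (Function.update a j (δ (a j))) := by
  rw [sg_tp]
  refine sum_congr rfl fun j hj => ?_
  have hj' : j < p + 1 := mem_range.1 hj
  have e1 : tp k p (fun i => sl τ δ j i (a i)) = tp k p fun i =>
      (if i < j then (-1 : k) ^ e i else 1) • Function.update a j (δ (a j)) i := by
    refine tp_congr k fun i hi => ?_
    rcases lt_trichotomy i j with h1 | h1 | h1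
    · rw [Function.update_of_ne h1.ne]
      simp only [sl, h1, if_true]
      exact hτ _ _ _ _ (h.mem i hi)
    · subst h1
      rw [Function.update_self]
      simp only [sl, lt_irrefl, if_false, if_true, one_smul]
    · have h2 : ¬ i < j := by omega
      have h3 : ¬ i = j := by omega
      rw [Function.update_of_ne h3]
      simp only [sl, h2, h3, if_false, one_smul]
      rfl
  rw [e1, tp_smul, ← npow_prod k e j]
  congr 1
  rw [← prod_filter]
  congr 1
  ext i
  simp only [mem_filter, mem_range]
  omega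

end wsign

end Pool.Agent.Helper49.HE
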