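import Pool.Agent.Helper49.HE.GrCat

/-!
# Project HE (MP_e5f486_ag): the decomposition by internal degree
-/

set_option autoImplicit false
set_option linter.unusedSectionVars false

open Finset

namespace Pool.Agent.Helper49.HE

open Pool.Agent.Helper44.HD

theorem zpow_prod' {k : Type} [Field k] {b : k} (hb : b ≠ 0) (e : ℕ → ℤ) (n : ℕ) :
    ∏ i ∈ range n, b ^ e i = b ^ ∑ i ∈ range n, e i := by
  induction n with
  | zero => simp
  | succ n ih => rw [prod_range_succ, sum_range_succ, ih, zpow_add₀ hb]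

theorem ind_two {k M : Type} [Field k] [CharZero k] [AddCommGroup M] [Module k M] (T : M →ₗ[k] M)
    (S : Finset ℤ) : ∀ u : ℤ → M, (∀ s ∈ S, T (u s) = (2 : k) ^ s • u s) → ∑ s ∈ S, u s = 0 →
      ∀ s ∈ S, u s = 0 := by
  classical
  induction S using Finset.induction_on with
  | empty => exact fun u _ _ s hs => absurd hs (notMem_empty s)
  | insert a S ha ih =>
    intro u hT hs
    rw [sum_insert ha] at hs
    have h1 : ∀ s ∈ S, ((2 : k) ^ s - (2 : k) ^ a) • u s = 0 := by
      refine ih (fun s => ((2 : k) ^ s - (2 : k) ^ a) • u s) ?_ ?_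
      · intro s hs
        rw [map_smul, hT s (mem_insert_of_mem hs), smul_comm]
      · have h2 := congrArg T hs
        rw [map_add, map_sum, map_zero, hT a (mem_insert_self a S),
          sum_congr rfl fun s hs => hT s (mem_insert_of_mem hs)] at h2
        have h3 : (2 : k) ^ a • (u a + ∑ s ∈ S, u s) = 0 := by rw [hs, smul_zero]
        rw [smul_add, smul_sum] at h3
        simp only [sub_smul, sum_sub_distrib]
        have h4 := sub_eq_zero.2 (h2.trans h3.symm)
        rw [← h4]
        abel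
    have h2 : ∀ s ∈ S, u s = 0 := by
      intro s hs
      rcases smul_eq_zero.1 (h1 s hs) with h | h
      · exfalso
        have h3 : (2 : k) ^ s = (2 : k) ^ a := sub_eq_zero.1 h
        have h4 : (2 : k) ^ (s - a) = 1 := by
          rw [zpow_sub₀ two_ne_zero, h3, div_self (zpow_ne_zero _ two_ne_zero)]
        have h5 : s ≠ a := fun e => ha (e ▸ hs)
        have h6 : ∀ n : ℕ, n ≠ 0 → (2 : k) ^ n ≠ 1 := by
          intro n hn h
          have h7 : ((2 ^ n : ℕ) : k) = ((1 : ℕ) : k) := by push_cast; exact h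
          have h8 := Nat.cast_injective h7
          exact absurd h8 (Nat.one_lt_two_pow hn).ne'
        rcases Int.lt_or_gt_of_ne h5 with h7 | h7
        · obtain ⟨n, hn⟩ := Int.eq_ofNat_of_zero_le (show 0 ≤ a - s by omega)
          have h8 : s - a = -(n : ℤ) := by omega
          rw [h8, zpow_neg, zpow_natCast, inv_eq_one] at h4
          exact h6 n (by omega) h4
        · obtain ⟨n, hn⟩ := Int.eq_ofNat_of_zero_le (show 0 ≤ s - a by omega)
          rw [hn, zpow_natCast] at h4
          exact h6 n (by omega) h4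
      · exact h
    intro s hs'
    rcases mem_insert.1 hs' with rfl | h
    · rw [sum_eq_zero h2, add_zero] at hs
      exact hs
    · exact h2 s h

section gen

variable {k A Ω : Type} [Field k] [Ring A] [Algebra k A]

theorem wd_iSup (H : ℤ → Ω → Ω → Submodule k A) (H0 : Ω → Ω → Submodule k A)
    (hH : ∀ q x y a, a ∈ H q x y → a ∈ H0 x y) (hs : ∀ x y a, a ∈ H0 x y → ∃ (S : Finset ℤ) (f : ℤ → A), (∀ q, f q ∈ H q x y) ∧
      ∑ q ∈ S, f q = a) {n : ℕ} {z : HC k A n} (hz : z ∈ Submodule.span k {z | ∃ (x : ℕ → Ω)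
        (a : ℕ → A), (∀ i, i ≤ n → a i ∈ H0 (x i) (x (i + 1))) ∧ x (n + 1) = x 0 ∧
          z = tp k n a}) : z ∈ ⨆ s : ℤ, Cq H n s := by
  have key : ∀ (x : ℕ → Ω), x (n + 1) = x 0 → ∀ (d : ℕ) (a : ℕ → A) (e : ℕ → ℤ),
      (∀ i, i ≤ n → i + d < n + 1 → a i ∈ H (e i) (x i) (x (i + 1))) →
      (∀ i, i ≤ n → a i ∈ H0 (x i) (x (i + 1))) →
      tp k n a ∈ ⨆ s : ℤ, Cq H n s := by
    intro x hx d
    induction d with
    | zero =>
      intro a e h1 _
      have hW : IsW H n (∑ i ∈ range (n + 1), e i) x e a :=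
        ⟨fun i hi => h1 i hi (by omega), hx, rfl⟩
      exact Submodule.mem_iSup_of_mem _ hW.in_Cq
    | succ d ih =>
      intro a e h1 h2
      rcases Nat.lt_or_ge n d with h | h
      · exact ih a e (fun i hi hd => by omega) h2
      · obtain ⟨m, hm⟩ : ∃ m, n = d + m := Nat.exists_eq_add_of_le h
        have hmn : m ≤ n := by omega
        obtain ⟨S, f, hf, hS⟩ := hs _ _ _ (h2 m hmn)
        have e1 : a = Function.update a m (∑ q ∈ S, f q) := by
          rw [hS, Function.update_eq_self]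
        have e2 : tp k n a = ∑ q ∈ S, tp k n (Function.update a m (f q)) := by
          conv_lhs => rw [e1]
          exact (tp_coch k n).update_sum a m hmn S f
        rw [e2]
        refine Submodule.sum_mem _ fun q _ => ?_
        refine ih (Function.update a m (f q)) (Function.update e m q) ?_ ?_
        · intro i hi hd
          by_cases him : i = m
          · subst him
            rw [Function.update_self, Function.update_self]
            exact hf q
          · rw [Function.update_of_ne him, Function.update_of_ne him]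
            exact h1 i hi (by omega)
        · intro i hi
          by_cases him : i = m
          · subst him
            rw [Function.update_self]
            exact hH _ _ _ _ (hf q)
          · rw [Function.update_of_ne him]
            exact h2 i hi
  refine Submodule.span_induction (p := fun z _ => z ∈ ⨆ s : ℤ, Cq H n s) ?_ (zero_mem _)
    (fun _ _ _ _ => add_mem) (fun c _ _ => Submodule.smul_mem _ c) hz
  rintro _ ⟨x, a, h1, h2, rfl⟩
  exact key x h2 (n + 1) a (fun _ => 0) (fun i hi hd => by omega) h1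

/-- the operator with eigenvalue `2 ^ s` on the words of degree `s` -/
theorem T2_Cq {H : ℤ → Ω → Ω → Submodule k A} [CharZero k] {τ : A →ₗ[k] A}
    (hτ : ∀ q x y a, a ∈ H q x y → τ a = (2 : k) ^ q • a) {n : ℕ} {s : ℤ} {z : HC k A n}
    (hz : z ∈ Cq H n s) : mp k (fun _ => τ) n z = (2 : k) ^ s • z := by
  refine Cq_ext (f := mp k (fun _ => τ) n) (g := (2 : k) ^ s • LinearMap.id) ?_ hz
  intro x e a h
  rw [LinearMap.smul_apply, LinearMap.id_apply, mp_tp, ← h.deg, ← zpow_prod' two_ne_zero, ← tp_smul]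
  exact tp_congr k fun i hi => hτ _ _ _ _ (h.mem i hi)

/-- replace a primitive by its component of the right degree -/
theorem stepG [CharZero k] {H : ℤ → Ω → Ω → Submodule k A} {H0 : Ω → Ω → Submodule k A}
    (hm : MulC H) (hH : ∀ q x y a, a ∈ H q x y → a ∈ H0 x y)
    (hs : ∀ x y a, a ∈ H0 x y → ∃ (S : Finset ℤ) (f : ℤ → A), (∀ q, f q ∈ H q x y) ∧
      ∑ q ∈ S, f q = a) {τ : A →ₗ[k] A} (hτ : ∀ q x y a, a ∈ H q x y → τ a = (2 : k) ^ q • a)
    {α : A →ₗ[k] A} (hα : ∀ q x y a, a ∈ H q x y → α a ∈ H q x y) {p : ℕ} {q : ℤ}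
    {w0 : HC k A (p + 1)} (hw0 : w0 ∈ Submodule.span k {z | ∃ (x : ℕ → Ω)
        (a : ℕ → A), (∀ i, i ≤ p + 1 → a i ∈ H0 (x i) (x (i + 1))) ∧ x (p + 1 + 1) = x 0 ∧
          z = tp k (p + 1) a}) (hz : bt k α p w0 ∈ Cq H p q) :
    ∃ w ∈ Cq H (p + 1) q, bt k α p w = bt k α p w0 := by
  classical
  obtain ⟨f, hf, hs'⟩ := (Submodule.mem_iSup_iff_exists_finsupp _ _).1 (wd_iSup H H0 hH hs hw0)
  have hs' : ∑ s ∈ insert q f.support, f s = w0 := by
    rw [← hs']
    unfold Finsupp.sum
    refine (sum_subset (subset_insert q f.support) ?_).symm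
    intro s _ h
    exact Finsupp.notMem_support_iff.1 h
  refine ⟨f q, hf q, ?_⟩
  have h1 := ind_two (k := k) (mp k (fun _ => τ) p) (insert q f.support)
    (fun s => bt k α p (f s) - if s = q then bt k α p w0 else 0) ?_ ?_ q (mem_insert_self _ _)
  · simp only [if_true] at h1
    exact sub_eq_zero.1 h1
  · intro s _
    rw [map_sub, T2_Cq hτ (bt_mem hm hα (hf s)), smul_sub]
    congr 1
    by_cases h : s = q
    · subst h
      simp only [if_true]
      exact T2_Cq hτ hz
    · simp only [h, if_false, map_zero, smul_zero]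
  · rw [sum_sub_distrib, ← map_sum, hs', sum_ite_eq' (insert q f.support) q,
      if_pos (mem_insert_self _ _), sub_self]

end gen

section split

variable {k G : Type} [Field k] [Group G] {D : RedGroup k G}
variable {R : Type} [Ring R] [Algebra k R] (𝓡 : ℤ → Submodule k R)
variable [MulSemiringAction G R] [SMulCommClass G k R]

theorem Cq_Cyc {n : ℕ} {q : ℤ} {z : HC k (Amb D R) n} (hz : z ∈ Cq (homq 𝓡) n q) :
    z ∈ Cyc R D n := by
  refine Cq_ind (P := fun z => z ∈ Cyc R D n) ?_ (zero_mem _) (fun _ _ => add_mem)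
    (fun c _ => Submodule.smul_mem _ c) hz
  intro x e a h
  exact Submodule.subset_span ⟨x, a, fun i hi => homq_hom 𝓡 (h.mem i hi), h.cl, rfl⟩

variable [GradedAlgebra 𝓡]

variable [CharZero k]

/-- replace a primitive by its component of the right degree -/
theorem stepC (hG : ∀ (g : G) q, ∀ a ∈ 𝓡 q, g • a ∈ 𝓡 q) {α : Amb D R →ₗ[k] Amb D R}
    (hα : ∀ q x y a, a ∈ homq 𝓡 q x y → α a ∈ homq 𝓡 q x y) {p : ℕ} {q : ℤ}
    {w0 : HC k (Amb D R) (p + 1)} (hw0 : w0 ∈ Cyc R D (p + 1))
    (hz : bt k α p w0 ∈ Cq (homq 𝓡) p q) :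
    ∃ w ∈ Cq (k := k) (A := Amb D R) (homq 𝓡) (p + 1) q, bt k α p w = bt k α p w0 := by
  have h := stepG (k := k) (A := Amb D R) (Ω := Ob D) (H := homq 𝓡) (H0 := hom R) (mulC_homq 𝓡)
    (fun _ _ _ _ => homq_hom 𝓡) (fun _ _ _ ha => hom_sum 𝓡 hG ha)
    (τ := lft (wt 𝓡 fun q => (2 : k) ^ q)) (fun q x y a ha => lft_wt 𝓡 _ ha) (α := α) hα (p := p)
    (q := q) (w0 := w0)
  exact h hw0 hz

end split

end Pool.Agent.Helper49.HE
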