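import Pool.Agent.Helper49.HE.UpDn

/-!
# Project HE (MP_e5f486_ag): the twisted category from the category for `G × {1, -1}`
-/

set_option autoImplicit false
set_option linter.unusedSectionVars false

open Finset

namespace Pool.Agent.Helper49.HE

open Pool.Agent.Helper44.HD Pool.Agent.Helper1.HD

section blk

variable {k G : Type} [Field k] [Group G] {D : RedGroup k G} {R : Type} [Ring R] [Algebra k R]

/-- the block `(x, y)` -/
noncomputable def blk (x y : Ob D) : Amb D R →ₗ[k] Matrix (Fin x.1) (Fin y.1) R where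
  toFun f := fun i j => (f (Finsupp.single (⟨y, j⟩ : Ix D) 1)) (⟨x, i⟩ : Ix D)
  map_add' _ _ := rfl
  map_smul' _ _ := rfl

theorem blk_apply (x y : Ob D) (f : Amb D R) (i : Fin x.1) (j : Fin y.1) :
    blk x y f i j = (f (Finsupp.single (⟨y, j⟩ : Ix D) 1)) (⟨x, i⟩ : Ix D) := rfl

theorem blk_em (x y : Ob D) (P : Matrix (Fin x.1) (Fin y.1) R) :
    blk x y (em x y P : Amb D R) = P := by
  ext i j
  rw [blk_apply, em_single, Finsupp.finsetSum_apply, sum_eq_single i]
  · rw [Finsupp.single_eq_same, mul_one]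
  · intro l _ hl
    refine Finsupp.single_eq_of_ne ?_
    intro h
    apply hl
    simpa using h.symm
  · intro h
    exact absurd (mem_univ i) h

theorem blk_em_l {x y x' y' : Ob D} (h : x' ≠ x) (P : Matrix (Fin x.1) (Fin y.1) R) :
    blk x' y' (em x y P : Amb D R) = 0 := by
  ext i j
  rw [blk_apply, em_ap', Finsupp.finsetSum_apply]
  refine sum_eq_zero fun l _ => ?_
  rw [Finsupp.finsetSum_apply]
  refine sum_eq_zero fun m _ => ?_
  refine Finsupp.single_eq_of_ne ?_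
  intro h'
  exact h (congrArg Sigma.fst h')

theorem blk_em_r {x y x' y' : Ob D} (h : y' ≠ y) (P : Matrix (Fin x.1) (Fin y.1) R) :
    blk x' y' (em x y P : Amb D R) = 0 := by
  ext i j
  rw [blk_apply, em_single_ne _ _ _ _ h]
  rfl

theorem blk_blk {x y z x' z' : Ob D} (P : Matrix (Fin x.1) (Fin y.1) R)
    (Q : Matrix (Fin y.1) (Fin z.1) R) : blk x' y (em x y P : Amb D R) *
      blk y z' (em y z Q : Amb D R) = blk x' z' (em x y P * em y z Q : Amb D R) := by
  rw [em_mul]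
  by_cases h1 : x' = x
  · by_cases h2 : z' = z
    · subst h1
      subst h2
      rw [blk_em, blk_em, blk_em]
    · rw [blk_em_r h2, blk_em_r h2, Matrix.mul_zero]
  · rw [blk_em_l h1, blk_em_l h1, Matrix.zero_mul]

end blk

section down

variable {k G : Type} [Field k] [Group G] [CharZero k] {D : RedGroup k G}
variable {R : Type} [Ring R] [Algebra k R]

/-- the action of `-1` -/
noncomputable def sgm (R : Type) [Ring R] [Algebra k R] (x : Ob (pm D)) :
    Matrix (Fin x.1) (Fin x.1) R := (x.2.m (1, -1)).map (algebraMap k R)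

/-- the slots `1, 2, ..` of the map from `G × {1, -1}` to `G` -/
noncomputable def Kd (x y : Ob (pm D)) : Amb (pm D) R →ₗ[k] Amb D R :=
  (em (dn x) (dn y) : Matrix (Fin x.1) (Fin y.1) R →ₗ[k] Amb D R) ∘ₗ blk x y

/-- multiplication with `-1` on the left -/
noncomputable def sgL (x y : Ob (pm D)) : Matrix (Fin x.1) (Fin y.1) R →ₗ[k]
    Matrix (Fin x.1) (Fin y.1) R where
  toFun P := sgm R x * P
  map_add' _ _ := Matrix.mul_add _ _ _
  map_smul' _ _ := Matrix.mul_smul _ _ _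

/-- the slot `0` -/
noncomputable def Ld (x y : Ob (pm D)) : Amb (pm D) R →ₗ[k] Amb D R :=
  (em (dn x) (dn y) : Matrix (Fin x.1) (Fin y.1) R →ₗ[k] Amb D R) ∘ₗ sgL x y ∘ₗ blk x y

theorem Kd_apply (x y : Ob (pm D)) (a : Amb (pm D) R) :
    Kd x y a = em (dn x) (dn y) (blk x y a) := rfl

theorem Ld_apply (x y : Ob (pm D)) (a : Amb (pm D) R) :
    Ld x y a = em (dn x) (dn y) (sgm R x * blk x y a) := rfl

theorem emd_mul (x y z : Ob (pm D)) (P : Matrix (Fin x.1) (Fin y.1) R)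
    (Q : Matrix (Fin y.1) (Fin z.1) R) :
    (em (dn x) (dn y) P : Amb D R) * em (dn y) (dn z) Q = em (dn x) (dn z) (P * Q) :=
  em_mul (dn x) (dn y) (dn z) P Q

theorem Kd_Kd {T : Finset (Ob (pm D))} {x z : Ob (pm D)} {y : {u // u ∈ T}}
    (P : Matrix (Fin x.1) (Fin y.1.1) R) (Q : Matrix (Fin y.1.1) (Fin z.1) R)
    (i l : Ob (pm D)) : ∑ m : {u // u ∈ T}, Kd i m.1 (em x y.1 P) * Kd m.1 l (em y.1 z Q) =
      Kd i l (em x y.1 P * em y.1 z Q) := by
  rw [sum_eq_single y]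
  · rw [Kd_apply, Kd_apply, Kd_apply, emd_mul, blk_blk]
  · intro m _ hm
    have h : m.1 ≠ y.1 := fun h => hm (Subtype.ext h)
    rw [Kd_apply, blk_em_r h]
    change em (dn i) (dn m.1) (0 : Matrix (Fin (dn i).1) (Fin (dn m.1).1) R) * _ = 0
    rw [map_zero, zero_mul]
  · intro h
    exact absurd (mem_univ y) h

theorem Ld_Kd {T : Finset (Ob (pm D))} {x z : Ob (pm D)} {y : {u // u ∈ T}}
    (P : Matrix (Fin x.1) (Fin y.1.1) R) (Q : Matrix (Fin y.1.1) (Fin z.1) R)
    (i l : Ob (pm D)) : ∑ m : {u // u ∈ T}, Ld i m.1 (em x y.1 P) * Kd m.1 l (em y.1 z Q) =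
      Ld i l (em x y.1 P * em y.1 z Q) := by
  rw [sum_eq_single y]
  · rw [Ld_apply, Kd_apply, Ld_apply, emd_mul, Matrix.mul_assoc, blk_blk]
  · intro m _ hm
    have h : m.1 ≠ y.1 := fun h => hm (Subtype.ext h)
    rw [Ld_apply, blk_em_r h, Matrix.mul_zero]
    change em (dn i) (dn m.1) (0 : Matrix (Fin (dn i).1) (Fin (dn m.1).1) R) * _ = 0
    rw [map_zero, zero_mul]
  · intro h
    exact absurd (mem_univ y) h

variable (𝓡 : ℤ → Submodule k R) [GradedAlgebra 𝓡]
variable [MulSemiringAction G R] [SMulCommClass G k R]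
variable [MulSemiringAction (G × ℤˣ) R] [SMulCommClass (G × ℤˣ) k R]

theorem par_par (a : R) : par (k := k) 𝓡 (par (k := k) 𝓡 a) = a := by
  unfold par
  rw [wt_comp]
  have h : (fun q : ℤ => (-1 : k) ^ q * (-1 : k) ^ q) = fun _ => 1 := by
    funext q
    rw [← mul_zpow]
    simp
  rw [h]
  exact wt_one' 𝓡 a

theorem sgm_par (hC : PmC (G := G) 𝓡) {x y : Ob (pm D)} {P : Matrix (Fin x.1) (Fin y.1) R}
    (hP : P ∈ Hm R y.2 x.2) : P.map (par (k := k) 𝓡) * sgm R y = sgm R x * P := by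
  ext i j
  have h1 := hP (1, -1) i j
  have h2 : ∀ r : R, ((1, -1) : G × ℤˣ) • r = par (k := k) 𝓡 r := by
    intro r
    rw [hC 1 (-1), one_smul, sgo_par]
    rfl
  simp only [h2] at h1
  have h3 := congrArg (par (k := k) 𝓡) h1
  rw [map_sum, map_sum] at h3
  simp only [map_smul, par_par] at h3
  rw [Matrix.mul_apply, Matrix.mul_apply]
  unfold sgm
  simp only [Matrix.map_apply]
  have h4 : ∀ l, par (k := k) 𝓡 (P i l) * algebraMap k R (y.2.m (1, -1) l j) =
      y.2.m (1, -1) l j • par (k := k) 𝓡 (P i l) := fun l => by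
    rw [Algebra.smul_def, Algebra.commutes]
  have h5 : ∀ l, algebraMap k R (x.2.m (1, -1) i l) * P l j = x.2.m (1, -1) i l • P l j := fun l =>
    (Algebra.smul_def _ _).symm
  simp only [h4, h5]
  exact h3.symm

theorem Kd_Ld (hC : PmC (G := G) 𝓡) {T : Finset (Ob (pm D))} {x z : Ob (pm D)} {y : {u // u ∈ T}}
    {P : Matrix (Fin x.1) (Fin y.1.1) R} (hP : P ∈ Hm R y.1.2 x.2)
    (Q : Matrix (Fin y.1.1) (Fin z.1) R) (i l : Ob (pm D)) :
    ∑ m : {u // u ∈ T}, lft (par (k := k) 𝓡) (Kd i m.1 (em x y.1 P)) * Ld m.1 l (em y.1 z Q) =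
      (Ld i l (em x y.1 P * em y.1 z Q) : Amb D R) := by
  rw [sum_eq_single y]
  · rw [Kd_apply, Ld_apply, Ld_apply, ← blk_blk, lft_em]
    have h2 : (blk i y.1 (em x y.1 P : Amb (pm D) R)).map (par (k := k) 𝓡) * sgm R y.1 =
        sgm R i * blk i y.1 (em x y.1 P : Amb (pm D) R) := by
      by_cases h : i = x
      · subst h
        rw [blk_em]
        exact sgm_par 𝓡 hC hP
      · rw [blk_em_l h, Matrix.mul_zero]
        have h3 : (0 : Matrix (Fin i.1) (Fin y.1.1) R).map (par (k := k) 𝓡) = 0 := by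
          ext u v
          simp
        rw [h3, Matrix.zero_mul]
    have h3 := emd_mul i y.1 l ((blk i y.1 (em x y.1 P : Amb (pm D) R)).map (par (k := k) 𝓡))
      (sgm R y.1 * blk y.1 l (em y.1 z Q : Amb (pm D) R))
    refine h3.trans ?_
    rw [← Matrix.mul_assoc, h2, Matrix.mul_assoc]
  · intro m _ hm
    have h : m.1 ≠ y.1 := fun h => hm (Subtype.ext h)
    rw [Kd_apply, blk_em_r h]
    change lft (par (k := k) 𝓡) (em (dn i) (dn m.1)
      (0 : Matrix (Fin (dn i).1) (Fin (dn m.1).1) R) : Amb D R) * _ = 0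
    rw [map_zero, map_zero, zero_mul]
  · intro h
    exact absurd (mem_univ y) h

theorem blk_Hm (x y x' y' : Ob (pm D)) {P : Matrix (Fin x.1) (Fin y.1) R}
    (hP : P ∈ Hm R y.2 x.2) : blk x' y' (em x y P : Amb (pm D) R) ∈ Hm R y'.2 x'.2 := by
  by_cases h1 : x' = x
  · by_cases h2 : y' = y
    · subst h1
      subst h2
      rw [blk_em]
      exact hP
    · rw [blk_em_r h2]
      exact zero_mem _
  · rw [blk_em_l h1]
    exact zero_mem _

theorem Kd_mem (hC : PmC (G := G) 𝓡) {x y : Ob (pm D)} {a : Amb (pm D) R} (ha : a ∈ hom R x y)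
    (i l : Ob (pm D)) : Kd i l a ∈ (hom R (dn i) (dn l) : Submodule k (Amb D R)) := by
  obtain ⟨P, hP, rfl⟩ := ha
  exact ⟨_, rs_Hm 𝓡 hC (blk_Hm x y i l hP), rfl⟩

theorem Ld_mem (hC : PmC (G := G) 𝓡) {x y : Ob (pm D)} {a : Amb (pm D) R} (ha : a ∈ hom R x y)
    (i l : Ob (pm D)) : Ld i l a ∈ (hom R (dn i) (dn l) : Submodule k (Amb D R)) := by
  obtain ⟨P, hP, rfl⟩ := ha
  have h1 : sgm R i ∈ Hm R (rs i.2) (rs i.2) := by
    refine map_mem_Hm fun g => ?_
    change i.2.m (g, 1) * i.2.m (1, -1) = i.2.m (1, -1) * i.2.m (g, 1)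
    rw [← i.2.mul, ← i.2.mul]
    simp
  exact ⟨_, Hm_mul h1 (rs_Hm 𝓡 hC (blk_Hm x y i l hP)), rfl⟩

end down

end Pool.Agent.Helper49.HE
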