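import Pool.Agent.Helper49.HE.StepB

/-!
# Project HE (MP_e5f486_ag): exactness of the twisted complex in even internal degrees
-/

set_option autoImplicit false
set_option linter.unusedSectionVars false

open Finset

namespace Pool.Agent.Helper49.HE

open Pool.Agent.Helper44.HD Pool.Agent.Helper1.HD

section th

variable {k G : Type} [Field k] [Group G] [CharZero k] {D : RedGroup k G}
variable {R : Type} [Ring R] [Algebra k R]

theorem Kd_zero {u v x y : Ob (pm D)} (h : u ≠ x) (P : Matrix (Fin x.1) (Fin y.1) R) :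
    Kd u v (em x y P : Amb (pm D) R) = 0 := by
  rw [Kd_apply, blk_em_l h]
  exact map_zero (em (dn u) (dn v) : Matrix (Fin (dn u).1) (Fin (dn v).1) R →ₗ[k] Amb D R)

theorem Ld_zero {u v x y : Ob (pm D)} (h : u ≠ x) (P : Matrix (Fin x.1) (Fin y.1) R) :
    Ld u v (em x y P : Amb (pm D) R) = 0 := by
  rw [Ld_apply, blk_em_l h, Matrix.mul_zero]
  exact map_zero (em (dn u) (dn v) : Matrix (Fin (dn u).1) (Fin (dn v).1) R →ₗ[k] Amb D R)

/-- the map from `G × {1, -1}` to `G` -/
noncomputable def Th (R : Type) [Ring R] [Algebra k R] (T : Finset (Ob (pm D))) (n : ℕ) :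
    HC k (Amb (pm D) R) n →ₗ[k] HC k (Amb D R) n :=
  trf (k := k) (A := Amb (pm D) R) (B := Amb D R) (κ := {u // u ∈ T}) (fun x y => Ld x.1 y.1)
    (fun x y => Kd x.1 y.1) n

theorem th_word {T : Finset (Ob (pm D))} {n : ℕ} {y : ℕ → Ob (pm D)}
    (hy : ∀ i, i ≤ n + 1 → y i ∈ T) (hcl : y (n + 1) = y 0) {b : ℕ → Amb (pm D) R}
    (hb : ∀ i, i ≤ n → ∃ P : Matrix (Fin (y i).1) (Fin (y (i + 1)).1) R,
      b i = em (y i) (y (i + 1)) P) :
    Th R T n (tp k n b) = tp k n (fun j => if j = 0 then Ld (y j) (y (j + 1)) (b j) else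
      Kd (y j) (y (j + 1)) (b j) : ℕ → Amb D R) := by
  unfold Th
  rw [trf_sum]
  let y' : Fin (n + 1) → {u // u ∈ T} := fun i => ⟨y i.1, hy i.1 (by omega)⟩
  have e1 : ∀ j, j ≤ n + 1 → (ex n y' j).1 = y j := by
    intro j hj
    rcases Nat.lt_or_ge j (n + 1) with h | h
    · rw [ex_lt _ h]
    · obtain rfl : j = n + 1 := by omega
      rw [ex_top, hcl]
      rfl
  rw [sum_eq_single y']
  · refine tp_congr k fun j hj => ?_
    unfold mw
    by_cases h : j = 0
    · simp only [h, if_true]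
      rw [e1 0 (by omega), e1 (0 + 1) (by omega)]
    · simp only [h, if_false]
      rw [e1 j (by omega), e1 (j + 1) (by omega)]
  · intro ι _ hι
    obtain ⟨⟨i, hi'⟩, hi⟩ : ∃ i, ι i ≠ y' i := by
      by_contra hcon
      push Not at hcon
      exact hι (funext hcon)
    refine tp_zero k i (by omega) ?_
    obtain ⟨P, hP⟩ := hb i (by omega)
    have h1 : (ι ⟨i, hi'⟩).1 ≠ y i := fun h => hi (Subtype.ext h)
    unfold mw
    rw [ex_lt ι hi', hP]
    by_cases h : i = 0
    · simp only [h, if_true]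
      subst h
      exact Ld_zero h1 P
    · simp only [h, if_false]
      exact Kd_zero h1 P
  · intro h
    exact absurd (mem_univ y') h

/-! ### The map from `G` to `G × {1, -1}` followed by the map back -/

theorem sgm_up (χ : ZMod 2) (x : Ob D) :
    sgm R (up χ x) = (chs k χ (-1) • (1 : Matrix (Fin x.1) (Fin x.1) R)) := by
  unfold sgm
  have h : (up χ x).2.m (1, -1) = chs k χ (-1) • (1 : Matrix (Fin x.1) (Fin x.1) k) := by
    change chs k χ (-1) • x.2.m 1 = _
    rw [x.2.one]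
  have h2 : ∀ i j : Fin x.1, algebraMap k R (chs k χ (-1) *
      (1 : Matrix (Fin x.1) (Fin x.1) k) i j) =
        chs k χ (-1) • (1 : Matrix (Fin x.1) (Fin x.1) R) i j := by
    intro i j
    rw [map_mul, ← Algebra.smul_def, Matrix.one_apply, Matrix.one_apply]
    split_ifs <;> simp
  rw [h]
  ext i j
  exact h2 i j

theorem Kd_up (χ χ' : ZMod 2) (x y : Ob D) (P : Matrix (Fin x.1) (Fin y.1) R) :
    Kd (up χ x) (up χ' y) (em (up χ x) (up χ' y) P : Amb (pm D) R) = (em x y P : Amb D R) := by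
  rw [Kd_apply, blk_em]
  refine em_congr (dn_up χ x) (dn_up χ' y) P _ ?_
  intro i j i' j' hi hj
  obtain rfl : i' = i := Fin.ext hi
  obtain rfl : j' = j := Fin.ext hj
  rfl

theorem Ld_up (χ χ' : ZMod 2) (x y : Ob D) (P : Matrix (Fin x.1) (Fin y.1) R) :
    Ld (up χ x) (up χ' y) (chs k χ (-1) • em (up χ x) (up χ' y) P : Amb (pm D) R) =
      (em x y P : Amb D R) := by
  rw [map_smul, Ld_apply, blk_em, sgm_up]
  have h : (chs k χ (-1) • (1 : Matrix (Fin x.1) (Fin x.1) R)) * P = chs k χ (-1) • P := by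
    rw [Matrix.smul_mul, Matrix.one_mul]
  have h2 : em (dn (up χ x)) (dn (up χ' y)) ((chs k χ (-1) •
      (1 : Matrix (Fin x.1) (Fin x.1) R)) * P) = (chs k χ (-1) • em x y P : Amb D R) := by
    rw [h, ← map_smul]
    refine em_congr (dn_up χ x) (dn_up χ' y) (chs k χ (-1) • P) _ ?_
    intro i j i' j' hi hj
    obtain rfl : i' = i := Fin.ext hi
    obtain rfl : j' = j := Fin.ext hj
    rfl
  refine (congrArg (fun X => chs k χ (-1) • X) h2).trans ?_
  rw [smul_smul, chs_sq, one_smul]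

variable (𝓡 : ℤ → Submodule k R) [GradedAlgebra 𝓡]

/-- the map from `G` to `G × {1, -1}` -/
noncomputable def Ph (D : RedGroup k G) (n : ℕ) :
    HC k (Amb D R) n →ₗ[k] HC k (Amb (pm D) R) n :=
  trf (k := k) (A := Amb D R) (B := Amb (pm D) R) (κ := ZMod 2) (Lu 𝓡 D) (Ku 𝓡 D) n

theorem Ku_deg {x y : Ob D} {P : Matrix (Fin x.1) (Fin y.1) R} {q : ℤ} (hP : ∀ i j, P i j ∈ 𝓡 q)
    (χ χ' : ZMod 2) : Ku (k := k) 𝓡 D χ χ' (em x y P) =
      if (q : ZMod 2) = χ + χ' then em (up χ x) (up χ' y) P else 0 := by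
  rw [Ku_em]
  have h1 : P.map (prc (k := k) 𝓡 (χ + χ')) = if (q : ZMod 2) = χ + χ' then P else 0 := by
    ext i j
    rw [Matrix.map_apply]
    unfold prc
    rw [wt_apply 𝓡 _ (hP i j)]
    by_cases h : (q : ZMod 2) = χ + χ'
    · simp [h]
    · simp [h]
  rw [h1]
  by_cases h : (q : ZMod 2) = χ + χ'
  · simp only [h, if_true]
  · simp only [h, if_false]
    exact map_zero (em (up χ x) (up χ' y) :
      Matrix (Fin (up χ x).1) (Fin (up χ' y).1) R →ₗ[k] Amb (pm D) R)

variable [MulSemiringAction G R] [SMulCommClass G k R]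

theorem th_ph_word {n : ℕ} {q : ℤ} (hq : Even q) {x : ℕ → Ob D} {e : ℕ → ℤ} {a : ℕ → Amb D R}
    (h : IsW (k := k) (A := Amb D R) (homq 𝓡) n q x e a) {T : Finset (Ob (pm D))}
    (hT : ∀ i, i ≤ n + 1 → ∀ χ, up χ (x i) ∈ T) :
    Th R T n (Ph 𝓡 D n (tp k n a)) = tp k n a + tp k n a := by
  have hh : ∀ i, i ≤ n → ∃ P : Matrix (Fin (x i).1) (Fin (x (i + 1)).1) R,
      (∀ u v, P u v ∈ 𝓡 (e i)) ∧ em (x i) (x (i + 1)) P = a i := by
    intro i hi
    obtain ⟨P, _, h1, h2⟩ := (mem_homq 𝓡).1 (h.mem i hi)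
    exact ⟨P, h1, h2⟩
  unfold Ph
  rw [trf_sum, map_sum]
  refine count_two n (fun i => (e i : ZMod 2)) ?_ _ _ ?_ ?_
  · have h1 := congrArg (Int.cast : ℤ → ZMod 2) h.deg
    push_cast at h1
    rw [h1]
    exact cast_even hq
  · intro ι hι
    have hb : ∀ i, i ≤ n → ∃ P : Matrix (Fin (up (ex n ι i) (x i)).1)
        (Fin (up (ex n ι (i + 1)) (x (i + 1))).1) R,
        mw (Lu (k := k) 𝓡 D) (Ku 𝓡 D) a i (ex n ι i) (ex n ι (i + 1)) =
          em (up (ex n ι i) (x i)) (up (ex n ι (i + 1)) (x (i + 1))) P := by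
      intro i hi
      obtain ⟨P, h1, h2⟩ := hh i hi
      have h3 := Ku_deg (k := k) 𝓡 h1 (ex n ι i) (ex n ι (i + 1))
      rw [h2, if_pos (hι i hi).symm] at h3
      unfold mw
      by_cases h0 : i = 0
      · simp only [h0, if_true]
        subst h0
        refine ⟨chs k (ex n ι 0) (-1) • P, ?_⟩
        unfold Lu
        rw [LinearMap.smul_apply, h3]
        exact (map_smul (em (up (ex n ι 0) (x 0)) (up (ex n ι (0 + 1)) (x (0 + 1))) :
          Matrix (Fin (x 0).1) (Fin (x (0 + 1)).1) R →ₗ[k] Amb (pm D) R) _ _).symm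
      · simp only [h0, if_false]
        exact ⟨P, h3⟩
    refine (th_word (T := T) (n := n) (y := fun i => up (ex n ι i) (x i))
      (fun i hi => hT i hi _) ?_ hb).trans ?_
    · change up (ex n ι (n + 1)) (x (n + 1)) = up (ex n ι 0) (x 0)
      rw [ex_top, h.cl, ex_lt ι (show 0 < n + 1 by omega)]
      rfl
    · refine tp_congr k fun i hi => ?_
      obtain ⟨P, h1, h2⟩ := hh i hi
      have h3 := Ku_deg (k := k) 𝓡 h1 (ex n ι i) (ex n ι (i + 1))
      rw [h2, if_pos (hι i hi).symm] at h3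
      unfold mw
      by_cases h0 : i = 0
      · simp only [h0, if_true]
        subst h0
        unfold Lu
        rw [LinearMap.smul_apply, h3, ← h2]
        exact Ld_up _ _ _ _ P
      · simp only [h0, if_false]
        rw [h3, ← h2]
        exact Kd_up _ _ _ _ P
  · rintro ι ⟨j, hj, hne⟩
    have h4 : tp k n (fun j => mw (k := k) (A := Amb D R) (B := Amb (pm D) R) (Lu 𝓡 D) (Ku 𝓡 D) a j
        (ex n ι j) (ex n ι (j + 1))) = 0 := by
      refine tp_zero k j hj ?_
      obtain ⟨P, h1, h2⟩ := hh j hj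
      have h3 := Ku_deg (k := k) 𝓡 h1 (ex n ι j) (ex n ι (j + 1))
      rw [h2, if_neg (Ne.symm hne)] at h3
      unfold mw
      by_cases h0 : j = 0
      · simp only [h0, if_true]
        subst h0
        unfold Lu
        rw [LinearMap.smul_apply, h3, smul_zero]
      · simp only [h0, if_false]
        exact h3
    rw [h4, map_zero]

end th

end Pool.Agent.Helper49.HE
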