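import Pool.Agent.Helper49.HE.StepC

/-!
# Project HE (MP_e5f486_ag): exactness of the twisted complex in even internal degrees, II
-/

set_option autoImplicit false
set_option linter.unusedSectionVars false

open Finset

namespace Pool.Agent.Helper49.HE

open Pool.Agent.Helper44.HD Pool.Agent.Helper1.HD

section sb

variable {k G : Type} [Field k] [Group G] {D : RedGroup k G}
variable {R : Type} [Ring R] [Algebra k R] [MulSemiringAction G R] [SMulCommClass G k R]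

theorem Cyc_Wd {n : ℕ} {z : HC k (Amb D R) n} (hz : z ∈ Cyc R D n) :
    z ∈ Wd (k := k) (A := Amb D R) (hom R) n := hz

theorem Wd_Cyc {n : ℕ} {z : HC k (Amb D R) n} (hz : z ∈ Wd (k := k) (A := Amb D R) (hom R) n) :
    z ∈ Cyc R D n := hz

variable [CharZero k] (𝓡 : ℤ → Submodule k R) [GradedAlgebra 𝓡]

theorem Ph_bt {n : ℕ} {z : HC k (Amb D R) (n + 1)} (hz : z ∈ Cyc R D (n + 1)) :
    bc k (Amb (pm D) R) n (Ph 𝓡 D (n + 1) z) = Ph 𝓡 D n (bt k (lft (par (k := k) 𝓡)) n z) := by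
  have h := trf_bt (k := k) (A := Amb D R) (B := Amb (pm D) R) (κ := ZMod 2) (Ω := Ob D)
    (H0 := hom R) (L := Lu 𝓡 D) (K := Ku 𝓡 D) (α := lft (par (k := k) 𝓡))
    (β := LinearMap.id) ?_ ?_ ?_ (n := n) (z := z)
  · rw [← bt_id]
    exact h (Cyc_Wd hz)
  · rintro x y z _ _ ⟨P, _, rfl⟩ ⟨Q, _, rfl⟩ i l
    exact Ku_mul 𝓡 x y z P Q i l
  · rintro x y z _ _ ⟨P, _, rfl⟩ ⟨Q, _, rfl⟩ i l
    have h1 := Ku_mul (k := k) 𝓡 x y z P Q i l
    unfold Lu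
    rw [LinearMap.smul_apply, ← h1, smul_sum]
    refine sum_congr rfl fun m _ => ?_
    rw [LinearMap.smul_apply, smul_mul_assoc]
  · rintro x y z _ _ ⟨P, _, rfl⟩ ⟨Q, _, rfl⟩ i l
    have h1 := Ku_mul (k := k) 𝓡 x y z (P.map (par (k := k) 𝓡)) Q i l
    unfold Lu
    rw [LinearMap.smul_apply]
    rw [lft_em, ← h1, smul_sum]
    refine sum_congr rfl fun m _ => ?_
    have h2 := Ku_par (k := k) 𝓡 x y P i m
    rw [lft_em] at h2
    rw [LinearMap.id_apply, LinearMap.smul_apply, mul_smul_comm, ← smul_mul_assoc, h2,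
      smul_mul_assoc]

variable [MulSemiringAction (G × ℤˣ) R] [SMulCommClass (G × ℤˣ) k R]

theorem Ph_mem (hG : ∀ (g : G) q, ∀ a ∈ 𝓡 q, g • a ∈ 𝓡 q) (hC : PmC (G := G) 𝓡) {n : ℕ}
    {z : HC k (Amb D R) n} (hz : z ∈ Cyc R D n) : Ph 𝓡 D n z ∈ Cyc R (pm D) n := by
  have h := trf_mem (k := k) (A := Amb D R) (B := Amb (pm D) R) (κ := ZMod 2) (Ω := Ob D)
    (Ω' := Ob (pm D)) (H0 := hom R) (H1 := hom R) (L := Lu 𝓡 D) (K := Ku 𝓡 D) up ?_ ?_ (n := n)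
    (z := z)
  · exact Wd_Cyc (h (Cyc_Wd hz))
  · intro x y a ha i l
    exact Ku_mem 𝓡 hG hC ha i l
  · intro x y a ha i l
    exact Submodule.smul_mem _ _ (Ku_mem 𝓡 hG hC ha i l)

theorem Th_bt (hC : PmC (G := G) 𝓡) {T : Finset (Ob (pm D))} {n : ℕ}
    {z : HC k (Amb (pm D) R) (n + 1)}
    (hz : z ∈ WdT (k := k) (A := Amb (pm D) R) (hom R) T (n + 1)) :
    bt k (lft (par (k := k) 𝓡)) n (Th R T (n + 1) z) = Th R T n (bc k (Amb (pm D) R) n z) := by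
  have h := trf_bt (k := k) (A := Amb (pm D) R) (B := Amb D R) (κ := {u // u ∈ T})
    (Ω := {u // u ∈ T}) (H0 := fun x y => hom R x.1 y.1) (L := fun x y => Ld x.1 y.1)
    (K := fun x y => Kd x.1 y.1) (α := LinearMap.id) (β := lft (par (k := k) 𝓡)) ?_ ?_ ?_
    (n := n) (z := z)
  · rw [← bt_id]
    exact h hz
  · rintro x y z _ _ ⟨P, _, rfl⟩ ⟨Q, _, rfl⟩ i l
    exact Kd_Kd P Q i.1 l.1
  · rintro x y z _ _ ⟨P, _, rfl⟩ ⟨Q, _, rfl⟩ i l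
    exact Ld_Kd P Q i.1 l.1
  · rintro x y z _ _ ⟨P, hP, rfl⟩ ⟨Q, _, rfl⟩ i l
    exact Kd_Ld 𝓡 hC hP Q i.1 l.1

theorem Th_mem (hC : PmC (G := G) 𝓡) {T : Finset (Ob (pm D))} {n : ℕ}
    {z : HC k (Amb (pm D) R) n}
    (hz : z ∈ WdT (k := k) (A := Amb (pm D) R) (hom R) T n) : Th R T n z ∈ Cyc R D n := by
  have h := trf_mem (k := k) (A := Amb (pm D) R) (B := Amb D R) (κ := {u // u ∈ T})
    (Ω := {u // u ∈ T}) (Ω' := Ob D) (H0 := fun x y => hom R x.1 y.1) (H1 := hom R)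
    (L := fun x y => Ld x.1 y.1) (K := fun x y => Kd x.1 y.1) (fun i _ => dn i.1) ?_ ?_ (n := n)
    (z := z)
  · exact Wd_Cyc (h hz)
  · intro x y a ha i l
    exact Kd_mem 𝓡 hC ha i.1 l.1
  · intro x y a ha i l
    exact Ld_mem 𝓡 hC ha i.1 l.1

theorem th_ph {n : ℕ} {q : ℤ} (hq : Even q) {z : HC k (Amb D R) n}
    (hz : z ∈ Cq (k := k) (A := Amb D R) (homq 𝓡) n q) :
    ∃ S : Finset (Ob (pm D)), ∀ T, S ⊆ T → Th R T n (Ph 𝓡 D n z) = z + z := by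
  classical
  refine Cq_ind (P := fun z => ∃ S : Finset (Ob (pm D)), ∀ T, S ⊆ T →
    Th R T n (Ph 𝓡 D n z) = z + z) ?_ ?_ ?_ ?_ hz
  · intro x e a h
    refine ⟨(range (n + 2)).biUnion fun i => univ.image fun χ : ZMod 2 => up χ (x i),
      fun T hT => ?_⟩
    refine th_ph_word 𝓡 hq h ?_
    intro i hi χ
    exact hT (mem_biUnion.2 ⟨i, mem_range.2 (by omega), mem_image_of_mem _ (mem_univ χ)⟩)
  · exact ⟨∅, fun T _ => by rw [map_zero, map_zero, add_zero]⟩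
  · rintro z z' ⟨S, hS⟩ ⟨S', hS'⟩
    refine ⟨S ∪ S', fun T hT => ?_⟩
    rw [map_add, map_add, hS T (union_subset_left hT), hS' T (union_subset_right hT)]
    abel
  · rintro c z ⟨S, hS⟩
    refine ⟨S, fun T hT => ?_⟩
    rw [map_smul, map_smul, hS T hT, smul_add]

/-- exactness of the twisted complex in even internal degrees -/
theorem stepB (hG : ∀ (g : G) q, ∀ a ∈ 𝓡 q, g • a ∈ 𝓡 q) (hC : PmC (G := G) 𝓡)
    (UE : ∀ p, ∀ z ∈ Cyc R (pm D) (p + 1), bc k (Amb (pm D) R) p z = 0 →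
      ∃ w ∈ Cyc R (pm D) (p + 2), bc k (Amb (pm D) R) (p + 1) w = z) {p : ℕ} {q : ℤ}
    (hq : Even q) {z : HC k (Amb D R) (p + 1)}
    (hz : z ∈ Cq (k := k) (A := Amb D R) (homq 𝓡) (p + 1) q)
    (hb : bt k (lft (par (k := k) 𝓡)) p z = 0) :
    ∃ w0 ∈ Cyc R D (p + 2), bt k (lft (par (k := k) 𝓡)) (p + 1) w0 = z := by
  classical
  have h1 := Cq_Cyc 𝓡 hz
  have h2 : bc k (Amb (pm D) R) p (Ph 𝓡 D (p + 1) z) = 0 := by
    rw [Ph_bt 𝓡 h1, hb, map_zero]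
  obtain ⟨w', hw', hw⟩ := UE p _ (Ph_mem 𝓡 hG hC h1) h2
  obtain ⟨S1, hS1⟩ := WdT_fin (k := k) (A := Amb (pm D) R) (Cyc_Wd hw')
  obtain ⟨S2, hS2⟩ := th_ph 𝓡 hq hz
  have h3 := hS1 (S1 ∪ S2) subset_union_left
  have h4 := hS2 (S1 ∪ S2) subset_union_right
  have h5 := Th_bt 𝓡 hC h3
  rw [hw, h4] at h5
  refine ⟨(2 : k)⁻¹ • Th R (S1 ∪ S2) (p + 2) w', Submodule.smul_mem _ _ (Th_mem 𝓡 hC h3), ?_⟩
  rw [map_smul, h5, ← two_smul k z, smul_smul, inv_mul_cancel₀ two_ne_zero, one_smul]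

end sb

end Pool.Agent.Helper49.HE
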