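import Pool.Agent.Helper49.HE.Asm
import Pool.Agent.Helper49.HE.Sign
import Pool.Agent.Helper44.HD.Stmt

/-!
# Project HE (MP_e5f486_ag): the definitions of the final statement in short form

The dg category of the modules `R ⊗ V` over a dg algebra `R` with an action of `G`, its Hochschild complex with Koszul
signs, mixed complexes and degeneration.
-/

set_option autoImplicit false
set_option linter.unusedSectionVars false

open Finset

namespace Pool.Agent.Helper49.HE.Stmt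

open Pool.Agent.Helper44.HD Pool.Agent.Helper44.HD.Stmt Pool.Agent.Helper49.HE

section words

variable (k : Type) {A : Type} [Field k] [Ring A] [Algebra k A]

/-- the Hochschild boundary of the word `a_0 ⊗ ... ⊗ a_{p+1}` with letters of degrees `e_0, ..., e_{p+1}`:
`∑_{j ≤ p} (-1)^j (.. ⊗ a_j a_{j+1} ⊗ ..) + (-1)^(p+1) (-1)^(e_{p+1} (e_0 + .. + e_p)) (a_{p+1} a_0 ⊗ a_1 ⊗ .. ⊗ a_p)` -/
noncomputable def bw (p : ℕ) (e : ℕ → ℤ) (a : ℕ → A) : Ch k A p :=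
  ∑ j ∈ range (p + 1), (-1 : k) ^ j • pt k p (ct j a) +
    (-1 : k) ^ (p + 1) • (-1 : k) ^ (e (p + 1) * ∑ i ∈ range (p + 1), e i) • pt k p (cy (p + 1) a)

/-- the internal differential of the word `a_0 ⊗ ... ⊗ a_p`:
`∑_{j ≤ p} (-1)^(e_0 + .. + e_{j-1}) (a_0 ⊗ .. ⊗ δ a_j ⊗ .. ⊗ a_p)` -/
noncomputable def dw (δ : A → A) (p : ℕ) (e : ℕ → ℤ) (a : ℕ → A) : Ch k A p :=
  ∑ j ∈ range (p + 1), (-1 : k) ^ (∑ i ∈ range j, e i) • pt k p (Function.update a j (δ (a j)))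

end words

section cat

variable {k G : Type} [Field k] [Group G] {D : RedGroup k G} {R : Type} [Ring R] [Algebra k R]

/-- there are maps given by applying `d` to all matrix entries -/
theorem ex_dm (D : RedGroup k G) (d : R →ₗ[k] R) : ∃ δ : Am D R → Am D R, ∀ f j c i,
    ev D R (δ f) (Finsupp.single j c) i = d (ev D R f (Finsupp.single j 1) i) * c :=
  ⟨fun f => lft (D := D) d f, fun f j c i => lft_single (D := D) d f j i c⟩

/-- the differential of a morphism: `d` is applied to all matrix entries -/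
noncomputable def dm (D : RedGroup k G) (d : R →ₗ[k] R) : Am D R → Am D R := (ex_dm D d).choose

theorem dm_eq (d : R →ₗ[k] R) (f : Am D R) : dm D d f = lft (D := D) d f := by
  apply Finsupp.lhom_ext
  intro j c
  apply Finsupp.ext
  intro i
  exact ((ex_dm D d).choose_spec f j c i).trans (lft_single (D := D) d f j i c).symm

variable [MulSemiringAction G R] [SMulCommClass G k R] (𝓡 : ℤ → Submodule k R)

/-- the morphisms `R ⊗ y → R ⊗ x` of degree `q`: the maps `f` given by the equivariant matrices `P` with entries of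
degree `q` -/
noncomputable def Mq (q : ℤ) (x y : Ob D) : Submodule k (Am D R) :=
  Submodule.span k {f | ∃ P ∈ Hm R y.2 x.2, (∀ i j, P i j ∈ 𝓡 q) ∧ ∀ v : Ix D →₀ R,
    ev D R f v = ∑ i, ∑ j, Finsupp.single (⟨x, i⟩ : Ix D) (P i j * v ⟨y, j⟩)}

theorem Mq_eq (q : ℤ) (x y : Ob D) : Mq 𝓡 q x y = homq 𝓡 q x y := by
  have e : {f : Am D R | ∃ P ∈ Hm R y.2 x.2, (∀ i j, P i j ∈ 𝓡 q) ∧ ∀ v : Ix D →₀ R,
      ev D R f v = ∑ i, ∑ j, Finsupp.single (⟨x, i⟩ : Ix D) (P i j * v ⟨y, j⟩)} =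
      (em x y) '' ((Hm R y.2 x.2 ⊓ Pool.Agent.Helper49.HE.Eq 𝓡 q x y : Submodule k _) :
        Set (Matrix (Fin x.1) (Fin y.1) R)) := by
    ext f
    constructor
    · rintro ⟨P, hP, hq, h⟩
      refine ⟨P, ⟨hP, hq⟩, ?_⟩
      apply LinearMap.ext
      intro v
      exact (em_ap P v).trans (h v).symm
    · rintro ⟨P, ⟨hP, hq⟩, rfl⟩
      exact ⟨P, hP, hq, em_ap P⟩
  unfold Mq homq
  rw [e]
  change Submodule.span k ((em x y) '' ((Hm R y.2 x.2 ⊓ Pool.Agent.Helper49.HE.Eq 𝓡 q x y :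
    Submodule k _) : Set (Matrix (Fin x.1) (Fin y.1) R))) = _
  rw [← Submodule.map_span, Submodule.span_eq]

/-- homogeneous cyclic words: `a_i : R ⊗ x_{i+1} → R ⊗ x_i` of degree `e_i` for `i ≤ p`, `x_{p+1} = x_0`, of total
degree `q` -/
def Wq (p : ℕ) (q : ℤ) (x : ℕ → Ob D) (e : ℕ → ℤ) (a : ℕ → Am D R) : Prop :=
  (∀ i, i ≤ p → a i ∈ Mq 𝓡 (e i) (x i) (x (i + 1))) ∧ x (p + 1) = x 0 ∧
    ∑ i ∈ range (p + 1), e i = q

theorem Wq_iff (p : ℕ) (q : ℤ) (x : ℕ → Ob D) (e : ℕ → ℤ) (a : ℕ → Am D R) :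
    Wq 𝓡 p q x e a ↔ IsW (k := k) (A := Amb D R) (homq 𝓡) p q x e a := by
  unfold Wq
  simp only [Mq_eq]
  exact ⟨fun h => ⟨h.1, h.2.1, h.2.2⟩, fun h => ⟨h.mem, h.cl, h.deg⟩⟩

/-- the span of the cyclic words with `p + 1` letters of total degree `q` -/
noncomputable def Cwq (D : RedGroup k G) (p : ℕ) (q : ℤ) : Submodule k (Ch k (Am D R) p) :=
  Submodule.span k {z | ∃ (x : ℕ → Ob D) (e : ℕ → ℤ) (a : ℕ → Am D R), Wq 𝓡 p q x e a ∧
    z = pt k p a}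

theorem Cwq_iff (p : ℕ) (q : ℤ) (z : Ch k (Am D R) p) :
    z ∈ Cwq 𝓡 D p q ↔ z ∈ Cq (k := k) (A := Amb D R) (homq 𝓡) p q := by
  unfold Cwq Cq
  simp only [Wq_iff]
  exact Iff.rfl

variable [GradedAlgebra 𝓡]

theorem homq_par : ∀ q (x y : Ob D) (a : Amb D R), a ∈ homq 𝓡 q x y →
    lft (D := D) (par (k := k) 𝓡) a = (-1 : k) ^ q • a := fun _ _ _ _ ha => lft_wt 𝓡 _ ha

/-- the Hochschild boundary exists -/
theorem ex_bq (D : RedGroup k G) (p : ℕ) (q : ℤ) :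
    ∃ b : Ch k (Am D R) (p + 1) → Ch k (Am D R) p, IsLinearMap k b ∧
      ∀ x e a, Wq 𝓡 (p + 1) q x e a → b (pt k (p + 1) a) = bw k p e a := by
  refine ⟨bt k (A := Amb D R) (tw (lft (par (k := k) 𝓡)) q) p, LinearMap.isLinear _,
    fun x e a h => ?_⟩
  have h1 := (Wq_iff 𝓡 (p + 1) q x e a).1 h
  exact bt_word (k := k) (A := Amb D R) (homq_par 𝓡) h1

/-- the Hochschild boundary of the words with `p + 2` letters of total degree `q`: the linear map given by `bw` on words -/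
noncomputable def bq (D : RedGroup k G) (p : ℕ) (q : ℤ) :
    Ch k (Am D R) (p + 1) → Ch k (Am D R) p := (ex_bq 𝓡 D p q).choose

/-- the internal differential exists -/
theorem ex_dq (D : RedGroup k G) (d : R →ₗ[k] R) (p : ℕ) :
    ∃ b : Ch k (Am D R) p → Ch k (Am D R) p, IsLinearMap k b ∧
      ∀ q x e a, Wq 𝓡 p q x e a → b (pt k p a) = dw k (dm D d) p e a := by
  refine ⟨sg (k := k) (A := Amb D R) (lft (par (k := k) 𝓡)) (lft d) p, LinearMap.isLinear _,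
    fun q x e a h => ?_⟩
  have h1 := (Wq_iff 𝓡 p q x e a).1 h
  have h2 := sg_word (k := k) (A := Amb D R) (δ := lft d) (homq_par 𝓡) h1
  refine h2.trans ?_
  unfold dw
  refine sum_congr rfl fun j _ => ?_
  rw [dm_eq]
  rfl

/-- the internal differential on the words with `p + 1` letters: the linear map given by `dw` on words -/
noncomputable def dq (D : RedGroup k G) (d : R →ₗ[k] R) (p : ℕ) :
    Ch k (Am D R) p → Ch k (Am D R) p := (ex_dq 𝓡 D d p).choose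

/-- chains of degree `n`: `z = (z_p)`, `z_p` in the span of the cyclic words with `p + 1` letters of total degree
`n - p`, `z_p = 0` for large `p` -/
def Tc (D : RedGroup k G) (n : ℤ) (z : ∀ p : ℕ, Ch k (Am D R) p) : Prop :=
  (∀ p : ℕ, z p ∈ Cwq 𝓡 D p (n - p)) ∧ ∃ N : ℕ, ∀ p, N ≤ p → z p = 0

/-- the boundary of a chain of degree `n`: `(∂ z)_p = b z_{p+1} + (-1)^p d z_p` -/
noncomputable def tb (D : RedGroup k G) (d : R →ₗ[k] R) (n : ℤ) (z : ∀ p : ℕ, Ch k (Am D R) p) :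
    ∀ p : ℕ, Ch k (Am D R) p :=
  fun p => bq 𝓡 D p (n - 1 - p) (z (p + 1)) + (-1 : k) ^ p • dq 𝓡 D d p (z p)

/-- the chains form a complex -/
def IsCx (D : RedGroup k G) (d : R →ₗ[k] R) : Prop :=
  ∀ (n : ℤ) z, Tc 𝓡 D n z → Tc 𝓡 D (n - 1) (tb 𝓡 D d n z) ∧
    tb 𝓡 D d (n - 1) (tb 𝓡 D d n z) = 0

/-- the Hochschild homology vanishes in all degrees `≠ 0` -/
def ExactT (D : RedGroup k G) (d : R →ₗ[k] R) : Prop :=
  ∀ n : ℤ, n ≠ 0 → ∀ z, Tc 𝓡 D n z → tb 𝓡 D d n z = 0 →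
    ∃ w, Tc 𝓡 D (n + 1) w ∧ tb 𝓡 D d (n + 1) w = z

/-- linear operators `B` of degree `1` on the chains with `B² = 0`, `∂ B + B ∂ = 0`; only the values of `B n` on the
chains of degree `n` matter -/
structure MixedT (D : RedGroup k G) (d : R →ₗ[k] R) where
  B : ℤ → (∀ p : ℕ, Ch k (Am D R) p) → ∀ p : ℕ, Ch k (Am D R) p
  lin : ∀ n, IsLinearMap k (B n)
  mem : ∀ n z, Tc 𝓡 D n z → Tc 𝓡 D (n + 1) (B n z)
  sq : ∀ n z, Tc 𝓡 D n z → B (n + 1) (B n z) = 0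
  anti : ∀ n z, Tc 𝓡 D n z → tb 𝓡 D d (n + 1) (B n z) + B (n - 1) (tb 𝓡 D d n z) = 0

/-- every Hochschild cycle `z` extends to a cycle `z + u Z_1 + u² Z_2 + ...` of `(C[[u]], ∂ + u B)` -/
def DegenT (D : RedGroup k G) (d : R →ₗ[k] R) : Prop :=
  ∀ (M : MixedT 𝓡 D d) (n : ℤ) (z : ∀ p : ℕ, Ch k (Am D R) p), Tc 𝓡 D n z →
    tb 𝓡 D d n z = 0 → ∃ Z : ℕ → ∀ p : ℕ, Ch k (Am D R) p, Z 0 = z ∧
      (∀ i : ℕ, Tc 𝓡 D (n + 2 * i) (Z i)) ∧
        ∀ i : ℕ, tb 𝓡 D d (n + 2 * i + 2) (Z (i + 1)) + M.B (n + 2 * i) (Z i) = 0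

end cat

end Pool.Agent.Helper49.HE.Stmt
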