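import Pool.Agent.Helper49.HE.Stmt

/-!
# Project HE (MP_e5f486_ag): the proof of the final statement
-/

set_option autoImplicit false
set_option linter.unusedSectionVars false

open Finset

namespace Pool.Agent.Helper49.HE.Stmt

open Pool.Agent.Helper44.HD Pool.Agent.Helper44.HD.Stmt Pool.Agent.Helper49.HE

section cat

variable {k G : Type} [Field k] [Group G] {D : RedGroup k G} {R : Type} [Ring R] [Algebra k R]
variable [MulSemiringAction G R] [SMulCommClass G k R] (𝓡 : ℤ → Submodule k R)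
variable [GradedAlgebra 𝓡]

theorem bq_eq (p : ℕ) (q : ℤ) {z : Ch k (Am D R) (p + 1)} (hz : z ∈ Cwq 𝓡 D (p + 1) q) :
    bq 𝓡 D p q z = bt k (A := Amb D R) (tw (lft (par (k := k) 𝓡)) q) p z := by
  have h := (ex_bq 𝓡 D p q).choose_spec
  let f : HC k (Amb D R) (p + 1) →ₗ[k] HC k (Amb D R) p :=
    IsLinearMap.mk' (ex_bq 𝓡 D p q).choose h.1
  have key := Cq_ext (k := k) (A := Amb D R) (H := homq 𝓡) (p := p + 1) (q := q) (f := f)
    (g := bt k (A := Amb D R) (tw (lft (par (k := k) 𝓡)) q) p) (z := z) fun x e a h1 =>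
      (h.2 x e a ((Wq_iff 𝓡 (p + 1) q x e a).2 h1)).trans
        (bt_word (k := k) (A := Amb D R) (homq_par 𝓡) h1).symm
  exact key ((Cwq_iff 𝓡 (p + 1) q z).1 hz)

theorem dq_eq (d : R →ₗ[k] R) (p : ℕ) (q : ℤ) {z : Ch k (Am D R) p} (hz : z ∈ Cwq 𝓡 D p q) :
    dq 𝓡 D d p z = sg (k := k) (A := Amb D R) (lft (par (k := k) 𝓡)) (lft d) p z := by
  have h := (ex_dq 𝓡 D d p).choose_spec
  let f : HC k (Amb D R) p →ₗ[k] HC k (Amb D R) p :=
    IsLinearMap.mk' (ex_dq 𝓡 D d p).choose h.1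
  have key := Cq_ext (k := k) (A := Amb D R) (H := homq 𝓡) (p := p) (q := q) (f := f)
    (g := sg (k := k) (A := Amb D R) (lft (par (k := k) 𝓡)) (lft d) p) (z := z) fun x e a h1 => by
      refine (h.2 q x e a ((Wq_iff 𝓡 p q x e a).2 h1)).trans ?_
      have h2 := sg_word (k := k) (A := Amb D R) (δ := lft d) (homq_par 𝓡) h1
      refine Eq.trans ?_ h2.symm
      unfold dw
      refine sum_congr rfl fun j _ => ?_
      rw [dm_eq]
      rfl
  exact key ((Cwq_iff 𝓡 p q z).1 hz)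

theorem Tc_iff (n : ℤ) (z : ∀ p : ℕ, Ch k (Am D R) p) :
    Tc 𝓡 D n z ↔ IsCh (k := k) (A := Amb D R) (homq 𝓡) n z := by
  unfold Tc IsCh
  simp only [Cwq_iff]
  exact Iff.rfl

theorem tb_eq (d : R →ₗ[k] R) (n : ℤ) {z : ∀ p : ℕ, Ch k (Am D R) p} (hz : Tc 𝓡 D n z) :
    tb 𝓡 D d n z = bd (k := k) (A := Amb D R) (lft (par (k := k) 𝓡)) (lft d) n z := by
  funext p
  have h1 := hz.1 (p + 1)
  have e : n - ((p + 1 : ℕ) : ℤ) = n - 1 - p := by push_cast; ring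
  rw [e] at h1
  have h2 := bq_eq 𝓡 p _ h1
  have h3 := dq_eq 𝓡 d p _ (hz.1 p)
  have h4 : tb 𝓡 D d n z p = bq 𝓡 D p (n - 1 - p) (z (p + 1)) +
    (-1 : k) ^ p • dq 𝓡 D d p (z p) := rfl
  rw [h4, h2, h3]
  have h5 := bd_apply (k := k) (A := Amb D R) (lft (par (k := k) 𝓡)) (lft d) n z p
  exact h5.symm

variable {L : Type} [Ring L] [Algebra k L] [MulSemiringAction G L] [SMulCommClass G k L]
  {d : R →ₗ[k] R} {𝓛 : ℤ → Submodule k L} [GradedAlgebra 𝓛] {pr : R → L}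

theorem isCx [CharZero k] (hd : IsDG G 𝓡 d) (hL : IsHL G 𝓡 d 𝓛 pr) (hr : RatR D R) :
    IsCx 𝓡 D d := by
  obtain ⟨C, c1, c2, c3, c4, c5⟩ := dg_ctx hd hL hr
  intro n z hz
  have h1 := (Tc_iff 𝓡 n z).1 hz
  have h2 := tb_eq 𝓡 d n hz
  have h3 := C.bd_mem (n := n) (z := z)
  rw [c1, c3, c4] at h3
  have h4 := h3 h1
  rw [← h2] at h4
  have h5 := (Tc_iff 𝓡 (n - 1) (tb 𝓡 D d n z)).2 h4
  refine ⟨h5, ?_⟩
  have h6 := tb_eq 𝓡 d (n - 1) h5
  have h7 := C.bd_bd (n := n) (m := n - 1) rfl (z := z)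
  rw [c1, c3, c4] at h7
  have h8 := h7 h1
  rw [← h2] at h8
  exact h6.trans h8

open CategoryTheory in
/-- the final theorem in terms of these definitions -/
theorem exactT [CharZero k] (hd : IsDG G 𝓡 d) (hL : IsHL G 𝓡 d 𝓛 pr) (hr : RatR D R)
    (hfg : (⊤ : Subalgebra k L).FG) (hcen : Module.Finite (Subalgebra.center k L) L)
    (hsm : ∃ n : ℕ, HasProjectiveDimensionLT (ModuleCat.of (Gam k L) (RBi L)) n)
    (hprop : PropR D L) : ExactT 𝓡 D d := by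
  intro n hn z hz hb
  have h2 := tb_eq 𝓡 d n hz
  have h3 := dg_exact hd hL hr hfg hcen hsm hprop hn z ((Tc_iff 𝓡 n z).1 hz) (h2.symm.trans hb)
  obtain ⟨w, h4, h5⟩ := h3
  have h6 := (Tc_iff 𝓡 (n + 1) w).2 h4
  exact ⟨w, h6, (tb_eq 𝓡 d (n + 1) h6).trans h5⟩

open CategoryTheory in
/-- the final theorem in terms of these definitions, degeneration -/
theorem degenT [CharZero k] (hd : IsDG G 𝓡 d) (hL : IsHL G 𝓡 d 𝓛 pr) (hr : RatR D R)
    (hfg : (⊤ : Subalgebra k L).FG) (hcen : Module.Finite (Subalgebra.center k L) L)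
    (hsm : ∃ n : ℕ, HasProjectiveDimensionLT (ModuleCat.of (Gam k L) (RBi L)) n)
    (hprop : PropR D L) : DegenT 𝓡 D d := by
  intro M n z hz hb
  let B : ℤ → (∀ p : ℕ, HC k (Amb D R) p) →ₗ[k] (∀ p : ℕ, HC k (Amb D R) p) :=
    fun n => IsLinearMap.mk' (M.B n) (M.lin n)
  have hB : ∀ n z, IsCh (k := k) (A := Amb D R) (homq 𝓡) n z →
      IsCh (k := k) (A := Amb D R) (homq 𝓡) (n + 1) (B n z) := by
    intro n z hz
    have h1 := M.mem n z ((Tc_iff 𝓡 n z).2 hz)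
    exact (Tc_iff 𝓡 (n + 1) (M.B n z)).1 h1
  have hBB : ∀ n z, IsCh (k := k) (A := Amb D R) (homq 𝓡) n z → B (n + 1) (B n z) = 0 := by
    intro n z hz
    exact M.sq n z ((Tc_iff 𝓡 n z).2 hz)
  have hbB : ∀ n z, IsCh (k := k) (A := Amb D R) (homq 𝓡) n z →
      bd (k := k) (A := Amb D R) (lft (par (k := k) 𝓡)) (lft d) (n + 1) (B n z) +
        B (n - 1) (bd (k := k) (A := Amb D R) (lft (par (k := k) 𝓡)) (lft d) n z) = 0 := by
    intro n z hz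
    have hz' := (Tc_iff 𝓡 n z).2 hz
    have h1 := M.anti n z hz'
    have h2 := tb_eq 𝓡 d n hz'
    have h3 := tb_eq 𝓡 d (n + 1) (M.mem n z hz')
    rw [h2, h3] at h1
    exact h1
  have h2 := tb_eq 𝓡 d n hz
  have h4 := dg_lift hd hL hr hfg hcen hsm hprop B hB hBB hbB n z ((Tc_iff 𝓡 n z).1 hz)
    (h2.symm.trans hb)
  obtain ⟨Z, hZ0, hZ1, hZ2⟩ := h4
  refine ⟨Z, hZ0, fun i => (Tc_iff 𝓡 (n + 2 * i) (Z i)).2 (hZ1 i), fun i => ?_⟩
  have h5 := hZ1 (i + 1)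
  have e : n + 2 * ((i + 1 : ℕ) : ℤ) = n + 2 * i + 2 := by push_cast; ring
  rw [e] at h5
  have h6 := tb_eq 𝓡 d (n + 2 * i + 2) ((Tc_iff 𝓡 (n + 2 * i + 2) (Z (i + 1))).2 h5)
  have h7 := hZ2 i
  rw [← h6] at h7
  exact h7

end cat

end Pool.Agent.Helper49.HE.Stmt
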