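import Pool.Agent.Helper49.HE.Chains

/-!
# Project HE (MP_e5f486_ag): homogeneous cyclic words of a graded category
-/

set_option autoImplicit false
set_option linter.unusedSectionVars false

open Finset

namespace Pool.Agent.Helper49.HE

open Pool.Agent.Helper44.HD

section seqs

variable {Ω : Type}

/-- objects of the face `j` of a word -/
def cx (j : ℕ) (x : ℕ → Ω) : ℕ → Ω := fun i => if i ≤ j then x i else x (i + 1)

/-- degrees of the face `j` of a word -/
def ce {M : Type} [Add M] (j : ℕ) (e : ℕ → M) : ℕ → M := fun i =>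
  if i < j then e i else if i = j then e j + e (j + 1) else e (i + 1)

/-- objects of the last face -/
def lx (m : ℕ) (x : ℕ → Ω) : ℕ → Ω := fun i => if i = 0 then x m else x i

/-- degrees of the last face -/
def le' {M : Type} [Add M] (m : ℕ) (e : ℕ → M) : ℕ → M := fun i =>
  if i = 0 then e m + e 0 else e i

theorem sum_ce {M : Type} [AddCommMonoid M] (e : ℕ → M) (j p : ℕ) (hj : j ≤ p) :
    ∑ i ∈ range (p + 1), ce j e i = ∑ i ∈ range (p + 2), e i := by
  obtain ⟨d, rfl⟩ := Nat.exists_eq_add_of_le hj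
  clear hj
  induction d with
  | zero =>
    rw [sum_range_succ, add_zero, sum_range_succ e (j + 1), sum_range_succ e j]
    have h1 : ∑ i ∈ range j, ce j e i = ∑ i ∈ range j, e i :=
      sum_congr rfl fun i hi => by simp [ce, mem_range.1 hi]
    rw [h1]
    simp [ce, add_assoc]
  | succ d ih =>
    rw [sum_range_succ, sum_range_succ e (j + (d + 1) + 1)]
    have h1 : ce j e (j + (d + 1)) = e (j + (d + 1) + 1) := by
      have h2 : ¬ j + (d + 1) < j := by omega
      have h3 : ¬ j + (d + 1) = j := by omega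
      simp only [ce, h2, h3, if_false]
    rw [h1]
    congr 1

theorem sum_le {M : Type} [AddCommMonoid M] (e : ℕ → M) (p : ℕ) :
    ∑ i ∈ range (p + 1), le' (p + 1) e i = ∑ i ∈ range (p + 2), e i := by
  rw [sum_range_succ' _ p, sum_range_succ e (p + 1), sum_range_succ' e p]
  have h1 : ∑ i ∈ range p, le' (p + 1) e (i + 1) = ∑ i ∈ range p, e (i + 1) :=
    sum_congr rfl fun i _ => by simp [le']
  rw [h1]
  simp only [le', if_true]
  rw [add_comm (e (p + 1)), add_assoc]

end seqs

section words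

variable {k A B Ω : Type} [Field k] [Ring A] [Algebra k A] [Ring B] [Algebra k B]

/-- homogeneous cyclic words: `a_i : x_{i+1} → x_i` of degree `e_i` for `i ≤ p`, total degree `q` -/
structure IsW (H : ℤ → Ω → Ω → Submodule k A) (p : ℕ) (q : ℤ) (x : ℕ → Ω) (e : ℕ → ℤ)
    (a : ℕ → A) : Prop where
  mem : ∀ i, i ≤ p → a i ∈ H (e i) (x i) (x (i + 1))
  cl : x (p + 1) = x 0
  deg : ∑ i ∈ range (p + 1), e i = q

/-- the span of the homogeneous cyclic words of length `p + 1` and total degree `q` -/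
noncomputable def Cq (H : ℤ → Ω → Ω → Submodule k A) (p : ℕ) (q : ℤ) : Submodule k (HC k A p) :=
  Submodule.span k {z | ∃ (x : ℕ → Ω) (e : ℕ → ℤ) (a : ℕ → A), IsW H p q x e a ∧ z = tp k p a}

theorem IsW.in_Cq {H : ℤ → Ω → Ω → Submodule k A} {p : ℕ} {q : ℤ} {x : ℕ → Ω} {e : ℕ → ℤ}
    {a : ℕ → A} (h : IsW H p q x e a) : tp k p a ∈ Cq H p q :=
  Submodule.subset_span ⟨x, e, a, h, rfl⟩

/-- induction on `Cq`: a property closed under sums which holds for words -/
theorem Cq_ind {H : ℤ → Ω → Ω → Submodule k A} {p : ℕ} {q : ℤ} {P : HC k A p → Prop}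
    (hw : ∀ x e a, IsW H p q x e a → P (tp k p a)) (h0 : P 0)
    (ha : ∀ z z', P z → P z' → P (z + z')) (hs : ∀ (c : k) z, P z → P (c • z)) {z : HC k A p}
    (hz : z ∈ Cq H p q) : P z := by
  unfold Cq at hz
  refine Submodule.span_induction (p := fun z _ => P z) ?_ h0 (fun _ _ _ _ => ha _ _)
    (fun c _ _ => hs c _) hz
  rintro _ ⟨x, e, a, h, rfl⟩
  exact hw x e a h

/-- two linear maps which agree on words agree on `Cq` -/
theorem Cq_ext {C : Type} [AddCommGroup C] [Module k C] {H : ℤ → Ω → Ω → Submodule k A} {p : ℕ}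
    {q : ℤ} {f g : HC k A p →ₗ[k] C} (h : ∀ x e a, IsW H p q x e a → f (tp k p a) = g (tp k p a))
    {z : HC k A p} (hz : z ∈ Cq H p q) : f z = g z := by
  refine Cq_ind (P := fun z => f z = g z) h (by rw [map_zero, map_zero]) ?_ ?_ hz
  · intro z z' h1 h2
    rw [map_add, map_add, h1, h2]
  · intro c z h1
    rw [map_smul, map_smul, h1]

/-- a linear map which maps words to `Cq` -/
theorem Cq_map {H : ℤ → Ω → Ω → Submodule k A} {Ω' : Type} {H' : ℤ → Ω' → Ω' → Submodule k B}
    {p p' : ℕ} {q q' : ℤ} {f : HC k A p →ₗ[k] HC k B p'}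
    (h : ∀ x e a, IsW H p q x e a → f (tp k p a) ∈ Cq H' p' q')
    {z : HC k A p} (hz : z ∈ Cq H p q) : f z ∈ Cq H' p' q' := by
  refine Cq_ind (P := fun z => f z ∈ Cq H' p' q') h (by rw [map_zero]; exact zero_mem _) ?_ ?_ hz
  · intro z z' h1 h2
    rw [map_add]
    exact add_mem h1 h2
  · intro c z h1
    rw [map_smul]
    exact Submodule.smul_mem _ c h1

/-- closed under multiplication -/
def MulC (H : ℤ → Ω → Ω → Submodule k A) : Prop :=
  ∀ (q q' : ℤ) (x y z : Ω) (a b : A), a ∈ H q x y → b ∈ H q' y z → a * b ∈ H (q + q') x z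

theorem IsW.fct {H : ℤ → Ω → Ω → Submodule k A} (hm : MulC H) {p : ℕ} {q : ℤ} {x : ℕ → Ω}
    {e : ℕ → ℤ} {a : ℕ → A} (h : IsW H (p + 1) q x e a) {j : ℕ} (hj : j ≤ p) :
    IsW H p q (cx j x) (ce j e) (ct j a) := by
  refine ⟨fun i hi => ?_, ?_, ?_⟩
  · rcases lt_trichotomy i j with hij | hij | hij
    · have h1 : i ≤ j := hij.le
      have h2 : i + 1 ≤ j := hij
      simp only [ct, ce, cx, hij, if_true, h1, h2]
      exact h.mem i (by omega)
    · subst hij
      have h2 : ¬ i + 1 ≤ i := by omega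
      simp only [ct, ce, cx, lt_irrefl, if_false, if_true, le_refl, h2]
      exact hm _ _ _ _ _ _ _ (h.mem i (by omega)) (h.mem (i + 1) (by omega))
    · have h1 : ¬ i < j := by omega
      have h2 : ¬ i = j := by omega
      have h3 : ¬ i ≤ j := by omega
      have h4 : ¬ i + 1 ≤ j := by omega
      simp only [ct, ce, cx, h1, h2, h3, h4, if_false]
      exact h.mem (i + 1) (by omega)
  · have h1 : ¬ p + 1 ≤ j := by omega
    simp only [cx, h1, if_false, Nat.zero_le, if_true]
    exact h.cl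
  · rw [sum_ce e j p hj]
    exact h.deg

theorem IsW.fcyt {H : ℤ → Ω → Ω → Submodule k A} (hm : MulC H) {α : A → A}
    (hα : ∀ q x y a, a ∈ H q x y → α a ∈ H q x y) {p : ℕ} {q : ℤ} {x : ℕ → Ω}
    {e : ℕ → ℤ} {a : ℕ → A} (h : IsW H (p + 1) q x e a) :
    IsW H p q (lx (p + 1) x) (le' (p + 1) e) (cyt α (p + 1) a) := by
  refine ⟨fun i hi => ?_, ?_, ?_⟩
  · rcases Nat.eq_zero_or_pos i with h0 | h0
    · subst h0
      have h1 : ¬ (0 + 1 = 0) := by omega
      simp only [cyt, le', lx, if_true, h1, if_false]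
      have h2 := h.mem (p + 1) le_rfl
      rw [h.cl] at h2
      exact hm _ _ _ _ _ _ _ (hα _ _ _ _ h2) (h.mem 0 (by omega))
    · have h1 : ¬ i = 0 := by omega
      have h2 : ¬ i + 1 = 0 := by omega
      simp only [cyt, le', lx, h1, h2, if_false]
      exact h.mem i (by omega)
  · have h1 : ¬ p + 1 = 0 := by omega
    simp only [lx, h1, if_false, if_true]
  · rw [sum_le e p]
    exact h.deg

/-- all faces of words are words -/
theorem IsW.face {H : ℤ → Ω → Ω → Submodule k A} (hm : MulC H) {α : A → A}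
    (hα : ∀ q x y a, a ∈ H q x y → α a ∈ H q x y) {p : ℕ} {q : ℤ} {x : ℕ → Ω}
    {e : ℕ → ℤ} {a : ℕ → A} (h : IsW H (p + 1) q x e a) (j : ℕ) :
    ∃ x' e', IsW H p q x' e' (fc α p j a) := by
  by_cases hj : j ≤ p
  · simp only [fc, hj, if_true]
    exact ⟨_, _, h.fct hm hj⟩
  · simp only [fc, hj, if_false]
    exact ⟨_, _, h.fcyt hm hα⟩

theorem bt_mem {H : ℤ → Ω → Ω → Submodule k A} (hm : MulC H) {α : A →ₗ[k] A}
    (hα : ∀ q x y a, a ∈ H q x y → α a ∈ H q x y) {p : ℕ} {q : ℤ} {z : HC k A (p + 1)}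
    (hz : z ∈ Cq H (p + 1) q) : bt k α p z ∈ Cq H p q := by
  refine Cq_map (f := bt k α p) ?_ hz
  intro x e a h
  rw [bt_tp]
  refine Submodule.sum_mem _ fun j _ => Submodule.smul_mem _ _ ?_
  obtain ⟨x', e', h'⟩ := h.face hm hα j
  exact h'.in_Cq

/-- maps in the slots -/
theorem mp_mem {H : ℤ → Ω → Ω → Submodule k A} {H' : ℤ → Ω → Ω → Submodule k B}
    {f : ℕ → A →ₗ[k] B} {s : ℕ → ℤ} {p : ℕ} {q q' : ℤ}
    (hf : ∀ i, i ≤ p → ∀ e x y a, a ∈ H e x y → f i a ∈ H' (e + s i) x y)
    (hq : q + ∑ i ∈ range (p + 1), s i = q') {z : HC k A p} (hz : z ∈ Cq H p q) :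
    mp k f p z ∈ Cq H' p q' := by
  refine Cq_map (f := mp k f p) ?_ hz
  intro x e a h
  rw [mp_tp]
  refine IsW.in_Cq (x := x) (e := fun i => e i + s i) ⟨fun i hi => hf i hi _ _ _ _ (h.mem i hi),
    h.cl, ?_⟩
  rw [sum_add_distrib, h.deg, hq]

end words

section simp

variable {A : Type} [Ring A]

theorem ct_ct {i j : ℕ} (hij : i < j) (a : ℕ → A) : ct i (ct j a) = ct (j - 1) (ct i a) := by
  obtain ⟨l, rfl⟩ : ∃ l, j = l + 1 := ⟨j - 1, by omega⟩
  simp only [Nat.add_sub_cancel]
  funext m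
  rcases lt_trichotomy i l with h | h | h
  · simp only [ct]
    split_ifs <;> first | rfl | omega | (exfalso; omega) | (congr 1 <;> omega) | skip
  · subst h
    simp only [ct]
    split_ifs <;> first | rfl | omega | (exfalso; omega) | exact (mul_assoc _ _ _).symm | skip
  · omega

theorem ct_cyt {α : A → A} {n i : ℕ} (hi : i ≤ n) (a : ℕ → A) :
    ∀ m, m ≤ n → ct i (cyt α (n + 2) a) m = cyt α (n + 1) (ct i a) m := by
  intro m hm
  rcases Nat.eq_zero_or_pos m with h0 | h0
  · subst h0
    rcases Nat.eq_zero_or_pos i with h1 | h1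
    · subst h1
      have h2 : ¬ n + 1 < 0 := by omega
      have h3 : ¬ n + 1 = 0 := by omega
      simp only [ct, cyt, lt_irrefl, if_true, if_false, h2, h3]
      simp [mul_assoc]
    · have h2 : ¬ n + 1 < i := by omega
      have h3 : ¬ n + 1 = i := by omega
      simp only [ct, cyt, h1, if_true, h2, h3, if_false]
  · have h1 : ¬ m = 0 := by omega
    rcases lt_trichotomy m i with h | h | h
    · simp only [ct, cyt, h, h1, if_true, if_false]
    · subst h
      have h2 : ¬ m + 1 = 0 := by omega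
      simp only [ct, cyt, lt_irrefl, h1, h2, if_true, if_false]
    · have h2 : ¬ m < i := by omega
      have h3 : ¬ m = i := by omega
      have h4 : ¬ m + 1 = 0 := by omega
      simp only [ct, cyt, h1, h2, h3, h4, if_false]

end simp

section bb

variable {k A Ω : Type} [Field k] [Ring A] [Algebra k A]

/-- `b² = 0` on words -/
theorem bt_bt {H : ℤ → Ω → Ω → Submodule k A} {α : A →ₗ[k] A}
    (hα : ∀ (q q' : ℤ) (x y z : Ω) (a b : A), a ∈ H q x y → b ∈ H q' y z → α (a * b) = α a * α b)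
    {p : ℕ} {q : ℤ} {z : HC k A (p + 2)} (hz : z ∈ Cq H (p + 2) q) :
    bt k α p (bt k α (p + 1) z) = 0 := by
  have h0 : bt k α p (bt k α (p + 1) z) = (0 : HC k A (p + 2) →ₗ[k] HC k A p) z := by
    refine Cq_ext (f := bt k α p ∘ₗ bt k α (p + 1)) ?_ hz
    intro x e a h
    rw [LinearMap.comp_apply, bt_tp, map_sum, LinearMap.zero_apply]
    simp only [map_smul, bt_tp]
    refine alt_sum (k := k) p (fun j i => tp k p (fc α p i (fc α (p + 1) j a))) ?_
    intro i j hij hj
    refine tp_congr k fun m hm => ?_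
    rcases Nat.lt_or_ge j (p + 2) with h1 | h1
    · have h2 : i ≤ p := by omega
      have h3 : j ≤ p + 1 := by omega
      have h4 : i ≤ p + 1 := by omega
      have h5 : j - 1 ≤ p := by omega
      simp only [fc, h2, h3, h4, h5, if_true]
      rw [ct_ct hij]
    · obtain rfl : j = p + 2 := by omega
      have h2 : ¬ p + 2 ≤ p + 1 := by omega
      have h3 : ¬ p + 2 - 1 ≤ p := by omega
      have h4 : i ≤ p + 1 := by omega
      simp only [fc, h2, h3, h4, if_true, if_false]
      rcases Nat.lt_or_ge i (p + 1) with h5 | h5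
      · have h6 : i ≤ p := by omega
        simp only [h6, if_true]
        exact ct_cyt h6 a m hm
      · obtain rfl : i = p + 1 := by omega
        have h6 : ¬ p + 1 ≤ p := by omega
        simp only [h6, if_false]
        rcases Nat.eq_zero_or_pos m with hm0 | hm0
        · subst hm0
          have e1 := h.mem (p + 1) (by omega)
          have e2 := h.mem (p + 2) le_rfl
          have e3 := hα _ _ _ _ _ _ _ e1 e2
          have h7 : ¬ p + 1 = 0 := by omega
          have h8 : (0 : ℕ) < p + 1 := by omega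
          simp only [cyt, ct, if_true, h7, if_false, lt_irrefl, h8]
          rw [e3, mul_assoc]
        · have h7 : ¬ m = 0 := by omega
          have h8 : m < p + 1 := by omega
          simp only [cyt, ct, h7, h8, if_true, if_false]
  rw [h0, LinearMap.zero_apply]

end bb

end Pool.Agent.Helper49.HE
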