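import Pool.Agent.Helper49.HE.Trace
import Pool.Agent.Helper49.HE.Words

/-!
# Project HE (MP_e5f486_ag): maps of Hochschild chains given by matrices of linear maps
-/

set_option autoImplicit false
set_option linter.unusedSectionVars false

open Finset

namespace Pool.Agent.Helper49.HE

open Pool.Agent.Helper44.HD Pool.Agent.Helper1.HD

section wd

variable {k A Ω : Type} [Field k] [Ring A] [Algebra k A]

/-- the span of the cyclic words -/
noncomputable def Wd (H0 : Ω → Ω → Submodule k A) (n : ℕ) : Submodule k (HC k A n) :=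
  Submodule.span k {z | ∃ (x : ℕ → Ω) (a : ℕ → A),
    (∀ i, i ≤ n → a i ∈ H0 (x i) (x (i + 1))) ∧ x (n + 1) = x 0 ∧ z = tp k n a}

theorem Wd_in {H0 : Ω → Ω → Submodule k A} {n : ℕ} {x : ℕ → Ω} {a : ℕ → A}
    (h : ∀ i, i ≤ n → a i ∈ H0 (x i) (x (i + 1))) (hx : x (n + 1) = x 0) :
    tp k n a ∈ Wd H0 n := Submodule.subset_span ⟨x, a, h, hx, rfl⟩

theorem Wd_ind {H0 : Ω → Ω → Submodule k A} {n : ℕ} {P : HC k A n → Prop}
    (hw : ∀ (x : ℕ → Ω) (a : ℕ → A), (∀ i, i ≤ n → a i ∈ H0 (x i) (x (i + 1))) →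
      x (n + 1) = x 0 → P (tp k n a)) (h0 : P 0)
    (ha : ∀ z z', P z → P z' → P (z + z')) (hs : ∀ (c : k) z, P z → P (c • z)) {z : HC k A n}
    (hz : z ∈ Wd H0 n) : P z := by
  unfold Wd at hz
  refine Submodule.span_induction (p := fun z _ => P z) ?_ h0 (fun _ _ _ _ => ha _ _)
    (fun c _ _ => hs c _) hz
  rintro _ ⟨x, a, h, hx, rfl⟩
  exact hw x a h hx

theorem Wd_ext {C : Type} [AddCommGroup C] [Module k C] {H0 : Ω → Ω → Submodule k A} {n : ℕ}
    {f g : HC k A n →ₗ[k] C} (h : ∀ (x : ℕ → Ω) (a : ℕ → A),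
      (∀ i, i ≤ n → a i ∈ H0 (x i) (x (i + 1))) → x (n + 1) = x 0 → f (tp k n a) = g (tp k n a))
    {z : HC k A n} (hz : z ∈ Wd H0 n) : f z = g z := by
  refine Wd_ind (P := fun z => f z = g z) h (by rw [map_zero, map_zero]) ?_ ?_ hz
  · intro z z' h1 h2
    rw [map_add, map_add, h1, h2]
  · intro c z h1
    rw [map_smul, map_smul, h1]

/-- the words with objects in a finite set -/
noncomputable def WdT (H0 : Ω → Ω → Submodule k A) (T : Finset Ω) (n : ℕ) :
    Submodule k (HC k A n) := Wd (Ω := {x // x ∈ T}) (fun x y => H0 x.1 y.1) n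

theorem WdT_fin {H0 : Ω → Ω → Submodule k A} {n : ℕ} {z : HC k A n} (hz : z ∈ Wd H0 n) :
    ∃ S : Finset Ω, ∀ T, S ⊆ T → z ∈ WdT H0 T n := by
  classical
  refine Wd_ind (P := fun z => ∃ S : Finset Ω, ∀ T, S ⊆ T → z ∈ WdT H0 T n) ?_ ?_ ?_ ?_ hz
  · intro x a h hx
    refine ⟨(range (n + 2)).image x, fun T hT => ?_⟩
    have h1 : ∀ i, i ≤ n + 1 → x i ∈ T := fun i hi =>
      hT (mem_image_of_mem x (mem_range.2 (by omega)))
    refine Wd_in (x := fun i => if hi : i ≤ n + 1 then ⟨x i, h1 i hi⟩ else ⟨x 0, h1 0 (by omega)⟩)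
      (fun i hi => ?_) ?_
    · have h2 : i ≤ n + 1 := by omega
      have h3 : i + 1 ≤ n + 1 := by omega
      simp only [h2, h3, dif_pos]
      exact h i hi
    · have h2 : 0 ≤ n + 1 := by omega
      simp only [le_refl, h2, dif_pos]
      exact Subtype.ext hx
  · exact ⟨∅, fun T _ => zero_mem _⟩
  · rintro z z' ⟨S, hS⟩ ⟨S', hS'⟩
    exact ⟨S ∪ S', fun T hT => add_mem (hS T (union_subset_left hT))
      (hS' T (union_subset_right hT))⟩
  · rintro c z ⟨S, hS⟩
    exact ⟨S, fun T hT => Submodule.smul_mem _ c (hS T hT)⟩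

end wd

section trf

variable {k A B κ : Type} [Field k] [Ring A] [Algebra k A] [Ring B] [Algebra k B] [Fintype κ]

/-- the matrices of a word -/
def mw (L K : κ → κ → A →ₗ[k] B) (a : ℕ → A) : ℕ → Matrix κ κ B := fun j i l =>
  if j = 0 then L i l (a j) else K i l (a j)

theorem trf_coch (L K : κ → κ → A →ₗ[k] B) (n : ℕ) :
    Coch k n (fun a : ℕ → A => tv k n (mw L K a)) := by
  refine (tv_coch n).comp (fun j (a : A) => (fun i l => if j = 0 then L i l a else K i l a :
    Matrix κ κ B)) ?_ ?_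
  · intro j a b
    ext i l
    by_cases h : j = 0
    · simp only [h, if_true, map_add, Matrix.add_apply]
    · simp only [h, if_false, map_add, Matrix.add_apply]
  · intro j c a
    ext i l
    by_cases h : j = 0
    · simp only [h, if_true, map_smul, Matrix.smul_apply]
    · simp only [h, if_false, map_smul, Matrix.smul_apply]

/-- the map of chains given by the matrix `L` in the slot `0` and `K` in the others -/
noncomputable def trf (L K : κ → κ → A →ₗ[k] B) (n : ℕ) : HC k A n →ₗ[k] HC k B n :=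
  (trf_coch L K n).lin

theorem trf_tp (L K : κ → κ → A →ₗ[k] B) (n : ℕ) (a : ℕ → A) :
    trf L K n (tp k n a) = tv k n (mw L K a) := (trf_coch L K n).lin_tp a

theorem trf_sum (L K : κ → κ → A →ₗ[k] B) (n : ℕ) (a : ℕ → A) :
    trf L K n (tp k n a) = ∑ ι : Fin (n + 1) → κ,
      tp k n fun j => mw L K a j (ex n ι j) (ex n ι (j + 1)) := trf_tp L K n a

/-- compatibility with the boundaries -/
theorem trf_bt {Ω : Type} {H0 : Ω → Ω → Submodule k A} {L K : κ → κ → A →ₗ[k] B}
    {α : A →ₗ[k] A} {β : B →ₗ[k] B}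
    (h1 : ∀ x y z a b, a ∈ H0 x y → b ∈ H0 y z → ∀ i l, ∑ m, K i m a * K m l b = K i l (a * b))
    (h2 : ∀ x y z a b, a ∈ H0 x y → b ∈ H0 y z → ∀ i l, ∑ m, L i m a * K m l b = L i l (a * b))
    (h3 : ∀ x y z b a, b ∈ H0 x y → a ∈ H0 y z → ∀ i l,
      ∑ m, β (K i m b) * L m l a = L i l (α b * a)) {n : ℕ} {z : HC k A (n + 1)}
    (hz : z ∈ Wd H0 (n + 1)) : bt k β n (trf L K (n + 1) z) = trf L K n (bt k α n z) := by
  refine Wd_ext (f := bt k β n ∘ₗ trf L K (n + 1)) (g := trf L K n ∘ₗ bt k α n) ?_ hz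
  intro x a ha hx
  rw [LinearMap.comp_apply, LinearMap.comp_apply, trf_tp, bt_tp, map_sum,
    bt_tv n (mw L K a) β (fun M => M.map β) (fun i j => rfl)]
  refine sum_congr rfl fun j hj => ?_
  rw [map_smul, trf_tp]
  congr 1
  refine (tv_coch n).dep _ _ fun i hi => ?_
  by_cases hjn : j ≤ n
  · simp only [fc, hjn, if_true]
    rcases lt_trichotomy i j with h | h | h
    · ext u v
      simp only [ct, mw, h, if_true]
    · subst h
      ext u v
      have hmem := ha i (by omega)
      have hmem' := ha (i + 1) (by omega)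
      have h0 : ¬ i + 1 = 0 := by omega
      simp only [ct, mw, lt_irrefl, if_false, if_true, Matrix.mul_apply, h0]
      by_cases hi0 : i = 0
      · simp only [hi0, if_true]
        rw [hi0] at hmem hmem'
        exact h2 _ _ _ _ _ hmem hmem' u v
      · simp only [hi0, if_false]
        exact h1 _ _ _ _ _ hmem hmem' u v
    · ext u v
      have h3 : ¬ i < j := by omega
      have h4 : ¬ i = j := by omega
      have h5 : ¬ i + 1 = 0 := by omega
      have h6 : ¬ i = 0 := by omega
      simp only [ct, mw, h3, h4, h5, h6, if_false]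
  · simp only [fc, hjn, if_false]
    by_cases hi0 : i = 0
    · subst hi0
      ext u v
      have hmem := ha (n + 1) le_rfl
      have hmem' := ha 0 (by omega)
      rw [hx] at hmem
      have h0 : ¬ n + 1 = 0 := by omega
      simp only [cyt, mw, if_true, Matrix.mul_apply, h0, if_false, Matrix.map_apply]
      exact h3 _ _ _ _ _ hmem hmem' u v
    · ext u v
      simp only [cyt, mw, hi0, if_false]

/-- words go to words -/
theorem trf_mem {Ω Ω' : Type} {H0 : Ω → Ω → Submodule k A} {H1 : Ω' → Ω' → Submodule k B}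
    {L K : κ → κ → A →ₗ[k] B} (o : κ → Ω → Ω')
    (h1 : ∀ x y a, a ∈ H0 x y → ∀ i l, K i l a ∈ H1 (o i x) (o l y))
    (h2 : ∀ x y a, a ∈ H0 x y → ∀ i l, L i l a ∈ H1 (o i x) (o l y)) {n : ℕ} {z : HC k A n}
    (hz : z ∈ Wd H0 n) : trf L K n z ∈ Wd H1 n := by
  refine Wd_ind (P := fun z => trf L K n z ∈ Wd H1 n) ?_ (by rw [map_zero]; exact zero_mem _)
    ?_ ?_ hz
  · intro x a ha hx
    rw [trf_sum]
    refine Submodule.sum_mem _ fun ι _ => ?_
    refine Wd_in (x := fun j => o (ex n ι j) (x j)) (fun i hi => ?_) ?_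
    · by_cases h : i = 0
      · simp only [mw, h, if_true]
        have := ha i hi
        rw [h] at this
        exact h2 _ _ _ this _ _
      · simp only [mw, h, if_false]
        exact h1 _ _ _ (ha i hi) _ _
    · rw [ex_top, hx, ex_lt ι (show 0 < n + 1 by omega)]
      rfl
  · intro z z' h h'
    rw [map_add]
    exact add_mem h h'
  · intro c z h
    rw [map_smul]
    exact Submodule.smul_mem _ c h

end trf

section count

/-- sums over labels of a cyclic word -/
theorem count_two {M : Type} [AddCommMonoid M] (n : ℕ) (e : ℕ → ZMod 2)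
    (he : ∑ i ∈ range (n + 1), e i = 0) (F : (Fin (n + 1) → ZMod 2) → M) (v : M)
    (h1 : ∀ ι, (∀ j, j ≤ n → ex n ι j + ex n ι (j + 1) = e j) → F ι = v)
    (h2 : ∀ ι, (∃ j, j ≤ n ∧ ex n ι j + ex n ι (j + 1) ≠ e j) → F ι = 0) :
    ∑ ι, F ι = v + v := by
  classical
  let L : ZMod 2 → Fin (n + 1) → ZMod 2 := fun c j => c + ∑ i ∈ range j.1, e i
  have hL : ∀ c j, j ≤ n + 1 → ex n (L c) j = c + ∑ i ∈ range j, e i := by
    intro c j hj
    rcases Nat.lt_or_ge j (n + 1) with h | h
    · rw [ex_lt _ h]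
    · obtain rfl : j = n + 1 := by omega
      rw [ex_top, he]
      simp [L]
  have h2' : ∀ c : ZMod 2, c + c = 0 := by decide
  have hinj : Function.Injective L := by
    intro c c' h
    have := congrFun h 0
    simpa [L] using this
  have hs : ∑ ι ∈ univ.image L, F ι = ∑ ι, F ι := by
    refine sum_subset (subset_univ _) ?_
    intro ι _ hι
    refine h2 ι ?_
    by_contra hcon
    refine hι (mem_image.2 ⟨ex n ι 0, mem_univ _, ?_⟩)
    have hall : ∀ j, j ≤ n → ex n ι j + ex n ι (j + 1) = e j := by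
      intro j hj
      by_contra hne
      exact hcon ⟨j, hj, hne⟩
    have hj : ∀ j, j ≤ n → ex n ι j = ex n ι 0 + ∑ i ∈ range j, e i := by
      intro j
      induction j with
      | zero => intro _; simp
      | succ j ih =>
        intro hj
        rw [sum_range_succ, ← add_assoc, ← ih (by omega), ← hall j (by omega), ← add_assoc, h2',
          zero_add]
    funext j
    have := hj j.1 (by omega)
    rw [ex_lt ι j.2] at this
    exact this.symm
  rw [← hs, sum_image fun c _ c' _ h => hinj h]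
  have hc : ∀ c, F (L c) = v := by
    intro c
    refine h1 _ fun j hj => ?_
    rw [hL c j (by omega), hL c (j + 1) (by omega), sum_range_succ]
    have : c + ∑ i ∈ range j, e i + (c + (∑ i ∈ range j, e i + e j)) =
        (c + c) + ((∑ i ∈ range j, e i) + ∑ i ∈ range j, e i) + e j := by ring
    rw [this, h2', h2', zero_add, zero_add]
  simp only [hc]
  rw [sum_const, card_univ, ZMod.card, two_nsmul]

end count

end Pool.Agent.Helper49.HE
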