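import Pool.Agent.Helper49.HE.Chains
import Pool.Agent.Helper1.HD.TR

/-!
# Project HE (MP_e5f486_ag): the generalized trace of words of matrices
-/

set_option autoImplicit false
set_option linter.unusedSectionVars false

open Finset

namespace Pool.Agent.Helper49.HE

open Pool.Agent.Helper44.HD Pool.Agent.Helper1.HD

variable {k E κ : Type} [Field k] [Ring E] [Algebra k E] [Fintype κ]

variable (k) in
/-- the generalized trace `∑ (x_0)_{ι_0 ι_1} ⊗ (x_1)_{ι_1 ι_2} ⊗ .. ⊗ (x_n)_{ι_n ι_0}` -/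
noncomputable def tv (n : ℕ) (x : ℕ → Matrix κ κ E) : HC k E n :=
  ∑ ι : Fin (n + 1) → κ, tp k n fun j => x j (ex n ι j) (ex n ι (j + 1))

theorem tv_coch (n : ℕ) : Coch k n (tv k n : (ℕ → Matrix κ κ E) → HC k E n) := by
  refine Coch.sumc (k := k) (A := Matrix κ κ E) Finset.univ
    (fun (ι : Fin (n + 1) → κ) (x : ℕ → Matrix κ κ E) =>
      tp k n fun j => x j (ex n ι j) (ex n ι (j + 1))) ?_
  intro ι _
  exact (tp_coch k n).comp (fun j (M : Matrix κ κ E) => M (ex n ι j) (ex n ι (j + 1)))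
    (fun i a b => rfl) (fun i c a => rfl)

theorem sum_insV {M : Type} [AddCommMonoid M] {n j : ℕ} (hj : j ≤ n) (F : (Fin (n + 2) → κ) → M) :
    ∑ ι', F ι' = ∑ ι : Fin (n + 1) → κ, ∑ c, F (ins hj c ι) := by
  rw [Finset.sum_comm, ← Fintype.sum_prod_type' (fun c ι => F (ins hj c ι))]
  exact (Equiv.sum_comp (Fin.insertNthEquiv (fun _ : Fin (n + 2) => κ)
    (⟨j + 1, by omega⟩ : Fin (n + 2))) F).symm

theorem sum_cyiV {M : Type} [AddCommMonoid M] {n : ℕ} (F : (Fin (n + 2) → κ) → M) :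
    ∑ ι', F ι' = ∑ ι : Fin (n + 1) → κ, ∑ c, F (cyi c ι) := by
  rw [Finset.sum_comm]
  have h1 : ∑ ι', F ι' = ∑ c, ∑ ι : Fin (n + 1) → κ, F (Fin.cons (α := fun _ => κ) c ι) := by
    rw [← Fintype.sum_prod_type' (fun c (ι : Fin (n + 1) → κ) =>
      F (Fin.cons (α := fun _ => κ) c ι))]
    exact (Equiv.sum_comp (Fin.consEquiv (fun _ : Fin (n + 2) => κ)) F).symm
  rw [h1]
  refine sum_congr rfl fun c _ => ?_
  exact (Equiv.sum_comp ((Equiv.addRight (1 : Fin (n + 1))).symm.arrowCongr (Equiv.refl κ))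
    (fun ι => F (Fin.cons (α := fun _ => κ) c ι))).symm

theorem face_ctV {n : ℕ} (x : ℕ → Matrix κ κ E) {j : ℕ} (hj : j ≤ n) :
    tv k n (ct j x) = ∑ ι : Fin (n + 2) → κ,
      tp k n (ct j fun i => x i (ex (n + 1) ι i) (ex (n + 1) ι (i + 1))) := by
  have h := tp_coch k n (A := E)
  rw [sum_insV hj]
  refine sum_congr rfl fun ι _ => ?_
  let B : ℕ → E := fun i => ct j x i (ex n ι i) (ex n ι (i + 1))
  have hB : tp k n B = tp k n (Function.update B j
      (∑ c, x j (ex n ι j) c * x (j + 1) c (ex n ι (j + 1)))) := by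
    congr 1
    rw [eq_comm]
    have h1 : ∑ c, x j (ex n ι j) c * x (j + 1) c (ex n ι (j + 1)) = B j := by
      simp only [B, ct, lt_irrefl, if_false, if_true, Matrix.mul_apply]
    rw [h1]
    exact Function.update_eq_self j B
  change tp k n B = _
  rw [hB, h.update_sum _ _ hj]
  refine sum_congr rfl fun c _ => ?_
  refine h.dep _ _ fun i hi => ?_
  rcases lt_trichotomy i j with hij | hij | hij
  · rw [Function.update_of_ne hij.ne]
    simp only [B, ct, hij, if_true]
    rw [ins_lo hj c ι hij.le, ins_lo hj c ι (show i + 1 ≤ j by omega)]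
  · subst hij
    rw [Function.update_self]
    simp only [ct, lt_irrefl, if_false, if_true]
    rw [ins_lo hj c ι le_rfl, ins_mid hj c ι, ins_hi hj c ι (i := i + 1) le_rfl (by omega)]
  · rw [Function.update_of_ne hij.ne']
    have h2 : ¬ i < j := by omega
    have h3 : ¬ i = j := by omega
    simp only [B, ct, h2, h3, if_false]
    rw [ins_hi hj c ι (i := i) (by omega) (by omega),
      ins_hi hj c ι (i := i + 1) (by omega) (by omega)]

theorem face_cyV {n : ℕ} (x : ℕ → Matrix κ κ E) (α : E →ₗ[k] E) (β : Matrix κ κ E → Matrix κ κ E)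
    (hβ : ∀ i j, β (x (n + 1)) i j = α (x (n + 1) i j)) :
    tv k n (cyt β (n + 1) x) = ∑ ι : Fin (n + 2) → κ,
      tp k n (cyt α (n + 1) fun i => x i (ex (n + 1) ι i) (ex (n + 1) ι (i + 1))) := by
  have h := tp_coch k n (A := E)
  rw [sum_cyiV]
  refine sum_congr rfl fun ι _ => ?_
  let B : ℕ → E := fun i => cyt β (n + 1) x i (ex n ι i) (ex n ι (i + 1))
  have hB : tp k n B = tp k n (Function.update B 0
      (∑ c, α (x (n + 1) (ex n ι 0) c) * x 0 c (ex n ι (0 + 1)))) := by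
    congr 1
    rw [eq_comm]
    have h1 : ∑ c, α (x (n + 1) (ex n ι 0) c) * x 0 c (ex n ι (0 + 1)) = B 0 := by
      simp only [B, cyt, if_true, Matrix.mul_apply, hβ]
    rw [h1]
    exact Function.update_eq_self 0 B
  change tp k n B = _
  rw [hB, h.update_sum _ _ (Nat.zero_le n)]
  refine sum_congr rfl fun c _ => ?_
  refine h.dep _ _ fun i hi => ?_
  rcases Nat.eq_zero_or_pos i with hi0 | hi0
  · subst hi0
    rw [Function.update_self]
    simp only [cyt, if_true]
    rw [cyi_zero, cyi_top, cyi_succ c ι (i := n) le_rfl, cyi_succ c ι (i := 0) (Nat.zero_le n)]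
    rw [ex_top, ex_lt _ (show 0 < n + 1 by omega)]
    rfl
  · rw [Function.update_of_ne (by omega)]
    have h3 : ¬ i = 0 := by omega
    simp only [B, cyt, h3, if_false]
    obtain ⟨l, rfl⟩ : ∃ l, i = l + 1 := ⟨i - 1, by omega⟩
    rw [cyi_succ c ι (i := l) (by omega), cyi_succ c ι (i := l + 1) hi]

/-- the boundary of a generalized trace -/
theorem bt_tv (n : ℕ) (x : ℕ → Matrix κ κ E) (α : E →ₗ[k] E) (β : Matrix κ κ E → Matrix κ κ E)
    (hβ : ∀ i j, β (x (n + 1)) i j = α (x (n + 1) i j)) :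
    bt k α n (tv k (n + 1) x) = ∑ j ∈ range (n + 2), (-1 : k) ^ j • tv k n (fc β n j x) := by
  unfold tv
  rw [map_sum]
  simp only [bt_tp]
  rw [sum_comm]
  refine sum_congr rfl fun j hj => ?_
  rw [← smul_sum]
  congr 1
  by_cases h : j ≤ n
  · simp only [fc, h, if_true]
    exact (face_ctV x h).symm
  · simp only [fc, h, if_false]
    exact (face_cyV x α β hβ).symm

end Pool.Agent.Helper49.HE
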