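import Pool.Agent.Helper49.HE.PM
import Pool.Agent.Helper49.HE.TrF

/-!
# Project HE (MP_e5f486_ag): representations of `G × {1, -1}` and of `G`
-/

set_option autoImplicit false
set_option linter.unusedSectionVars false

open Finset

namespace Pool.Agent.Helper49.HE

open Pool.Agent.Helper44.HD

section up

variable {k G : Type} [Field k] [Group G]

theorem em_ap' {D : RedGroup k G} {R : Type} [Ring R] [Algebra k R] {x y : Ob D}
    (P : Matrix (Fin x.1) (Fin y.1) R) (v : Ix D →₀ R) : (em x y P : Amb D R) v =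
      ∑ i, ∑ j, Finsupp.single (⟨x, i⟩ : Ix D) (P i j * v ⟨y, j⟩) := by
  change (∑ i, ∑ j, Finsupp.lsingle (⟨x, i⟩ : Ix D) ∘ₗ LinearMap.mulLeft k (P i j) ∘ₗ
    Finsupp.lapply (⟨y, j⟩ : Ix D) : (Ix D →₀ R) →ₗ[k] (Ix D →₀ R)) v = _
  rw [LinearMap.sum_apply]
  refine sum_congr rfl fun i _ => ?_
  rw [LinearMap.sum_apply]
  rfl

theorem em_congr {D : RedGroup k G} {R : Type} [Ring R] [Algebra k R] {x x' y y' : Ob D}
    (hx : x' = x) (hy : y' = y) (P : Matrix (Fin x.1) (Fin y.1) R)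
    (P' : Matrix (Fin x'.1) (Fin y'.1) R)
    (h : ∀ (i : Fin x.1) (j : Fin y.1) (i' : Fin x'.1) (j' : Fin y'.1), i'.1 = i.1 → j'.1 = j.1 →
      P' i' j' = P i j) : em x' y' P' = (em x y P : Amb D R) := by
  subst hx
  subst hy
  congr 1
  ext i j
  exact h i j i j rfl rfl

theorem MRep_ext {D : RedGroup k G} {w : Type} [Fintype w] [DecidableEq w] {V W : MRep D w}
    (h : ∀ g, V.m g = W.m g) : V = W := by
  cases V
  cases W
  congr 1
  funext g
  exact h g

variable [CharZero k] {D : RedGroup k G}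

/-- the characters of `{1, -1}` -/
def chs (k : Type) [Field k] (χ : ZMod 2) (ε : ℤˣ) : k := if χ = 0 then 1 else ((ε : ℤ) : k)

theorem chs_one (χ : ZMod 2) : chs k χ 1 = 1 := by
  unfold chs
  split_ifs <;> simp

theorem chs_mul (χ : ZMod 2) (ε η : ℤˣ) : chs k χ (ε * η) = chs k χ ε * chs k χ η := by
  unfold chs
  split_ifs <;> simp

theorem zm2 (χ : ZMod 2) : χ = 0 ∨ χ = 1 := by
  revert χ
  decide

theorem chs_sq (χ : ZMod 2) : chs k χ (-1) * chs k χ (-1) = 1 := by
  unfold chs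
  split_ifs <;> simp

/-- `V` with the sign character `χ` -/
def upM {w : Type} [Fintype w] [DecidableEq w] (χ : ZMod 2) (V : MRep D w) : MRep (pm D) w where
  m p := chs k χ p.2 • V.m p.1
  one := by
    change chs k χ 1 • V.m 1 = 1
    rw [chs_one, one_smul, V.one]
  mul p p' := by
    change chs k χ (p.2 * p'.2) • V.m (p.1 * p'.1) = _
    rw [chs_mul, V.mul, smul_mul_smul_comm]
  rat i j := by
    intro ε
    exact D.O.smul_mem (V.rat i j) (chs k χ ε)

/-- the object `x` with the sign character `χ` -/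
def up (χ : ZMod 2) (x : Ob D) : Ob (pm D) := ⟨x.1, upM χ x.2⟩

/-- the object as an object for `G` -/
def dn (x : Ob (pm D)) : Ob D := ⟨x.1, rs x.2⟩

theorem dn_up (χ : ZMod 2) (x : Ob D) : dn (up χ x) = x := by
  refine Sigma.ext rfl (heq_of_eq (MRep_ext fun g => ?_))
  change chs k χ 1 • x.2.m g = x.2.m g
  rw [chs_one, one_smul]

theorem up_inj (χ : ZMod 2) : Function.Injective (up (D := D) χ) := fun x y h => by
  rw [← dn_up χ x, ← dn_up χ y, h]

/-- coordinates -/
def ixm (χ : ZMod 2) : Ix D → Ix (pm D) := Sigma.map (up χ) fun _ i => i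

theorem ixm_inj (χ : ZMod 2) : Function.Injective (ixm (D := D) χ) :=
  Function.Injective.sigma_map (up_inj χ) fun _ => Function.injective_id

variable {R : Type} [Ring R] [Algebra k R]

/-- the corner `(χ, χ')` -/
noncomputable def Uc (χ χ' : ZMod 2) : Amb D R →ₗ[k] Amb (pm D) R where
  toFun f := Finsupp.lmapDomain R k (ixm χ) ∘ₗ f ∘ₗ Finsupp.lcomapDomain (ixm χ') (ixm_inj χ')
  map_add' f g := by
    apply LinearMap.ext
    intro v
    simp only [LinearMap.comp_apply, LinearMap.add_apply, map_add]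
  map_smul' c f := by
    apply LinearMap.ext
    intro v
    simp only [LinearMap.comp_apply, LinearMap.smul_apply, map_smul, RingHom.id_apply]

theorem Uc_em (χ χ' : ZMod 2) (x y : Ob D) (P : Matrix (Fin x.1) (Fin y.1) R) :
    Uc χ χ' (em x y P : Amb D R) = em (up χ x) (up χ' y) P := by
  apply LinearMap.ext
  intro v
  rw [em_ap']
  change Finsupp.lmapDomain R k (ixm χ) ((em x y P : Amb D R)
    (Finsupp.lcomapDomain (R := k) (ixm χ') (ixm_inj χ') v)) = _
  rw [em_ap', map_sum]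
  refine sum_congr rfl fun i _ => ?_
  rw [map_sum]
  refine sum_congr rfl fun j _ => ?_
  rw [Finsupp.lmapDomain_apply, Finsupp.mapDomain_single]
  rfl

variable (𝓡 : ℤ → Submodule k R) [GradedAlgebra 𝓡]

/-- the part of the parity `c` -/
noncomputable def prc (c : ZMod 2) : R →ₗ[k] R := wt 𝓡 fun q => if (q : ZMod 2) = c then 1 else 0

/-- the parity automorphism -/
noncomputable def par : R →ₗ[k] R := wt 𝓡 fun q => (-1 : k) ^ q

theorem prc_mul (c c' : ZMod 2) (a b : R) :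
    ∑ m : ZMod 2, prc 𝓡 (c + m) a * prc 𝓡 (m + c') b = prc (k := k) 𝓡 (c + c') (a * b) := by
  have h1 := gr_ext 𝓡
    (f := ∑ m : ZMod 2, LinearMap.mulRight k (prc 𝓡 (m + c') b) ∘ₗ prc 𝓡 (c + m))
    (g := prc (k := k) 𝓡 (c + c') ∘ₗ LinearMap.mulRight k b) (fun q a ha => by
      have h2 := gr_ext 𝓡
        (f := ∑ m : ZMod 2, LinearMap.mulLeft k (prc (k := k) 𝓡 (c + m) a) ∘ₗ prc 𝓡 (m + c'))
        (g := prc (k := k) 𝓡 (c + c') ∘ₗ LinearMap.mulLeft k a) (fun q' b hb => by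
          rw [LinearMap.sum_apply]
          simp only [LinearMap.comp_apply, LinearMap.mulLeft_apply]
          unfold prc
          rw [wt_apply 𝓡 _ (SetLike.mul_mem_graded ha hb)]
          simp only [wt_apply 𝓡 _ ha, wt_apply 𝓡 _ hb]
          simp only [smul_mul_smul_comm]
          rw [← sum_smul]
          congr 1
          push_cast
          generalize (q : ZMod 2) = u
          generalize (q' : ZMod 2) = u'
          have h3 : ∀ m : ZMod 2, ((if u = c + m then (1 : k) else 0) *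
              if u' = m + c' then 1 else 0) =
              if u = c + m ∧ u' = m + c' then 1 else 0 := by
            intro m
            by_cases h : u = c + m <;> by_cases h' : u' = m + c' <;> simp [h, h']
          simp only [h3]
          have h4 : (∑ m : ZMod 2, if u = c + m ∧ u' = m + c' then (1 : ℕ) else 0) =
              if u + u' = c + c' then 1 else 0 := by
            clear h3
            revert u u' c c'
            decide
          have h5 := congrArg (Nat.cast : ℕ → k) h4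
          push_cast at h5
          exact h5) b
      rw [LinearMap.sum_apply] at h2 ⊢
      exact h2) a
  rw [LinearMap.sum_apply] at h1
  exact h1

theorem cast_even {q : ℤ} (h : Even q) : (q : ZMod 2) = 0 := by
  obtain ⟨r, rfl⟩ := h
  push_cast
  generalize (r : ZMod 2) = c
  revert c
  decide

theorem cast_odd {q : ℤ} (h : Odd q) : (q : ZMod 2) = 1 := by
  obtain ⟨r, rfl⟩ := h
  push_cast
  generalize (r : ZMod 2) = c
  revert c
  decide

omit [CharZero k] in
theorem chs_par {q : ℤ} {c c' : ZMod 2} (h : (q : ZMod 2) = c + c') :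
    chs k c' (-1) = chs k c (-1) * (-1) ^ q := by
  rcases Int.even_or_odd q with hq | hq
  · rw [hq.neg_one_zpow, mul_one]
    rw [cast_even hq] at h
    have h1 : c' = c := by
      revert c c'
      decide
    rw [h1]
  · rw [hq.neg_one_zpow]
    rw [cast_odd hq] at h
    rcases zm2 c with h1 | h1 <;> rcases zm2 c' with h2 | h2 <;> subst h1 <;> subst h2
    · exact absurd h (by decide)
    · simp [chs]
    · simp [chs]
    · exact absurd h (by decide)

theorem par_prc (c c' : ZMod 2) (a : R) :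
    chs k c' (-1) • prc (k := k) 𝓡 (c + c') a = chs k c (-1) • prc 𝓡 (c + c') (par (k := k) 𝓡 a) := by
  have h1 := gr_ext 𝓡 (f := chs k c' (-1) • prc (k := k) 𝓡 (c + c'))
    (g := chs k c (-1) • prc (k := k) 𝓡 (c + c') ∘ₗ par (k := k) 𝓡) (fun q a ha => by
      rw [LinearMap.smul_apply, LinearMap.smul_apply, LinearMap.comp_apply]
      unfold prc par
      rw [wt_apply 𝓡 _ ha, wt_apply 𝓡 _ ha, map_smul, wt_apply 𝓡 _ ha, smul_smul, smul_smul,
        smul_smul]
      congr 1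
      by_cases h : (q : ZMod 2) = c + c'
      · rw [if_pos h, mul_one, mul_one]
        exact chs_par h
      · rw [if_neg h, mul_zero, mul_zero]) a
  exact h1

/-! ### From `G` to `G × {1, -1}` -/

/-- the slots `1, 2, ..` of the map from `G` to `G × {1, -1}` -/
noncomputable def Ku (D : RedGroup k G) (χ χ' : ZMod 2) : Amb D R →ₗ[k] Amb (pm D) R :=
  Uc χ χ' ∘ₗ lft (prc 𝓡 (χ + χ'))

/-- the slot `0` -/
noncomputable def Lu (D : RedGroup k G) (χ χ' : ZMod 2) : Amb D R →ₗ[k] Amb (pm D) R :=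
  chs k χ (-1) • Ku 𝓡 D χ χ'

theorem Ku_em (χ χ' : ZMod 2) (x y : Ob D) (P : Matrix (Fin x.1) (Fin y.1) R) :
    Ku 𝓡 D χ χ' (em x y P) = em (up χ x) (up χ' y) (P.map (prc (k := k) 𝓡 (χ + χ'))) := by
  unfold Ku
  rw [LinearMap.comp_apply, lft_em, Uc_em]

theorem Ku_mul (x y z : Ob D) (P : Matrix (Fin x.1) (Fin y.1) R)
    (Q : Matrix (Fin y.1) (Fin z.1) R) (i l : ZMod 2) :
    ∑ m, Ku (k := k) 𝓡 D i m (em x y P) * Ku 𝓡 D m l (em y z Q) =
      Ku 𝓡 D i l (em x y P * em y z Q) := by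
  rw [em_mul, Ku_em]
  simp only [Ku_em]
  have h : ∀ m : ZMod 2, (em (up i x) (up m y) (P.map (prc (k := k) 𝓡 (i + m))) : Amb (pm D) R) *
      em (up m y) (up l z) (Q.map (prc (k := k) 𝓡 (m + l))) =
      em (up i x) (up l z) (P.map (prc (k := k) 𝓡 (i + m)) * Q.map (prc (k := k) 𝓡 (m + l))) :=
    fun m => em_mul (up i x) (up m y) (up l z) _ _
  simp only [h]
  rw [← map_sum]
  have key : ∑ m : ZMod 2, P.map (prc (k := k) 𝓡 (i + m)) * Q.map (prc (k := k) 𝓡 (m + l)) =
      (P * Q).map (prc (k := k) 𝓡 (i + l)) := by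
    ext u v
    rw [Matrix.sum_apply, Matrix.map_apply, Matrix.mul_apply, map_sum]
    simp only [Matrix.mul_apply, Matrix.map_apply]
    rw [sum_comm]
    exact sum_congr rfl fun w _ => prc_mul 𝓡 i l _ _
  exact congrArg (em (up i x) (up l z)) key

theorem Ku_par (x y : Ob D) (P : Matrix (Fin x.1) (Fin y.1) R) (i m : ZMod 2) :
    chs k m (-1) • Ku 𝓡 D i m (em x y P) =
      chs k i (-1) • Ku 𝓡 D i m (lft (par (k := k) 𝓡) (em x y P : Amb D R)) := by
  rw [lft_em, Ku_em, Ku_em, ← map_smul, ← map_smul]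
  have key : chs k m (-1) • P.map (prc (k := k) 𝓡 (i + m)) =
      chs k i (-1) • (P.map (par (k := k) 𝓡)).map (prc (k := k) 𝓡 (i + m)) := by
    ext u v
    simp only [Matrix.smul_apply, Matrix.map_apply]
    exact par_prc 𝓡 i m _
  exact congrArg (em (up i x) (up m y)) key

variable [MulSemiringAction G R] [SMulCommClass G k R]
variable [MulSemiringAction (G × ℤˣ) R] [SMulCommClass (G × ℤˣ) k R]

theorem up_Hm (hG : ∀ (g : G) q, ∀ a ∈ 𝓡 q, g • a ∈ 𝓡 q) (hC : PmC (G := G) 𝓡) {x y : Ob D}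
    {P : Matrix (Fin x.1) (Fin y.1) R} (hP : P ∈ Hm R y.2 x.2) (χ χ' : ZMod 2) :
    P.map (prc (k := k) 𝓡 (χ + χ')) ∈ Hm R (up χ' y).2 (up χ x).2 := by
  rintro ⟨g, ε⟩ i j
  have h1 : P.map (prc (k := k) 𝓡 (χ + χ')) ∈ Hm R y.2 x.2 :=
    map_Hm (prc 𝓡 (χ + χ')) (fun g a => wt_smul 𝓡 hG _ g a) hP
  have h2 := h1 g i j
  have h3 : ∀ a : R, chs k χ ε • sgo (k := k) 𝓡 ε (prc (k := k) 𝓡 (χ + χ') a) =
      chs k χ' ε • prc (k := k) 𝓡 (χ + χ') a := by
    intro a
    rcases Int.units_eq_one_or ε with h | h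
    · rw [h, sgo_id, chs_one, chs_one]
    · rw [h, sgo_par]
      have h4 := par_prc (k := k) 𝓡 χ χ' a
      rw [h4]
      congr 1
      unfold par prc
      rw [wt_comp, wt_comp]
      congr 2
      funext q
      rw [mul_comm]
  have h4 : ∀ a, (up χ x).2.m (g, ε) i a • (((g, ε) : G × ℤˣ) • P.map (prc (k := k) 𝓡 (χ + χ')) a j) =
      chs k χ' ε • (x.2.m g i a • (g • P.map (prc (k := k) 𝓡 (χ + χ')) a j)) := by
    intro a
    rw [hC g ε, Matrix.map_apply]
    change (chs k χ ε * x.2.m g i a) • _ = _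
    rw [mul_comm, mul_smul, ← smul_comm g (chs k χ ε), h3, smul_comm g (chs k χ' ε),
      smul_comm (x.2.m g i a)]
  have h5 : ∀ b, (up χ' y).2.m (g, ε) b j • P.map (prc (k := k) 𝓡 (χ + χ')) i b =
      chs k χ' ε • (y.2.m g b j • P.map (prc (k := k) 𝓡 (χ + χ')) i b) := by
    intro b
    change (chs k χ' ε * y.2.m g b j) • _ = _
    rw [mul_smul]
  have h6 : ∑ a, (up χ x).2.m (g, ε) i a • (((g, ε) : G × ℤˣ) •
      P.map (prc (k := k) 𝓡 (χ + χ')) a j) = ∑ a, chs k χ' ε • (x.2.m g i a •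
        (g • P.map (prc (k := k) 𝓡 (χ + χ')) a j)) := sum_congr rfl fun a _ => h4 a
  have h7 : ∑ b, (up χ' y).2.m (g, ε) b j • P.map (prc (k := k) 𝓡 (χ + χ')) i b =
      ∑ b, chs k χ' ε • (y.2.m g b j • P.map (prc (k := k) 𝓡 (χ + χ')) i b) :=
    sum_congr rfl fun b _ => h5 b
  refine h6.trans (Eq.trans ?_ h7.symm)
  rw [← smul_sum, ← smul_sum, h2]

theorem Ku_mem (hG : ∀ (g : G) q, ∀ a ∈ 𝓡 q, g • a ∈ 𝓡 q) (hC : PmC (G := G) 𝓡) {x y : Ob D}
    {a : Amb D R} (ha : a ∈ hom R x y) (i l : ZMod 2) :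
    Ku 𝓡 D i l a ∈ hom R (up i x) (up l y) := by
  obtain ⟨P, hP, rfl⟩ := ha
  exact ⟨_, up_Hm 𝓡 hG hC hP i l, (Ku_em 𝓡 i l x y P).symm⟩

end up

end Pool.Agent.Helper49.HE
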